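import Pool.Agent.H417Z.Sop

set_option autoImplicit false

/-!
The trace of a finite order linear substitution on the local algebra of an equivariant map.
-/

namespace Pool.Agent.H417Z.Sop

open IsLocalRing MvPowerSeries

variable {n : ℕ}

abbrev PS (n : ℕ) := MvPowerSeries (Fin n) ℂ

lemma mem_span_X (T : Finset (Fin n)) (p : PS n) :
    p ∈ Ideal.span ((fun j => (X j : PS n)) '' (T : Set (Fin n))) ↔
      ∀ d : Fin n →₀ ℕ, (∀ j ∈ T, d j = 0) → coeff d p = 0 := by
  classical
  constructor
  · intro h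
    induction h using Submodule.span_induction with
    | mem x hx =>
      obtain ⟨j, hj, rfl⟩ := hx
      intro d hd
      exact X_dvd_iff.1 dvd_rfl d (hd j hj)
    | zero => intro d _; simp
    | add x y _ _ hx hy => intro d hd; simp [hx d hd, hy d hd]
    | smul a x _ hx =>
      intro d hd
      rw [smul_eq_mul, coeff_mul]
      refine Finset.sum_eq_zero fun q hq => ?_
      rw [hx q.2, mul_zero]
      intro j hj
      have h1 := Finset.HasAntidiagonal.mem_antidiagonal.1 hq
      have h2 := hd j hj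
      rw [← h1, Finsupp.add_apply] at h2
      omega
  · induction T using Finset.induction_on generalizing p with
    | empty =>
      intro h
      have : p = 0 := by
        ext d
        exact h d (by simp)
      rw [this]
      exact Ideal.zero_mem _
    | insert j T hj ih =>
      intro h
      let r : PS n := fun d => if d j = 0 then coeff d p else 0
      have hr : ∀ d, coeff d r = if d j = 0 then coeff d p else 0 := fun _ => rfl
      have h1 : X j ∣ p - r := by
        rw [X_dvd_iff]
        intro d hd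
        rw [map_sub, hr, if_pos hd, sub_self]
      have h2 := ih r (by
        intro d hd
        rw [hr]
        split_ifs with h0
        · refine h d fun i hi => ?_
          rcases Finset.mem_insert.1 hi with rfl | hi
          · exact h0
          · exact hd i hi
        · rfl)
      have e : p = (p - r) + r := by ring
      rw [e]
      refine Ideal.add_mem _ ?_ (Ideal.span_mono (Set.image_mono (by simp)) h2)
      obtain ⟨q, hq⟩ := h1
      rw [hq]
      exact Ideal.mul_mem_right _ _ (Ideal.subset_span ⟨j, by simp, rfl⟩)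

lemma mem_max (p : PS n) : p ∈ maximalIdeal (PS n) ↔ constantCoeff p = 0 := by
  rw [mem_maximalIdeal, mem_nonunits_iff, isUnit_iff_constantCoeff, isUnit_iff_ne_zero, not_not]

lemma max_eq : maximalIdeal (PS n) = Ideal.span (Set.range (fun j => (X j : PS n))) := by
  ext p
  have := mem_span_X Finset.univ p
  rw [Finset.coe_univ, Set.image_univ] at this
  rw [this, mem_max]
  constructor
  · intro h d hd
    have : d = 0 := by
      ext j
      exact hd j (Finset.mem_univ _)
    rw [this]
    exact h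
  · intro h
    exact h 0 (by simp)

lemma regL_X : ∀ (L : List (Fin n)) (T : Finset (Fin n)), L.Nodup → (∀ i ∈ L, i ∉ T) →
    RegL (Ideal.span ((fun j => (X j : PS n)) '' (T : Set (Fin n)))) (L.map X)
  | [], _, _, _ => trivial
  | i :: L, T, hL, hT => by
    rw [List.nodup_cons] at hL
    refine ⟨?_, ?_⟩
    · intro r hr
      rw [mem_span_X] at hr ⊢
      intro d hd
      have := hr (Finsupp.single i 1 + d) (by
        intro j hj
        have : i ≠ j := fun h => hT i (by simp) (h ▸ hj)
        simp [hd j hj, this])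
      rwa [X_def, coeff_add_monomial_mul, one_mul] at this
    · have := regL_X L (insert i T) hL.2 (by
        intro j hj h
        rcases Finset.mem_insert.1 h with rfl | h
        · exact hL.1 hj
        · exact hT j (by simp [hj]) h)
      rwa [Finset.coe_insert, Set.image_insert_eq, Ideal.span_insert, sup_comm] at this

lemma approx (k : ℕ) : ∀ p : PS n, ∃ q ∈ Algebra.adjoin ℂ (Set.range (fun j => (X j : PS n))),
    p - q ∈ maximalIdeal (PS n) ^ k := by
  induction k with
  | zero => exact fun p => ⟨0, Subalgebra.zero_mem _, by simp⟩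
  | succ k ih =>
    intro p
    have h1 : p - C (constantCoeff p) ∈ maximalIdeal (PS n) := by
      rw [mem_max]; simp
    rw [max_eq, Ideal.mem_span_range_iff_exists_fun] at h1
    obtain ⟨c, hc⟩ := h1
    choose q hq1 hq2 using fun j => ih (c j)
    refine ⟨C (constantCoeff p) + ∑ j, q j * X j, ?_, ?_⟩
    · refine Subalgebra.add_mem _ (Subalgebra.algebraMap_mem _ _) (Subalgebra.sum_mem _ ?_)
      exact fun j _ => Subalgebra.mul_mem _ (hq1 j) (Algebra.subset_adjoin ⟨j, rfl⟩)
    · rw [← sub_sub, ← hc, ← Finset.sum_sub_distrib, pow_succ]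
      refine Ideal.sum_mem _ fun j _ => ?_
      rw [← sub_mul]
      exact Ideal.mul_mem_mul (hq2 j) (by rw [mem_max]; simp)

lemma adjoin_top {I : Ideal (PS n)} (h : Prim I) :
    Algebra.adjoin ℂ (Set.range (fun j => Ideal.Quotient.mk I (X j))) = ⊤ := by
  obtain ⟨N, hN⟩ := h.pow_le
  rw [eq_top_iff]
  intro x _
  obtain ⟨p, rfl⟩ := Ideal.Quotient.mk_surjective x
  obtain ⟨q, hq1, hq2⟩ := approx N p
  rw [Ideal.Quotient.eq.2 (hN hq2)]
  have := Subalgebra.mem_map.2 ⟨q, hq1, (rfl : Ideal.Quotient.mkₐ ℂ I q = _)⟩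
  rw [AlgHom.map_adjoin, ← Set.range_comp] at this
  exact this

lemma finite_of_prim (I : Ideal (PS n)) (h : Prim I) : Module.Finite ℂ (PS n ⧸ I) := by
  obtain ⟨N, hN⟩ := h.pow_le
  have h1 := Algebra.finite_adjoin_of_finite_of_isIntegral (R := ℂ)
    (Set.finite_range (fun j => Ideal.Quotient.mk I (X j))) (by
      rintro _ ⟨j, rfl⟩
      refine IsIntegral.of_pow (n := N + 1) (Nat.succ_pos N) ?_
      suffices h : Ideal.Quotient.mk I (X j) ^ N = 0 by
        rw [pow_succ, h, zero_mul]; exact isIntegral_zero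
      rw [← map_pow, Ideal.Quotient.eq_zero_iff_mem]
      exact hN (Ideal.pow_mem_pow (by rw [mem_max]; simp) N))
  rw [adjoin_top h] at h1
  exact Module.Finite.equiv (Subalgebra.topEquiv (R := ℂ) (A := PS n ⧸ I)).toLinearEquiv

lemma prim_of_finite (I : Ideal (PS n)) [Module.Finite ℂ (PS n ⧸ I)] : Prim I := by
  intro P hP hI
  have : Module.Finite ℂ (PS n ⧸ P) :=
    Module.Finite.of_surjective (Ideal.Quotient.factorₐ ℂ hI).toLinearMap (by
      intro x
      obtain ⟨x, rfl⟩ := Ideal.Quotient.mk_surjective x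
      exact ⟨Ideal.Quotient.mk _ x, rfl⟩)
  have : IsArtinianRing (PS n ⧸ P) := IsArtinianRing.of_finite ℂ _
  have hm := Ideal.Quotient.maximal_of_isField P (IsArtinianRing.isField_of_isDomain _)
  exact (eq_maximalIdeal hm).ge

lemma exists_eigenbasis (A : Matrix (Fin n) (Fin n) ℂ) (m : ℕ) (hm : 0 < m) (hA : A ^ m = 1) :
    ∃ (v : Fin n → Fin n → ℂ) (d : Fin n → ℂ), Submodule.span ℂ (Set.range v) = ⊤ ∧
      ∀ i, Matrix.vecMul (v i) A = d i • v i := by
  let φ : Module.End ℂ (Fin n → ℂ) := Matrix.toLinAlgEquiv' A.transpose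
  have hφ : ∀ w, φ w = Matrix.vecMul w A := fun w => by
    simp [φ, Matrix.toLinAlgEquiv'_apply, Matrix.mulVec_transpose]
  have h1 : φ.IsSemisimple := by
    refine Module.End.isSemisimple_of_squarefree_aeval_eq_zero
      (p := Polynomial.X ^ m - 1) ?_ ?_
    · exact (Polynomial.X_pow_sub_one_separable_iff.2 (by exact_mod_cast hm.ne')).squarefree
    · rw [map_sub, map_pow, Polynomial.aeval_X, map_one, ← map_pow, ← Matrix.transpose_pow, hA,
        Matrix.transpose_one, map_one, sub_self]
  have h2 : Submodule.span ℂ {w | ∃ d : ℂ, φ w = d • w} = ⊤ := by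
    rw [eq_top_iff, ← h1.iSup_eigenspace_eq_top]
    refine iSup_le fun d w hw => Submodule.subset_span ⟨d, ?_⟩
    exact Module.End.mem_eigenspace_iff.1 hw
  obtain ⟨b, hb1, hb2, hb3⟩ := exists_linearIndependent ℂ {w | ∃ d : ℂ, φ w = d • w}
  rw [h2] at hb2
  let B : Module.Basis b ℂ (Fin n → ℂ) := Module.Basis.mk hb3 (by simp [hb2])
  let e := B.indexEquiv (Pi.basisFun ℂ (Fin n))
  choose d hd using fun i : Fin n => hb1 (e.symm i).2
  refine ⟨fun i => (e.symm i : Fin n → ℂ), d, ?_, fun i => by rw [← hφ]; exact hd i⟩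
  rw [← hb2]
  congr 1
  ext w
  constructor
  · rintro ⟨i, rfl⟩
    exact (e.symm i).2
  · intro hw
    exact ⟨e ⟨w, hw⟩, by simp⟩

lemma comb_mem {O : Type} [CommRing O] [Algebra ℂ O] (J : Ideal O)
    (Φ : (Fin n → ℂ) →ₗ[ℂ] O) (v : Fin n → Fin n → ℂ)
    (hv : Submodule.span ℂ (Set.range v) = ⊤) (h : ∀ i, Φ (v i) ∈ J) (w : Fin n → ℂ) :
    Φ w ∈ J := by
  have : Submodule.span ℂ (Set.range v) ≤ (J.restrictScalars ℂ).comap Φ := by
    rw [Submodule.span_le]
    rintro _ ⟨i, rfl⟩
    exact h i
  exact this (hv ▸ Submodule.mem_top)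

lemma comb_map {O : Type} [CommRing O] [Algebra ℂ O] (σ : O →ₐ[ℂ] O) (u : Fin n → O)
    (A : Matrix (Fin n) (Fin n) ℂ) (h : ∀ i, σ (u i) = ∑ j, A i j • u j) (w : Fin n → ℂ) :
    σ (Fintype.linearCombination ℂ u w) = Fintype.linearCombination ℂ u (Matrix.vecMul w A) := by
  simp only [Fintype.linearCombination_apply, map_sum, map_smul, h, Finset.smul_sum,
    Matrix.vecMul, dotProduct, Finset.sum_smul, smul_smul]
  exact Finset.sum_comm

lemma smul_cancel {O : Type} [CommRing O] [Algebra ℂ O] (J : Ideal O) {c : ℂ} (hc : c ≠ 0)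
    {x : O} (h : c • x ∈ J) : x ∈ J := by
  have := J.smul_of_tower_mem c⁻¹ h
  rwa [smul_smul, inv_mul_cancel₀ hc, one_smul] at this

theorem trace_eq (A : Matrix (Fin n) (Fin n) ℂ) (m : ℕ) (hm : 0 < m) (hA : A ^ m = 1)
    (f : Fin n → MvPolynomial (Fin n) ℂ)
    (hf : ∀ i, MvPolynomial.aeval
      (fun j : Fin n => ∑ k : Fin n, A j k • (MvPolynomial.X k : MvPolynomial (Fin n) ℂ)) (f i)
        = ∑ j : Fin n, A i j • f j)
    (h0 : ∀ i, MvPolynomial.constantCoeff (f i) = 0)
    (I K : Ideal (PS n)) (hI : I = Ideal.span (Set.range (fun i => (f i : PS n))))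
    (hK : K = Ideal.span (Set.range (fun i => (f i : PS n)) ∪
        Set.range (fun i => ∑ j, (A - 1) i j • (X j : PS n))))
    [Module.Finite ℂ (PS n ⧸ I)] (T : (PS n ⧸ I) →ₐ[ℂ] (PS n ⧸ I))
    (hT : ∀ i, T (Ideal.Quotient.mk _ (X i)) = Ideal.Quotient.mk _ (∑ j, A i j • (X j : PS n))) :
    LinearMap.trace ℂ _ T.toLinearMap = (Module.finrank ℂ (PS n ⧸ K) : ℂ) := by
  classical
  have hs : HasSubst (fun i : Fin n => ∑ j, A i j • (X j : PS n)) :=
    hasSubst_of_constantCoeff_zero (by intro i; simp)
  let σ : PS n →ₐ[ℂ] PS n := substAlgHom hs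
  have σX : ∀ i, σ (X i) = ∑ j, A i j • (X j : PS n) := fun i => substAlgHom_X hs i
  let ι : MvPolynomial (Fin n) ℂ →ₐ[ℂ] PS n := MvPolynomial.coeToMvPowerSeries.algHom ℂ
  have hι : ∀ p, ι p = (p : PS n) := fun p => by
    simp [ι, MvPolynomial.coeToMvPowerSeries.algHom_apply]
  have σf : ∀ i, σ (f i) = ∑ j, A i j • (f j : PS n) := by
    intro i
    have e : σ.comp ι = ι.comp (MvPolynomial.aeval
        (fun j : Fin n => ∑ k : Fin n, A j k • (MvPolynomial.X k : MvPolynomial (Fin n) ℂ))) := by
      refine MvPolynomial.algHom_ext fun j => ?_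
      simp only [AlgHom.comp_apply, MvPolynomial.aeval_X, map_sum, map_smul]
      simp only [hι, MvPolynomial.coe_X, σX]
    have := AlgHom.congr_fun e (f i)
    simp only [AlgHom.comp_apply, hf, map_sum, map_smul] at this
    simp only [hι] at this
    exact this
  obtain ⟨v, d, hv, hd⟩ := exists_eigenbasis A m hm hA
  have fI : ∀ j, (f j : PS n) ∈ I := fun j => hI ▸ Ideal.subset_span ⟨j, rfl⟩
  have ZK : ∀ i, ∑ j, (A - 1) i j • (X j : PS n) ∈ K := fun i =>
    hK ▸ Ideal.subset_span (Or.inr ⟨i, rfl⟩)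
  let LX := Fintype.linearCombination ℂ (fun j => (X j : PS n))
  let Lf := Fintype.linearCombination ℂ (fun j => (f j : PS n))
  have σy : ∀ i, σ (LX (v i)) = d i • LX (v i) := fun i => by
    rw [comb_map σ _ A σX, hd, map_smul]
  have σh : ∀ i, σ (Lf (v i)) = d i • Lf (v i) := fun i => by
    rw [comb_map σ _ A σf, hd, map_smul]
  have LXm : ∀ w, LX w ∈ maximalIdeal (PS n) := fun w => by
    rw [mem_max]; simp [LX, Fintype.linearCombination_apply]
  have LfI : ∀ w, Lf w ∈ I := fun w => by
    simp only [Lf, Fintype.linearCombination_apply]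
    exact Ideal.sum_mem _ fun j _ => I.smul_of_tower_mem _ (fI j)
  have Im : I ≤ maximalIdeal (PS n) := by
    rw [hI, Ideal.span_le]
    rintro _ ⟨j, rfl⟩
    rw [SetLike.mem_coe, mem_max]
    exact h0 j
  have Lf1 : ∀ j, Lf (Pi.single j 1) = (f j : PS n) := fun j => by simp [Lf]
  have pI : Prim I := prim_of_finite I
  have IK : I ≤ K := by rw [hI, hK]; exact Ideal.span_mono Set.subset_union_left
  let TT : List (PS n × PS n) :=
    ((List.finRange n).filter (fun i => d i ≠ 1)).map (fun i => (Lf (v i), LX (v i)))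
  let CC : List (PS n) := ((List.finRange n).filter (fun i => d i = 1)).map (fun i => Lf (v i))
  have e1 : Ideal.ofList (TT.map Prod.fst ++ CC) = I := by
    apply le_antisymm
    · refine Ideal.span_le.2 fun x hx => ?_
      simp only [TT, CC, List.map_map, List.mem_append, List.mem_map, Set.mem_ofPred_eq] at hx
      rcases hx with ⟨i, _, rfl⟩ | ⟨i, _, rfl⟩
      · exact LfI _
      · exact LfI _
    · rw [hI, Ideal.span_le]
      rintro _ ⟨j, rfl⟩
      rw [SetLike.mem_coe]
      beta_reduce
      rw [← Lf1]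
      refine comb_mem _ Lf v hv (fun i => Ideal.subset_span ?_) _
      simp only [TT, CC, List.map_map, List.mem_append, List.mem_map, Set.mem_ofPred_eq]
      by_cases h : d i = 1
      · exact Or.inr ⟨i, by simp [h], rfl⟩
      · exact Or.inl ⟨i, by simp [h], rfl⟩
  have hZ : ∀ w, LX (Matrix.vecMul w (A - 1)) = ∑ i, w i • ∑ j, (A - 1) i j • (X j : PS n) := by
    intro w
    simp only [LX, Fintype.linearCombination_apply, Finset.smul_sum,
      Matrix.vecMul, dotProduct, Finset.sum_smul, smul_smul]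
    exact Finset.sum_comm
  have hZv : ∀ i, LX (Matrix.vecMul (v i) (A - 1)) = (d i - 1) • LX (v i) := by
    intro i
    rw [Matrix.vecMul_sub, hd, Matrix.vecMul_one, map_sub, map_smul, sub_smul, one_smul]
  have hZX : ∀ i, ∑ j, (A - 1) i j • (X j : PS n) = σ (X i) - X i := by
    intro i
    simp [σX, sub_smul, Finset.sum_sub_distrib, Matrix.one_apply]
  have e2 : Ideal.ofList (TT.map Prod.snd ++ CC) = K := by
    apply le_antisymm
    · refine Ideal.span_le.2 fun x hx => ?_
      simp only [TT, CC, List.map_map, List.mem_append, List.mem_map, Set.mem_ofPred_eq] at hx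
      rcases hx with ⟨i, hi, rfl⟩ | ⟨i, _, rfl⟩
      · have hi' : d i ≠ 1 := by simpa using hi
        refine smul_cancel K (sub_ne_zero.2 hi') ?_
        simp only [Function.comp_apply]
        rw [← hZv, hZ]
        exact Ideal.sum_mem _ fun k _ => K.smul_of_tower_mem _ (ZK k)
      · exact IK (LfI _)
    · set K' := Ideal.ofList (TT.map Prod.snd ++ CC) with hK'
      have a1 : ∀ k, ∑ j, (A - 1) k j • (X j : PS n) ∈ K' := by
        intro k
        have := comb_mem K' (LX ∘ₗ Matrix.vecMulLinear (A - 1)) v hv (by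
          intro i
          rw [LinearMap.comp_apply, Matrix.vecMulLinear_apply, hZv]
          by_cases h : d i = 1
          · simp [h]
          · refine K'.smul_of_tower_mem _ (Ideal.subset_span ?_)
            simp only [TT, CC, List.map_map, List.mem_append, List.mem_map, Set.mem_ofPred_eq]
            exact Or.inl ⟨i, by simp [h], rfl⟩) (Pi.single k 1)
        rw [LinearMap.comp_apply, Matrix.vecMulLinear_apply, hZ] at this
        simpa [Pi.single_apply] using this
      have a2 : ∀ j, σ (f j) - f j ∈ K' := by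
        intro j
        have e : (Ideal.Quotient.mkₐ ℂ K').comp (σ.comp ι) = (Ideal.Quotient.mkₐ ℂ K').comp ι := by
          refine MvPolynomial.algHom_ext fun k => ?_
          simp only [AlgHom.comp_apply, hι, MvPolynomial.coe_X, Ideal.Quotient.mkₐ_eq_mk]
          rw [Ideal.Quotient.eq, ← hZX]
          exact a1 k
        have := AlgHom.congr_fun e (f j)
        simp only [AlgHom.comp_apply, hι, Ideal.Quotient.mkₐ_eq_mk] at this
        exact Ideal.Quotient.eq.1 this
      rw [hK, Ideal.span_le]
      rintro _ (⟨j, rfl⟩ | ⟨k, rfl⟩)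
      · rw [SetLike.mem_coe]
        beta_reduce
        rw [← Lf1]
        refine comb_mem _ Lf v hv (fun i => ?_) _
        by_cases h : d i = 1
        · refine Ideal.subset_span ?_
          simp only [TT, CC, List.map_map, List.mem_append, List.mem_map, Set.mem_ofPred_eq]
          exact Or.inr ⟨i, by simp [h], rfl⟩
        · refine smul_cancel K' (sub_ne_zero.2 h) ?_
          rw [sub_smul, one_smul, ← σh]
          simp only [Lf, Fintype.linearCombination_apply, map_sum, map_smul]
          rw [← Finset.sum_sub_distrib]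
          refine Ideal.sum_mem _ fun j _ => ?_
          rw [← smul_sub]
          exact K'.smul_of_tower_mem _ (a2 j)
      · exact a1 k
  have hTT : ∀ t ∈ TT, t.1 ∈ maximalIdeal (PS n) ∧ t.2 ∈ maximalIdeal (PS n) ∧
      ∃ l : ℂ, l ≠ 1 ∧ σ t.1 = l • t.1 ∧ σ t.2 = l • t.2 := by
    intro t ht
    obtain ⟨i, hi, rfl⟩ := List.mem_map.1 ht
    exact ⟨Im (LfI _), LXm _, d i, by simpa using hi, σh i, σy i⟩
  have hCC : ∀ x ∈ CC, x ∈ maximalIdeal (PS n) ∧ ∃ l : ℂ, σ x = l • x := by
    intro t ht
    obtain ⟨i, _, rfl⟩ := List.mem_map.1 ht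
    exact ⟨Im (LfI _), d i, σh i⟩
  have stK : ∀ x ∈ K, σ x ∈ K := by
    rw [← e2]
    refine stable_ofList σ _ fun x hx => ?_
    rcases List.mem_append.1 hx with hx | hx
    · obtain ⟨t, ht, rfl⟩ := List.mem_map.1 hx
      obtain ⟨_, _, l, _, _, h⟩ := hTT t ht
      exact ⟨l, h⟩
    · exact (hCC x hx).2
  have stI : ∀ x ∈ I, σ x ∈ I := by
    rw [← e1]
    refine stable_ofList σ _ fun x hx => ?_
    rcases List.mem_append.1 hx with hx | hx
    · obtain ⟨t, ht, rfl⟩ := List.mem_map.1 hx
      obtain ⟨_, _, l, _, h, _⟩ := hTT t ht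
      exact ⟨l, h⟩
    · exact (hCC x hx).2
  have trK : HasTr σ K (Module.finrank ℂ (PS n ⧸ K)) := by
    have := finite_of_prim K (pI.mono IK)
    refine ⟨LinearMap.id, fun x => ?_, by simp⟩
    have e : AlgHom.id ℂ (PS n ⧸ K) = Ideal.quotientMapₐ K σ stK := by
      refine AlgHom.ext_of_adjoin_eq_top (adjoin_top (pI.mono IK)) ?_
      rintro _ ⟨j, rfl⟩
      change Ideal.Quotient.mk K (X j) = Ideal.Quotient.mk K (σ (X j))
      symm
      rw [Ideal.Quotient.eq, ← hZX]
      exact ZK j
    exact AlgHom.congr_fun e (Ideal.Quotient.mk K x)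
  have trI : HasTr σ I (LinearMap.trace ℂ _ T.toLinearMap) := by
    refine ⟨T.toLinearMap, fun x => ?_, rfl⟩
    have e : T = Ideal.quotientMapₐ I σ stI := by
      refine AlgHom.ext_of_adjoin_eq_top (adjoin_top pI) ?_
      rintro _ ⟨j, rfl⟩
      change T (Ideal.Quotient.mk I (X j)) = Ideal.Quotient.mk I (σ (X j))
      rw [hT, σX]
    exact AlgHom.congr_fun e (Ideal.Quotient.mk I x)
  have hXreg : RegL ⊥ ((List.finRange n).map (fun j => (X j : PS n))) := by
    have := regL_X (List.finRange n) ∅ (List.nodup_finRange n) (by simp)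
    simpa using this
  have := trace_exchange σ ((List.finRange n).map (fun j => (X j : PS n))) (by
      intro x hx
      obtain ⟨j, _, rfl⟩ := List.mem_map.1 hx
      rw [mem_max]; simp) hXreg (by
      intro P _ h
      rw [max_eq, Ideal.span_le]
      rintro _ ⟨j, rfl⟩
      exact h (Ideal.subset_span (List.mem_map.2 ⟨j, List.mem_finRange j, rfl⟩)))
    finite_of_prim TT CC hTT hCC (by
      have := (List.filter_append_perm (fun i => decide (d i ≠ 1)) (List.finRange n)).length_eq
      simpa [TT, CC] using this)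
    (by rw [e1]; exact pI) (by rw [e2]; exact pI.mono IK) _ (by rw [e2]; exact trK)
  rw [e1] at this
  exact trI.unique this

end Pool.Agent.H417Z.Sop
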