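import Pool.Agent.Helper64.Gow10
import Pool.Agent.Helper309.Aff.A1

set_option autoImplicit false

/-! Collinear triples for all line sizes, ordered degrees, and the deletion argument with weights. -/

namespace Pool.Agent.H417Z.GC

open Finset Pool.Agent.Helper64.Gow Pool.Agent.Helper64.Res
open scoped Classical

/-- general position in coordinates -/
def GP (S : Finset Pt) : Prop := ∀ a ∈ S, ∀ b ∈ S, ∀ c ∈ S, a ≠ b → a ≠ c → b ≠ c → ¬ col a b c

lemma XI_sub {V P : Finset Pt} (hx : XI P) (h : V ⊆ P) : XI V :=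
  fun p hp q hq e => hx p (h hp) q (h hq) e

lemma lineb_sub {V P : Finset Pt} {B : ℕ} (hB : ∀ L ∈ lines P, (pl P L).card ≤ B) (h : V ⊆ P) :
    ∀ L ∈ lines V, (pl V L).card ≤ B := fun L hL => (pl_mono h L).trans (hB L (lines_sub h hL))

theorem triples_all {V : Finset Pt} (hx : XI V) {B : ℕ} (hB : ∀ L ∈ lines V, (pl V L).card ≤ B) (hB0 : 1 ≤ B) :
    (Tr V : ℝ) ≤ 1728 * (V.card : ℝ) * (V.card * (2 + Real.log B) + (B : ℝ) ^ 2) := by
  have h1 : Tr V ≤ ∑ j ∈ range B, (3 * j ^ 2 + 3 * j + 1) * ((lines V).filter (fun L => j < (pl V L).card)).card := by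
    rw [Tr_eq]
    refine (Tr_le hx).trans ?_
    calc ∑ L ∈ lines V, (pl V L).card ^ 3
        = ∑ L ∈ lines V, ∑ j ∈ range B, (if j < (pl V L).card then (3 * j ^ 2 + 3 * j + 1) else 0) := by
          apply sum_congr rfl
          intro L hL
          rw [cube_sum, ← sum_filter]
          apply sum_congr _ (fun _ _ => rfl)
          ext j
          rw [mem_filter, mem_range, mem_range]
          have := hB L hL
          constructor
          · intro h; exact ⟨by omega, h⟩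
          · intro h; exact h.2
      _ = ∑ j ∈ range B, ∑ L ∈ lines V, (if j < (pl V L).card then (3 * j ^ 2 + 3 * j + 1) else 0) := sum_comm
      _ = _ := by
          apply sum_congr rfl
          intro j _
          rw [← sum_filter, sum_const, smul_eq_mul, mul_comm]
      _ ≤ _ := le_rfl
  set m : ℕ → ℕ := fun j => ((lines V).filter (fun L => j < (pl V L).card)).card with hm
  set n : ℝ := (V.card : ℝ) with hn
  have hn0 : 0 ≤ n := Nat.cast_nonneg _
  have hterm : ∀ j ∈ range B, (3 * (j : ℝ) ^ 2 + 3 * j + 1) * (m j : ℝ)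
      ≤ 1728 * n ^ 2 * (1 / ((j : ℝ) + 1)) + 1728 * n * B := by
    intro j hj
    rw [mem_range] at hj
    have hjB : (j : ℝ) + 1 ≤ B := by exact_mod_cast hj
    have hj0 : (0 : ℝ) ≤ j := Nat.cast_nonneg j
    rcases Nat.eq_zero_or_pos j with h0 | h0
    · subst h0
      have h2 : m 0 ≤ V.card ^ 2 := by
        refine (card_filter_le _ _).trans ?_
        unfold lines
        refine card_image_le.trans ?_
        rw [offDiag_card, sq]
        exact Nat.sub_le _ _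
      have h3 : (m 0 : ℝ) ≤ n ^ 2 := by rw [hn]; exact_mod_cast h2
      have h4 : 0 ≤ n * B := by positivity
      have h5 : 0 ≤ n ^ 2 := by positivity
      simp only [Nat.cast_zero]
      nlinarith
    · have h2 := Pool.Agent.Helper309.Aff.st_rich (V := V)
        (Ls := (lines V).filter (fun L => j < (pl V L).card)) hx (j := j + 1) (by omega) (by
          intro L hL
          have := (mem_filter.1 hL).2
          unfold pl at this
          exact this)
      have h3 : ((j : ℝ) + 1) ^ 3 * (m j : ℝ) ≤ 576 * (n ^ 2 + ((j : ℝ) + 1) ^ 2 * n) := by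
        rw [hn]
        exact_mod_cast h2
      have hj1 : (0 : ℝ) < (j : ℝ) + 1 := by positivity
      have h4 : (3 * (j : ℝ) ^ 2 + 3 * j + 1) ≤ 3 * ((j : ℝ) + 1) ^ 2 := by nlinarith
      have hm0 : (0 : ℝ) ≤ m j := Nat.cast_nonneg _
      calc (3 * (j : ℝ) ^ 2 + 3 * j + 1) * (m j : ℝ) ≤ 3 * ((j : ℝ) + 1) ^ 2 * (m j : ℝ) :=
            mul_le_mul_of_nonneg_right h4 hm0
        _ = 3 * (((j : ℝ) + 1) ^ 3 * (m j : ℝ)) / ((j : ℝ) + 1) := by field_simp
        _ ≤ 3 * (576 * (n ^ 2 + ((j : ℝ) + 1) ^ 2 * n)) / ((j : ℝ) + 1) := by gcongr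
        _ = 1728 * n ^ 2 * (1 / ((j : ℝ) + 1)) + 1728 * n * ((j : ℝ) + 1) := by field_simp; ring
        _ ≤ _ := by gcongr
  have h2 : (Tr V : ℝ) ≤ ∑ j ∈ range B, (3 * (j : ℝ) ^ 2 + 3 * j + 1) * (m j : ℝ) := by exact_mod_cast h1
  have h3 := h2.trans (sum_le_sum hterm)
  rw [sum_add_distrib, ← mul_sum, sum_const, card_range, nsmul_eq_mul] at h3
  have h6 : ∑ j ∈ range B, 1 / ((j : ℝ) + 1) ≤ 1 + Real.log B := by
    have h7 := harmonic_le_one_add_log B
    have h8 : ((harmonic B : ℚ) : ℝ) = ∑ j ∈ range B, 1 / ((j : ℝ) + 1) := by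
      unfold harmonic
      push_cast
      apply sum_congr rfl
      intro j _
      rw [one_div]
    rw [← h8]
    exact h7
  have h9 : 1728 * n ^ 2 * ∑ j ∈ range B, 1 / ((j : ℝ) + 1) ≤ 1728 * n ^ 2 * (1 + Real.log B) :=
    mul_le_mul_of_nonneg_left h6 (by positivity)
  have h10 : 0 ≤ n ^ 2 := by positivity
  nlinarith

/-- the points of weight at least `j` -/
noncomputable def up (U : Finset Pt) (w : Pt → ℕ) (j : ℕ) : Finset Pt := U.filter (fun x => j ≤ w x)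

/-- the degree of `z` among the points at least as heavy -/
noncomputable def bd (U : Finset Pt) (w : Pt → ℕ) (z : Pt) : ℕ := deg (up U w (w z)) z

lemma up_sub (U : Finset Pt) (w : Pt → ℕ) (j : ℕ) : up U w j ⊆ U := filter_subset _ _

lemma up_mono {U U' : Finset Pt} (h : U ⊆ U') (w : Pt → ℕ) {j j' : ℕ} (hj : j' ≤ j) :
    up U w j ⊆ up U' w j' := by
  intro x hx
  unfold up at hx ⊢
  rw [mem_filter] at hx ⊢
  exact ⟨h hx.1, hj.trans hx.2⟩

lemma bd_mono {U U' : Finset Pt} (h : U ⊆ U') (w : Pt → ℕ) (z : Pt) : bd U w z ≤ bd U' w z :=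
  deg_mono (up_mono h w le_rfl) z

lemma layer {U : Finset Pt} {w : Pt → ℕ} {D0 : ℝ} (h : ∀ U' ⊆ U, (Tr U' : ℝ) ≤ D0 * U'.card) :
    ∑ z ∈ U, (w z : ℝ) * bd U w z ≤ D0 * ∑ z ∈ U, (w z : ℝ) := by
  set Y := U.sup w with hY
  have hw : ∀ z ∈ U, (w z : ℝ) = ∑ j ∈ range Y, (if j + 1 ≤ w z then (1 : ℝ) else 0) := by
    intro z hz
    have hle : w z ≤ Y := le_sup (f := w) hz
    rw [sum_boole]
    congr 1
    have : (range Y).filter (fun j => j + 1 ≤ w z) = range (w z) := by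
      ext j
      rw [mem_filter, mem_range, mem_range]
      omega
    rw [this, card_range]
  have e1 : ∑ z ∈ U, (w z : ℝ) * bd U w z
      = ∑ j ∈ range Y, ∑ z ∈ U, (if j + 1 ≤ w z then (bd U w z : ℝ) else 0) := by
    rw [sum_comm]
    apply sum_congr rfl
    intro z hz
    rw [hw z hz, sum_mul]
    apply sum_congr rfl
    intro j _
    split_ifs <;> simp
  have e2 : ∑ z ∈ U, (w z : ℝ) = ∑ j ∈ range Y, ((up U w (j + 1)).card : ℝ) := by
    rw [sum_congr rfl hw, sum_comm]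
    apply sum_congr rfl
    intro j _
    rw [sum_boole]
    rfl
  rw [e1, e2, mul_sum]
  apply sum_le_sum
  intro j _
  refine le_trans ?_ (h _ (up_sub U w (j + 1)))
  rw [← sum_filter]
  unfold Tr
  push_cast
  apply sum_le_sum
  intro z hz
  have hz2 := (mem_filter.1 hz).2
  have : bd U w z ≤ deg (up U w (j + 1)) z := deg_mono (up_mono subset_rfl w hz2) z
  exact_mod_cast this

/-- ordered triples whose first point is the lightest -/
noncomputable def bt (V : Finset Pt) (w : Pt → ℕ) : Finset (Pt × Pt × Pt) :=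
  (trs V).filter (fun q => w q.1 ≤ w q.2.1 ∧ w q.1 ≤ w q.2.2)

lemma mem_trs {V : Finset Pt} {q : Pt × Pt × Pt} : q ∈ trs V ↔
    (q.1 ∈ V ∧ q.2.1 ∈ V ∧ q.2.2 ∈ V) ∧ q.1 ≠ q.2.1 ∧ q.2.2 ≠ q.1 ∧ q.2.2 ≠ q.2.1 ∧ col q.1 q.2.1 q.2.2 := by
  unfold trs
  simp only [mem_filter, mem_product]

lemma deg_eq (U : Finset Pt) (z : Pt) :
    deg U z = ((U ×ˢ U).filter (fun q => z ≠ q.1 ∧ q.2 ≠ z ∧ q.2 ≠ q.1 ∧ col z q.1 q.2)).card := by
  unfold deg ll
  simp only [card_filter, sum_product]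

lemma bt_sum (V : Finset Pt) (w : Pt → ℕ) (f : Pt → ℝ) :
    ∑ q ∈ bt V w, f q.1 = ∑ z ∈ V, f z * bd V w z := by
  have h1 : ∑ q ∈ bt V w, f q.1 = ∑ z ∈ V, ∑ q ∈ (bt V w).filter (fun q => q.1 = z), f q.1 := by
    symm
    apply sum_fiberwise_of_maps_to
    intro q hq
    exact (mem_trs.1 (mem_filter.1 hq).1).1.1
  rw [h1]
  apply sum_congr rfl
  intro z hz
  rw [sum_congr rfl (g := fun _ => f z) (fun q hq => by rw [(mem_filter.1 hq).2]), sum_const, nsmul_eq_mul, mul_comm]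
  congr 2
  unfold bd
  rw [deg_eq]
  apply card_bij (fun q _ => q.2)
  · intro q hq
    rw [mem_filter] at hq
    obtain ⟨hq1, rfl⟩ := hq
    unfold bt at hq1
    rw [mem_filter, mem_trs] at hq1
    unfold up
    simp only [mem_filter, mem_product]
    exact ⟨⟨⟨hq1.1.1.2.1, hq1.2.1⟩, hq1.1.1.2.2, hq1.2.2⟩, hq1.1.2⟩
  · intro q hq q' hq' e
    have e1 := (mem_filter.1 hq).2
    have e2 := (mem_filter.1 hq').2
    exact Prod.ext (e1.trans e2.symm) e
  · intro r hr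
    unfold up at hr
    simp only [mem_filter, mem_product] at hr
    refine ⟨(z, r), ?_, rfl⟩
    rw [mem_filter]
    refine ⟨?_, rfl⟩
    unfold bt
    rw [mem_filter, mem_trs]
    exact ⟨⟨⟨hz, hr.1.1.1, hr.1.2.1⟩, hr.2⟩, hr.1.1.2, hr.1.2.2⟩

lemma bt_sub {V R : Finset Pt} (hR : R ⊆ V) (w : Pt → ℕ) :
    bt R w ⊆ (bt V w).filter (fun q => st3 q ⊆ R) := by
  intro q hq
  unfold bt at hq ⊢
  rw [mem_filter, mem_trs] at hq
  rw [mem_filter, mem_filter, mem_trs]
  obtain ⟨⟨⟨h1, h2, h3⟩, h4⟩, h5⟩ := hq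
  refine ⟨⟨⟨⟨hR h1, hR h2, hR h3⟩, h4⟩, h5⟩, ?_⟩
  unfold st3
  intro p hp
  simp only [mem_insert, mem_singleton] at hp
  rcases hp with rfl | rfl | rfl <;> assumption

lemma wsum_ind {ι : Type*} (S : Finset ι) (f : ι → Finset Pt) (g : ι → ℝ) (R : Finset Pt) :
    ∑ i ∈ S.filter (fun i => f i ⊆ R), g i = ∑ i ∈ S, g i * ind (f i) R := by
  rw [sum_filter]
  apply sum_congr rfl
  intro i _
  unfold ind
  split_ifs <;> simp

lemma wR_eq {V R : Finset Pt} (hR : R ⊆ V) (g : Pt → ℝ) : ∑ x ∈ R, g x = ∑ x ∈ V, g x * ind {x} R := by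
  rw [← wsum_ind]
  apply sum_congr _ (fun _ _ => rfl)
  ext x
  rw [mem_filter, singleton_subset_iff]
  exact ⟨fun h => ⟨hR h, h⟩, fun h => h.2⟩

lemma EE_wsum {ι : Type*} {V : Finset Pt} {p : ℝ} (S : Finset ι) (f : ι → Finset Pt) (g : ι → ℝ) {k : ℕ}
    (h : ∀ i ∈ S, f i ⊆ V ∧ (f i).card = k) :
    EE V (fun _ => p) (fun R => ∑ i ∈ S, g i * ind (f i) R) = p ^ k * ∑ i ∈ S, g i := by
  rw [EE_sum, mul_sum]
  apply sum_congr rfl
  intro i hi
  rw [EE_mul, EE_ind_const (h i hi).1 (h i hi).2, mul_comm]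

/-- the weight of the points with large ordered degree inside the sample -/
lemma bad_bd {V R : Finset Pt} (hR : R ⊆ V) (w : Pt → ℕ) {D : ℝ} :
    D * ∑ z ∈ R.filter (fun z => D ≤ (bd R w z : ℝ)), (w z : ℝ)
      ≤ ∑ q ∈ bt V w, (w q.1 : ℝ) * ind (st3 q) R := by
  rw [← wsum_ind]
  calc D * ∑ z ∈ R.filter (fun z => D ≤ (bd R w z : ℝ)), (w z : ℝ)
      ≤ ∑ z ∈ R.filter (fun z => D ≤ (bd R w z : ℝ)), (w z : ℝ) * bd R w z := by
        rw [mul_sum]
        apply sum_le_sum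
        intro z hz
        rw [mul_comm]
        exact mul_le_mul_of_nonneg_left (mem_filter.1 hz).2 (Nat.cast_nonneg _)
    _ ≤ ∑ z ∈ R, (w z : ℝ) * bd R w z := by
        apply sum_le_sum_of_subset_of_nonneg (filter_subset _ _)
        intro a _ _
        positivity
    _ = ∑ q ∈ bt R w, (w q.1 : ℝ) := (bt_sum R w (fun z => (w z : ℝ))).symm
    _ ≤ _ := by
        apply sum_le_sum_of_subset_of_nonneg (bt_sub hR w)
        intro a _ _
        positivity

lemma gp_of_bd {R S : Finset Pt} (hS : S ⊆ R) (w : Pt → ℕ) (h : ∀ z ∈ S, bd R w z = 0) : GP S := by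
  have key : ∀ a ∈ S, ∀ b ∈ S, ∀ c ∈ S, a ≠ b → a ≠ c → b ≠ c → w a ≤ w b → w a ≤ w c → ¬ col a b c := by
    intro a ha b hb c hc hab hac hbc h1 h2 hcol
    have h0 := h a ha
    unfold bd at h0
    rw [deg_eq, card_eq_zero, eq_empty_iff_forall_notMem] at h0
    apply h0 (b, c)
    unfold up
    simp only [mem_filter, mem_product]
    exact ⟨⟨⟨hS hb, h1⟩, hS hc, h2⟩, hab, hac.symm, hbc.symm, hcol⟩
  intro a ha b hb c hc hab hac hbc hcol
  by_cases h1 : w a ≤ w b ∧ w a ≤ w c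
  · exact key a ha b hb c hc hab hac hbc h1.1 h1.2 hcol
  by_cases h2 : w b ≤ w a ∧ w b ≤ w c
  · exact key b hb a ha c hc hab.symm hbc hac h2.1 h2.2 (col_12 hcol)
  · exact key c hc a ha b hb hac.symm hbc.symm hab (by omega) (by omega) (col_12 (col_23 hcol))

/-- the deletion argument with weights -/
theorem small_case {H : Finset Pt} (w : Pt → ℕ) {DA p : ℝ} (h : ∀ U ⊆ H, (Tr U : ℝ) ≤ DA * U.card)
    (hp0 : 0 < p) (hp1 : p ≤ 1) (hpD : p ^ 2 * DA ≤ 1 / 4) :
    ∃ S ⊆ H, GP S ∧ p / 2 * ∑ z ∈ H, (w z : ℝ) ≤ ∑ z ∈ S, (w z : ℝ) := by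
  set X : ℝ := ∑ z ∈ H, (w z : ℝ) with hX
  have hX0 : 0 ≤ X := sum_nonneg (fun _ _ => Nat.cast_nonneg _)
  rcases hX0.eq_or_lt with h0 | h0
  · refine ⟨∅, empty_subset _, ?_, ?_⟩
    · intro a ha; simp at ha
    · rw [← h0]; simp
  have hE : EE H (fun _ => p) (fun R => ∑ q ∈ bt H w, (w q.1 : ℝ) * ind (st3 q) R
      + (-1) * ∑ x ∈ H, (w x : ℝ) * ind {x} R) < -(p / 2 * X) := by
    rw [EE_add, EE_mul, EE_wsum (k := 3) _ _ _ (fun q hq => by
        have := st3_card (mem_filter.1 hq).1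
        exact ⟨this.2, this.1⟩),
      EE_wsum (k := 1) _ _ _ (fun x hx => ⟨singleton_subset_iff.2 hx, card_singleton x⟩),
      bt_sum H w (fun z => (w z : ℝ))]
    have h1 := layer (w := w) h
    rw [← hX] at h1 ⊢
    have h2 : p ^ 3 * ∑ z ∈ H, (w z : ℝ) * bd H w z ≤ p ^ 3 * (DA * X) :=
      mul_le_mul_of_nonneg_left h1 (by positivity)
    have h3 : p ^ 3 * (DA * X) = (p ^ 2 * DA) * (p * X) := by ring
    have h4 : 0 < p * X := by positivity
    have h5 : (p ^ 2 * DA) * (p * X) ≤ 1 / 4 * (p * X) := mul_le_mul_of_nonneg_right hpD h4.le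
    nlinarith
  obtain ⟨R, hR, hPR⟩ := exists_lt (fun _ _ => hp0.le) (fun _ _ => hp1) hE
  rw [← wR_eq hR] at hPR
  have h1 := bad_bd hR w (D := 1)
  refine ⟨R.filter (fun z => ¬ (1 : ℝ) ≤ (bd R w z : ℝ)), (filter_subset _ _).trans hR, ?_, ?_⟩
  · apply gp_of_bd (filter_subset _ _) w
    intro z hz
    have := (mem_filter.1 hz).2
    push Not at this
    have h2 : bd R w z < 1 := by exact_mod_cast this
    omega
  · have h2 := sum_filter_add_sum_filter_not R (fun z => (1 : ℝ) ≤ (bd R w z : ℝ)) (fun z => (w z : ℝ))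
    linarith

end Pool.Agent.H417Z.GC
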