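import Pool.Agent.H417Z.GC1

set_option autoImplicit false

/-! Random sparsification with weights (the removal of short cycles follows `Helper64/Gow7`). -/

namespace Pool.Agent.H417Z.GC

open Finset Pool.Agent.Helper64.Gow Pool.Agent.Helper64.Res
open scoped Classical

def NoTri (W : Finset Pt) : Prop :=
  ∀ a ∈ W, ∀ b ∈ W, ∀ c ∈ W, ∀ e ∈ W, ∀ f ∈ W, ∀ g ∈ W, ¬ col a b c → e ≠ a → e ≠ b → col a b e →
    f ≠ b → f ≠ c → col b c f → g ≠ a → g ≠ c → col a c g → False

def NoQuad (W : Finset Pt) : Prop :=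
  ∀ a ∈ W, ∀ b ∈ W, ∀ c ∈ W, ∀ d ∈ W, ∀ e ∈ W, ∀ f ∈ W, ∀ g ∈ W, ∀ h ∈ W,
    ¬ col a b c → ¬ col b c d → ¬ col c d a → ¬ col d a b → e ≠ a → e ≠ b → col a b e →
    f ≠ b → f ≠ c → col b c f → g ≠ c → g ≠ d → col c d g → h ≠ d → h ≠ a → col d a h → False

lemma clean {V R W : Finset Pt} (hR : R ⊆ V) (hWR : W ⊆ R)
    (h3' : ∀ a ∈ W, a ∉ ((R6 V).filter (fun s => st6 s ⊆ R)).image (fun s => s.1.1))
    (h4' : ∀ a ∈ W, a ∉ ((R8 V).filter (fun s => st8 s ⊆ R)).image (fun s => s.1.1)) :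
    NoTri W ∧ NoQuad W := by
  have hnotri : ∀ a ∈ W, ∀ b ∈ W, ∀ c ∈ W, ∀ e ∈ W, ∀ f ∈ W, ∀ g ∈ W, ¬ col a b c → e ≠ a → e ≠ b → col a b e →
    f ≠ b → f ≠ c → col b c f → g ≠ a → g ≠ c → col a c g → False := by
    intro a ha b hb c hc e he f hf g hg hn h1 h2 h3 h4 h5 h6' h7 h8' h9
    obtain ⟨n1, n2, n3⟩ := ne_of_ncol hn
    apply h3' a ha
    rw [mem_image]
    refine ⟨((a, b, c), (f, g, e)), ?_, rfl⟩
    have hsub : st6 ((a, b, c), (f, g, e)) ⊆ R := by
      unfold st6
      intro p hp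
      simp only [mem_insert, mem_singleton] at hp
      rcases hp with rfl | rfl | rfl | rfl | rfl | rfl <;> apply hWR <;> assumption
    unfold R6
    rw [mem_filter, mem_filter]
    refine ⟨⟨?_, ?_, hsub.trans hR⟩, hsub⟩
    · unfold S6
      rw [mem_biUnion]
      refine ⟨(a, b, c), mem_N3.2 ⟨⟨hR (hWR ha), hR (hWR hb), hR (hWR hc)⟩, hn⟩, ?_⟩
      rw [mem_product, mem_product, mem_product, mem_singleton]
      refine ⟨rfl, ?_, ?_, ?_⟩
      · exact mem_third.2 ⟨hR (hWR hf), n2, h4, h5, h6'⟩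
      · exact mem_third.2 ⟨hR (hWR hg), n3.symm, h8', h7, col_12 h9⟩
      · exact mem_third.2 ⟨hR (hWR he), n1, h1, h2, h3⟩
    · unfold st6
      simp only
      have af : a ≠ f := fun h => hn (by rw [h]; exact col_12 (col_23 (by rw [h] at n1 n3; exact h6')))
      have bg : b ≠ g := fun h => hn (by rw [h]; exact col_23 h9)
      have ce : c ≠ e := fun h => hn (by rw [h]; exact h3)
      have fg : f ≠ g := by
        intro h
        rw [← h] at h9
        -- share c
        have : col c b a := share h5 (col_12 h6') (col_12 h9)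
        exact hn (col_12 (col_23 (col_12 this)))
      have fe' : f ≠ e := by
        intro h
        rw [← h] at h3
        have : col b a c := share h4 (col_12 h3) h6'
        exact hn (col_12 this)
      have ge' : g ≠ e := by
        intro h
        rw [← h] at h3
        have : col a b c := share h7 h3 h9
        exact hn this
      rw [card_insert_of_notMem, card_insert_of_notMem, card_insert_of_notMem, card_insert_of_notMem,
        card_insert_of_notMem, card_singleton]
      · simpa using ge'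
      · simp only [mem_insert, mem_singleton, not_or]
        exact ⟨fg, fe'⟩
      · simp only [mem_insert, mem_singleton, not_or]
        exact ⟨h5.symm, h8'.symm, ce⟩
      · simp only [mem_insert, mem_singleton, not_or]
        exact ⟨n2, h4.symm, bg, h2.symm⟩
      · simp only [mem_insert, mem_singleton, not_or]
        exact ⟨n1, n3, af, h7.symm, h1.symm⟩
  refine ⟨hnotri, ?_⟩
  · intro a ha b hb c hc d hd e he f hf g hg h hh m1 m2 m3 m4 ea eb hce fb fc hcf gc gd hcg hd' ha' hch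
    obtain ⟨nab, nbc, nac⟩ := ne_of_ncol m1
    obtain ⟨-, ncd, nbd⟩ := ne_of_ncol m2
    obtain ⟨-, nda, -⟩ := ne_of_ncol m3
    have ce : c ≠ e := fun h => m1 (by rw [h]; exact hce)
    have de : d ≠ e := fun h => m4 (by rw [h]; exact col_12 (col_23 hce))
    have af : a ≠ f := fun h => m1 (by rw [h]; exact col_12 (col_23 (by exact hcf)))
    have df : d ≠ f := fun h => m2 (by rw [h]; exact hcf)
    have ag : a ≠ g := fun h => m3 (by rw [h]; exact hcg)
    have bg : b ≠ g := fun h => m2 (by rw [h]; exact col_12 (col_23 hcg))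
    have bh : b ≠ h := fun h' => m4 (by rw [h']; exact hch)
    have ch : c ≠ h := fun h' => m3 (by rw [h']; exact col_12 (col_23 hch))
    have ef : e ≠ f := by
      intro h'
      rw [← h'] at hcf
      exact m1 (col_12 (share eb (col_12 hce) hcf))
    have fg : f ≠ g := by
      intro h'
      rw [← h'] at hcg
      exact m2 (col_12 (share fc (col_12 hcf) hcg))
    have gh : g ≠ h := by
      intro h'
      rw [← h'] at hch
      exact m3 (col_12 (share gd (col_12 hcg) hch))
    have he' : h ≠ e := by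
      intro h'
      rw [← h'] at hce
      exact m4 (col_12 (share ha' (col_12 hch) hce))
    have eg : e ≠ g := by
      intro h'
      rw [← h'] at hcg
      -- triangle e b c
      refine hnotri e he b hb c hc a ha f hf d hd ?_ ea.symm nab (col_12 (col_23 (col_12 hce))) fb fc hcf de ncd.symm
        (col_12 (col_23 hcg))
      intro hc'
      exact m1 (col_12 (col_trans eb.symm (col_23 (col_12 hce)) (col_12 hc')))
    have fh : f ≠ h := by
      intro h'
      rw [← h'] at hch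
      refine hnotri f hf c hc d hd b hb g hg a ha ?_ fb.symm nbc (col_12 (col_23 (col_12 hcf))) gc gd hcg af nda.symm
        (col_12 (col_23 hch))
      intro hc'
      exact m2 (col_12 (col_trans fc.symm (col_23 (col_12 hcf)) (col_12 hc')))
    apply h4' a ha
    rw [mem_image]
    refine ⟨((a, b, c, d), (e, f, g, h)), ?_, rfl⟩
    have hsub : st8 ((a, b, c, d), (e, f, g, h)) ⊆ R := by
      unfold st8
      intro p hp
      simp only [mem_insert, mem_singleton] at hp
      rcases hp with rfl | rfl | rfl | rfl | rfl | rfl | rfl | rfl <;> apply hWR <;> assumption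
    unfold R8
    rw [mem_filter, mem_filter]
    refine ⟨⟨?_, ?_, hsub.trans hR⟩, hsub⟩
    · unfold S8
      rw [mem_biUnion]
      refine ⟨(a, b, c, d), mem_N4.2 ⟨⟨hR (hWR ha), hR (hWR hb), hR (hWR hc), hR (hWR hd)⟩, m1, m2, m3, m4⟩, ?_⟩
      rw [mem_product, mem_product, mem_product, mem_product, mem_singleton]
      refine ⟨rfl, ?_, ?_, ?_, ?_⟩
      · exact mem_third.2 ⟨hR (hWR he), nab, ea, eb, hce⟩
      · exact mem_third.2 ⟨hR (hWR hf), nbc, fb, fc, hcf⟩
      · exact mem_third.2 ⟨hR (hWR hg), ncd, gc, gd, hcg⟩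
      · exact mem_third.2 ⟨hR (hWR hh), nda, hd', ha', hch⟩
    · unfold st8
      simp only
      rw [card_insert_of_notMem, card_insert_of_notMem, card_insert_of_notMem, card_insert_of_notMem,
        card_insert_of_notMem, card_insert_of_notMem, card_insert_of_notMem, card_singleton]
      · simpa using gh
      · simp only [mem_insert, mem_singleton, not_or]
        exact ⟨fg, fh⟩
      · simp only [mem_insert, mem_singleton, not_or]
        exact ⟨ef, eg, he'.symm⟩
      · simp only [mem_insert, mem_singleton, not_or]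
        exact ⟨de, df, gd.symm, hd'.symm⟩
      · simp only [mem_insert, mem_singleton, not_or]
        exact ⟨ncd, ce, fc.symm, gc.symm, ch⟩
      · simp only [mem_insert, mem_singleton, not_or]
        exact ⟨nbc, nbd, eb.symm, fb.symm, bg, bh⟩
      · simp only [mem_insert, mem_singleton, not_or]
        exact ⟨nab, nac, nda.symm, ea.symm, af, ag, ha'.symm⟩


structure SampW (V W : Finset Pt) (w : Pt → ℕ) (X D1 D2 : ℝ) (K : ℕ) : Prop where
  sub : W ⊆ V
  big : X ≤ ∑ z ∈ W, (w z : ℝ)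
  bdeg : ∀ z ∈ W, (bd W w z : ℝ) ≤ D1
  deg : ∀ z ∈ W, (deg W z : ℝ) ≤ D2
  line : ∀ L ∈ lines V, (pl W L).card < K
  notri : NoTri W
  noquad : NoQuad W

lemma sum_ite_mem_le (R b : Finset Pt) {Y : ℝ} (hY : 0 ≤ Y) :
    ∑ z ∈ R, (if z ∈ b then Y else 0) ≤ Y * b.card := by
  rw [← sum_filter, sum_const, nsmul_eq_mul, mul_comm]
  apply mul_le_mul_of_nonneg_left _ hY
  have : (R.filter (fun z => z ∈ b)).card ≤ b.card := card_le_card (fun z hz => (mem_filter.1 hz).2)
  exact_mod_cast this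

theorem sampleW {V : Finset Pt} {w : Pt → ℕ} {B K : ℕ} (hB : ∀ L ∈ lines V, (pl V L).card ≤ B)
    {p D1 D2 X Y : ℝ} (hX : X = ∑ z ∈ V, (w z : ℝ)) (hX0 : 0 < X) (hY0 : 0 ≤ Y)
    (hw : ∀ z ∈ V, (w z : ℝ) ≤ Y) (hbd : ∀ z ∈ V, (bd V w z : ℝ) ≤ D1) (hD1 : 0 < D1) (hD2 : 0 < D2)
    (hp0 : 0 < p) (hp1 : p ≤ 1)
    (h6 : Y * (p ^ 6 * (S6 V).card) ≤ p * X / 16) (h8 : Y * (p ^ 8 * (S8 V).card) ≤ p * X / 16)
    (hT : Y / D2 * (p ^ 3 * (trs V).card) ≤ p * X / 8)
    (hK : (X + 1) * (p ^ K * ((V.card : ℝ) ^ 2 * (B.choose K : ℝ))) ≤ p * X / 16) :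
    ∃ W, SampW V W w (p * X / 2) (8 * p ^ 2 * D1) D2 K := by
  have hpX : 0 < p * X := by positivity
  set al : ℝ := 1 / (8 * p ^ 2 * D1) with hal
  have hal0 : 0 < al := by rw [hal]; positivity
  have hE : EE V (fun _ => p) (fun R => Y * ∑ s ∈ R6 V, (1 : ℝ) * ind (st6 s) R
      + Y * ∑ s ∈ R8 V, (1 : ℝ) * ind (st8 s) R + al * ∑ q ∈ bt V w, (w q.1 : ℝ) * ind (st3 q) R
      + Y / D2 * ∑ q ∈ trs V, (1 : ℝ) * ind (st3 q) R + (X + 1) * ∑ T ∈ LK V K, (1 : ℝ) * ind T R
      + (-1) * ∑ x ∈ V, (w x : ℝ) * ind {x} R) < - (p * X / 2) := by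
    rw [EE_add, EE_add, EE_add, EE_add, EE_add, EE_mul, EE_mul, EE_mul, EE_mul, EE_mul, EE_mul,
      EE_wsum (k := 6) _ _ _ (fun s hs => ⟨(mem_filter.1 hs).2.2, (mem_filter.1 hs).2.1⟩),
      EE_wsum (k := 8) _ _ _ (fun s hs => ⟨(mem_filter.1 hs).2.2, (mem_filter.1 hs).2.1⟩),
      EE_wsum (k := 3) (bt V w) _ _ (fun q hq => by
        have := st3_card (mem_filter.1 hq).1
        exact ⟨this.2, this.1⟩),
      EE_wsum (k := 3) (trs V) _ _ (fun q hq => by
        have := st3_card hq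
        exact ⟨this.2, this.1⟩),
      EE_wsum (k := K) (LK V K) (fun T => T) _ (fun T hT => mem_LK hT),
      EE_wsum (k := 1) _ _ _ (fun x hx => ⟨singleton_subset_iff.2 hx, card_singleton x⟩),
      bt_sum V w (fun z => (w z : ℝ)), ← hX]
    simp only [sum_const, nsmul_eq_mul, mul_one]
    have t6 : Y * (p ^ 6 * ((R6 V).card : ℝ)) ≤ Y * (p ^ 6 * (S6 V).card) := by
      apply mul_le_mul_of_nonneg_left _ hY0
      apply mul_le_mul_of_nonneg_left _ (by positivity)
      exact_mod_cast card_le_card (filter_subset _ _)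
    have t8 : Y * (p ^ 8 * ((R8 V).card : ℝ)) ≤ Y * (p ^ 8 * (S8 V).card) := by
      apply mul_le_mul_of_nonneg_left _ hY0
      apply mul_le_mul_of_nonneg_left _ (by positivity)
      exact_mod_cast card_le_card (filter_subset _ _)
    have tT : al * (p ^ 3 * ∑ z ∈ V, (w z : ℝ) * bd V w z) ≤ p * X / 8 := by
      have h1 : ∑ z ∈ V, (w z : ℝ) * bd V w z ≤ X * D1 := by
        rw [hX, sum_mul]
        apply sum_le_sum
        intro z hz
        exact mul_le_mul_of_nonneg_left (hbd z hz) (Nat.cast_nonneg _)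
      calc al * (p ^ 3 * ∑ z ∈ V, (w z : ℝ) * bd V w z) ≤ al * (p ^ 3 * (X * D1)) := by
            apply mul_le_mul_of_nonneg_left _ hal0.le
            apply mul_le_mul_of_nonneg_left h1 (by positivity)
        _ = p * X / 8 := by rw [hal]; field_simp
    have tK : (X + 1) * (p ^ K * ((LK V K).card : ℝ)) ≤ p * X / 16 := by
      refine le_trans ?_ hK
      apply mul_le_mul_of_nonneg_left _ (by positivity)
      apply mul_le_mul_of_nonneg_left _ (by positivity)
      exact_mod_cast LK_card hB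
    rw [pow_one]
    linarith
  obtain ⟨R, hR, hPR⟩ := exists_lt (fun _ _ => hp0.le) (fun _ _ => hp1) hE
  simp only [one_mul] at hPR
  rw [← card_filter_ind, ← card_filter_ind, ← card_filter_ind, ← wR_eq hR] at hPR
  set b3 := ((R6 V).filter (fun s => st6 s ⊆ R)).image (fun s => s.1.1) with hb3
  set b4 := ((R8 V).filter (fun s => st8 s ⊆ R)).image (fun s => s.1.1) with hb4
  set bT1 := R.filter (fun z => 8 * p ^ 2 * D1 ≤ (bd R w z : ℝ)) with hbT1
  set bT2 := R.filter (fun z => D2 ≤ (deg R z : ℝ)) with hbT2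
  have c3 : (b3.card : ℝ) ≤ ((R6 V).filter (fun s => st6 s ⊆ R)).card := by exact_mod_cast card_image_le
  have c4 : (b4.card : ℝ) ≤ ((R8 V).filter (fun s => st8 s ⊆ R)).card := by exact_mod_cast card_image_le
  have cT1 : ∑ z ∈ bT1, (w z : ℝ) ≤ al * ∑ q ∈ bt V w, (w q.1 : ℝ) * ind (st3 q) R := by
    have h1 := bad_bd hR w (D := 8 * p ^ 2 * D1)
    rw [hal, one_div_mul_eq_div, le_div_iff₀ (by positivity), mul_comm]
    exact h1
  have cT2 : Y * (bT2.card : ℝ) ≤ Y / D2 * ((trs V).filter (fun q => st3 q ⊆ R)).card := by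
    have h1 : (bT2.card : ℝ) * D2 ≤ ((trs V).filter (fun q => st3 q ⊆ R)).card := by
      calc (bT2.card : ℝ) * D2 = ∑ z ∈ bT2, D2 := by rw [sum_const, nsmul_eq_mul]
        _ ≤ ∑ z ∈ bT2, (deg R z : ℝ) := by
            apply sum_le_sum
            intro z hz
            exact (mem_filter.1 hz).2
        _ ≤ ∑ z ∈ R, (deg R z : ℝ) := by
            apply sum_le_sum_of_subset_of_nonneg (filter_subset _ _)
            intro a _ _
            positivity
        _ = ((trs R).card : ℝ) := by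
            rw [← Tr_eq]; unfold Tr; push_cast; rfl
        _ ≤ _ := by exact_mod_cast trs_sub hR
    rw [div_mul_eq_mul_div, le_div_iff₀ hD2, mul_assoc]
    exact mul_le_mul_of_nonneg_left h1 hY0
  have hRX : ∑ z ∈ R, (w z : ℝ) ≤ X := by
    rw [hX]
    apply sum_le_sum_of_subset_of_nonneg hR
    intro a _ _
    positivity
  have p3 : (0 : ℝ) ≤ Y * ((R6 V).filter (fun s => st6 s ⊆ R)).card := by positivity
  have p4 : (0 : ℝ) ≤ Y * ((R8 V).filter (fun s => st8 s ⊆ R)).card := by positivity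
  have pT1 : (0 : ℝ) ≤ al * ∑ q ∈ bt V w, (w q.1 : ℝ) * ind (st3 q) R := by
    apply mul_nonneg hal0.le
    exact sum_nonneg (fun q _ => mul_nonneg (Nat.cast_nonneg _) (ind_nonneg _ _))
  have pT2 : (0 : ℝ) ≤ Y / D2 * ((trs V).filter (fun q => st3 q ⊆ R)).card := by positivity
  have hXL : ∀ T ∈ LK V K, ¬ T ⊆ R := by
    intro T hT hTR
    have h1 : (1 : ℝ) ≤ ∑ T ∈ LK V K, ind T R := by
      rw [← card_filter_ind]
      have : 0 < ((LK V K).filter (fun T => T ⊆ R)).card := card_pos.2 ⟨T, mem_filter.2 ⟨hT, hTR⟩⟩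
      exact_mod_cast this
    have h3 : (X + 1) * 1 ≤ (X + 1) * ∑ T ∈ LK V K, ind T R :=
      mul_le_mul_of_nonneg_left h1 (by positivity)
    linarith
  have hXL0 : (0 : ℝ) ≤ (X + 1) * ∑ T ∈ LK V K, ind T R := by
    apply mul_nonneg (by positivity)
    exact sum_nonneg (fun T _ => ind_nonneg _ _)
  set W := R \ (b3 ∪ (b4 ∪ (bT1 ∪ bT2))) with hW
  have hWR : W ⊆ R := sdiff_subset
  have hWn : ∀ a ∈ W, a ∉ b3 ∧ a ∉ b4 ∧ a ∉ bT1 ∧ a ∉ bT2 := by
    intro a ha
    have := (mem_sdiff.1 ha).2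
    rw [mem_union, mem_union, mem_union, not_or, not_or, not_or] at this
    exact this
  obtain ⟨hnt, hnq⟩ := clean hR hWR (fun a ha => (hWn a ha).1) (fun a ha => (hWn a ha).2.1)
  refine ⟨W, hWR.trans hR, ?_, ?_, ?_, ?_, hnt, hnq⟩
  · have h1 : ∑ z ∈ R, (w z : ℝ) ≤ ∑ z ∈ R, ((if z ∈ W then (w z : ℝ) else 0) + (if z ∈ b3 then Y else 0)
        + (if z ∈ b4 then Y else 0) + (if z ∈ bT1 then (w z : ℝ) else 0) + (if z ∈ bT2 then Y else 0)) := by
      apply sum_le_sum
      intro z hz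
      have hz0 : (0 : ℝ) ≤ w z := Nat.cast_nonneg _
      have hzY := hw z (hR hz)
      have hcase : z ∈ W ∨ z ∈ b3 ∨ z ∈ b4 ∨ z ∈ bT1 ∨ z ∈ bT2 := by
        by_cases hzW : z ∈ W
        · exact Or.inl hzW
        · right
          rw [hW, mem_sdiff, not_and, not_not] at hzW
          have := hzW hz
          simpa only [mem_union] using this
      have e1 : 0 ≤ (if z ∈ W then (w z : ℝ) else 0) := by split_ifs <;> simp
      have e2 : 0 ≤ (if z ∈ b3 then Y else 0) := by split_ifs <;> simp [hY0]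
      have e3 : 0 ≤ (if z ∈ b4 then Y else 0) := by split_ifs <;> simp [hY0]
      have e4 : 0 ≤ (if z ∈ bT1 then (w z : ℝ) else 0) := by split_ifs <;> simp
      have e5 : 0 ≤ (if z ∈ bT2 then Y else 0) := by split_ifs <;> simp [hY0]
      rcases hcase with h | h | h | h | h
      · rw [if_pos h] at e1 ⊢; linarith
      · rw [if_pos h] at e2 ⊢; linarith
      · rw [if_pos h] at e3 ⊢; linarith
      · rw [if_pos h] at e4 ⊢; linarith
      · rw [if_pos h] at e5 ⊢; linarith
    rw [sum_add_distrib, sum_add_distrib, sum_add_distrib, sum_add_distrib] at h1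
    have f1 : ∑ z ∈ R, (if z ∈ W then (w z : ℝ) else 0) = ∑ z ∈ W, (w z : ℝ) := by
      rw [← sum_filter]
      apply sum_congr _ (fun _ _ => rfl)
      ext z
      rw [mem_filter]
      exact ⟨fun h => h.2, fun h => ⟨hWR h, h⟩⟩
    have f4 : ∑ z ∈ R, (if z ∈ bT1 then (w z : ℝ) else 0) = ∑ z ∈ bT1, (w z : ℝ) := by
      rw [← sum_filter]
      apply sum_congr _ (fun _ _ => rfl)
      ext z
      rw [mem_filter]
      exact ⟨fun h => h.2, fun h => ⟨(mem_filter.1 h).1, h⟩⟩
    have f2 := sum_ite_mem_le R b3 hY0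
    have f3 := sum_ite_mem_le R b4 hY0
    have f5 := sum_ite_mem_le R bT2 hY0
    have g2 := mul_le_mul_of_nonneg_left c3 hY0
    have g3 := mul_le_mul_of_nonneg_left c4 hY0
    rw [f1, f4] at h1
    linarith
  · intro z hz
    have h1 := (hWn z hz).2.2.1
    rw [hbT1, mem_filter, not_and, not_le] at h1
    have h2 := h1 (hWR hz)
    have h3 : (bd W w z : ℝ) ≤ bd R w z := by exact_mod_cast bd_mono hWR w z
    linarith
  · intro z hz
    have h1 := (hWn z hz).2.2.2
    rw [hbT2, mem_filter, not_and, not_le] at h1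
    have h2 := h1 (hWR hz)
    have h3 : (deg W z : ℝ) ≤ deg R z := by exact_mod_cast deg_mono hWR z
    linarith
  · intro L hL
    by_contra hcon
    push Not at hcon
    obtain ⟨T, hT1, hT2⟩ := exists_subset_card_eq hcon
    apply hXL T
    · unfold LK
      rw [mem_biUnion]
      refine ⟨L, hL, mem_powersetCard.2 ⟨?_, hT2⟩⟩
      intro x hx
      have := hT1 hx
      unfold pl at this ⊢
      rw [mem_filter] at this ⊢
      exact ⟨hR (hWR this.1), this.2⟩
    · intro x hx
      have := hT1 hx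
      unfold pl at this
      exact hWR (mem_filter.1 this).1

end Pool.Agent.H417Z.GC
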