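import Pool.Agent.H417Z.GC2

set_option autoImplicit false

/-! The selection process of `Helper64/Proc9`, run on points sorted by weight with the weight classes as classes. -/

namespace Pool.Agent.H417Z.GC

open Finset Pool.Agent.Helper64.Gow Pool.Agent.Helper64
open scoped Classical

lemma exists_sorted (W : Finset Pt) (w : Pt → ℕ) :
    ∃ pt : ℕ → Pt, Function.Injective pt ∧ (∀ i < W.card, pt i ∈ W) ∧ (∀ p ∈ W, ∃ i < W.card, pt i = p) ∧
      ∀ i j, i < j → j < W.card → w (pt j) ≤ w (pt i) := by
  obtain ⟨pt, inj, mem, surj⟩ := exists_enum W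
  set f : Fin W.card → ℤ := fun i => -(w (pt i) : ℤ) with hf
  set σ := Tuple.sort f with hσ
  have hmono : Monotone (f ∘ σ) := Tuple.monotone_sort f
  refine ⟨fun i => if h : i < W.card then pt (σ ⟨i, h⟩) else pt i, ?_, ?_, ?_, ?_⟩
  · intro i j hij
    simp only at hij
    by_cases hi : i < W.card
    · by_cases hj : j < W.card
      · rw [dif_pos hi, dif_pos hj] at hij
        have h1 := σ.injective (Fin.ext (inj hij))
        simpa using h1
      · rw [dif_pos hi, dif_neg hj] at hij
        have h1 := inj hij
        have h2 := (σ ⟨i, hi⟩).2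
        omega
    · by_cases hj : j < W.card
      · rw [dif_neg hi, dif_pos hj] at hij
        have h1 := inj hij
        have h2 := (σ ⟨j, hj⟩).2
        omega
      · rw [dif_neg hi, dif_neg hj] at hij
        exact inj hij
  · intro i hi
    simp only [hi, dif_pos]
    exact mem _ (σ ⟨i, hi⟩).2
  · intro p hp
    obtain ⟨i, hi, rfl⟩ := surj p hp
    refine ⟨(σ.symm ⟨i, hi⟩ : Fin W.card), (σ.symm ⟨i, hi⟩).2, ?_⟩
    simp only [Fin.is_lt, dif_pos, Fin.eta, Equiv.apply_symm_apply]
  · intro i j hij hj
    have hi : i < W.card := hij.trans hj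
    simp only [hi, hj, dif_pos]
    have h1 := hmono (show (⟨i, hi⟩ : Fin W.card) ≤ ⟨j, hj⟩ from hij.le)
    simp only [Function.comp, hf] at h1
    omega

noncomputable def mkW (W : Finset Pt) (w : Pt → ℕ) (om Z g s Dg : ℝ) (H : PData W om Z g s Dg) (pt : ℕ → Pt)
    (inj : Function.Injective pt) (mem : ∀ i < W.card, pt i ∈ W) : Proc.Sys2 where
  toSys := (mkS W om Z g s Dg H pt inj mem).toSys
  cls := fun i => w (pt i)
  cd := fun _ => Dg
  cd_nonneg := fun _ => H.Dg0
  deg := fun t k ht => by
    refine le_trans ?_ (H.deg (pt t) (mem t ht))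
    have := deg_single inj mem (t := t)
      (Z := (Ico (t + 1) W.card).filter (fun v => w (pt v) = k ∧ ∃ a, a < t ∧ col (pt a) (pt t) (pt v))) (by
        intro v hv
        have h1 := mem_filter_any hv
        exact ⟨mem_Ico.1 h1.1, h1.2.2⟩)
    exact_mod_cast this

lemma sum_cls {M Y : ℕ} {A : Finset ℕ} (cls : ℕ → ℕ) (hA : A ⊆ range M) (hc : ∀ i < M, cls i ≤ Y) (f : ℕ → ℝ) :
    ∑ i ∈ A, f (cls i) = ∑ k ∈ range (Y + 1), ((A.filter (fun v => cls v = k)).card : ℝ) * f k := by
  rw [← sum_fiberwise_of_maps_to (g := cls) (t := range (Y + 1))]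
  · apply sum_congr rfl
    intro k _
    rw [sum_congr rfl (g := fun _ => f k) (fun i hi => by rw [(mem_filter.1 hi).2]), sum_const, nsmul_eq_mul]
  · intro i hi
    have := hc i (mem_range.1 (hA hi))
    rw [mem_range]
    omega

theorem apply_processW {W : Finset Pt} {w : Pt → ℕ} {om Z g s D1 D2 h : ℝ} {Y : ℕ} (H : PData W om Z g s D2)
    (hw : ∀ z ∈ W, w z ≤ Y) (hbd : ∀ z ∈ W, (bd W w z : ℝ) ≤ D1) (hh : 0 < h)
    (hnum : ((Y : ℝ) + 1) * (8 * Real.exp (om ^ 2 * D1 - Z))
      + ((Y : ℝ) + 1) * (64 / (om * h) + 64 * D2 * Real.exp Z / h)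
      + (W.card : ℝ) ^ 2 * Real.exp (-(s / 256)) < 1) :
    ∃ S ⊆ W, GP S ∧ om / 2 * (∑ z ∈ W, (w z : ℝ) - ((Y : ℝ) + 1) * (Y * h)) ≤ ∑ z ∈ S, (w z : ℝ) := by
  obtain ⟨pt, inj, mem, surj, srt⟩ := exists_sorted W w
  set D := mkW W w om Z g s D2 H pt inj mem with hDd
  have hM : D.M = W.card := rfl
  have hcls : ∀ i, D.cls i = w (pt i) := fun _ => rfl
  have hw0 : ∀ v, D.w0 v = om := fun _ => rfl
  have hclsY : ∀ i < W.card, D.cls i ≤ Y := fun i hi => hw _ (mem i hi)
  set cnt : ℕ → ℝ := fun k => (((range W.card).filter (fun v => D.cls v = k)).card : ℝ) with hcnt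
  have hcnt0 : ∀ k, 0 ≤ cnt k := fun k => Nat.cast_nonneg _
  have hmass : ∀ k, D.mass0 k = om * cnt k := by
    intro k
    unfold Proc.Sys2.mass0
    simp only [hw0, sum_const, nsmul_eq_mul, hM]
    rw [mul_comm]
  have hom := H.om0
  have hD2 := H.Dg0
  set K := (range (Y + 1)).filter (fun k => h ≤ cnt k) with hK
  have main := Proc.Sys2.process D K (by
    intro k hk
    have := (mem_filter.1 hk).2
    rw [hmass]
    exact mul_pos hom (hh.trans_le this)) ?_
  · obtain ⟨S, hS1, hS2, hS3⟩ := main
    refine ⟨S.image pt, ?_, ?_, ?_⟩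
    · intro p hp
      rw [mem_image] at hp
      obtain ⟨i, hi, rfl⟩ := hp
      exact mem i (mem_range.1 (hS1 hi))
    · intro a ha b hb c hc hab hac hbc hcol
      rw [mem_image] at ha hb hc
      obtain ⟨i, hi, rfl⟩ := ha
      obtain ⟨j, hj, rfl⟩ := hb
      obtain ⟨k, hk, rfl⟩ := hc
      exact hS2 i hi j hj k hk (fun h => hab (by rw [h])) (fun h => hac (by rw [h])) (fun h => hbc (by rw [h])) hcol
    · rw [sum_image (fun a _ b _ e => inj e)]
      have eW : W = (range W.card).image pt := by
        ext p
        rw [mem_image]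
        constructor
        · intro hp
          obtain ⟨i, hi, e⟩ := surj p hp
          exact ⟨i, mem_range.2 hi, e⟩
        · rintro ⟨i, hi, rfl⟩
          exact mem i (mem_range.1 hi)
      have e1 : ∑ z ∈ W, (w z : ℝ) = ∑ k ∈ range (Y + 1), cnt k * k := by
        conv_lhs => rw [eW]
        rw [sum_image (fun a _ b _ e => inj e)]
        exact sum_cls (M := W.card) D.cls subset_rfl hclsY (fun k => (k : ℝ))
      have e2 : ∑ i ∈ S, (w (pt i) : ℝ)
          = ∑ k ∈ range (Y + 1), ((S.filter (fun v => D.cls v = k)).card : ℝ) * k :=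
        sum_cls (M := W.card) D.cls hS1 hclsY (fun k => (k : ℝ))
      rw [e1, e2]
      have e3 : ((Y : ℝ) + 1) * (Y * h) = ∑ _k ∈ range (Y + 1), (Y * h) := by
        rw [sum_const, card_range, nsmul_eq_mul]
        push_cast
        ring
      rw [e3, ← sum_sub_distrib, mul_sum]
      apply sum_le_sum
      intro k hk
      have hk0 : (0 : ℝ) ≤ k := Nat.cast_nonneg _
      have hkY : (k : ℝ) ≤ Y := by
        have := mem_range.1 hk
        exact_mod_cast Nat.lt_succ_iff.1 this
      have hY0 : (0 : ℝ) ≤ Y := Nat.cast_nonneg _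
      by_cases hc : h ≤ cnt k
      · have h3 := hS3 k (mem_filter.2 ⟨hk, hc⟩)
        rw [hmass] at h3
        have h4 := mul_le_mul_of_nonneg_right h3 hk0
        have h5 : 0 ≤ om / 2 * (Y * h) := by positivity
        nlinarith
      · push Not at hc
        have h4 : cnt k * k ≤ Y * h := by
          rw [mul_comm]
          exact mul_le_mul hkY hc.le (hcnt0 k) hY0
        have h5 : om / 2 * (cnt k * k - Y * h) ≤ 0 :=
          mul_nonpos_of_nonneg_of_nonpos (by positivity) (by linarith)
        exact h5.trans (mul_nonneg (Nat.cast_nonneg _) hk0)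
  · refine lt_of_le_of_lt ?_ hnum
    apply add_le_add (add_le_add ?_ ?_) ?_
    · have hT : ∀ z ∈ range D.M, D.T0 z ≤ om ^ 2 * D1 := by
        intro z hz
        have hz' : z < W.card := mem_range.1 hz
        unfold Proc.Sys2.T0
        have e1 : ∑ v ∈ range z, ∑ x ∈ range z, (if x ≠ v ∧ D.C x v z then D.w0 x * D.w0 v else 0)
            = om ^ 2 * (((range z ×ˢ range z).filter (fun q => q.2 ≠ q.1 ∧ D.C q.2 q.1 z)).card : ℝ) := by
          rw [← sum_product', card_filter]
          push_cast
          rw [mul_sum]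
          apply sum_congr rfl
          intro q _
          rw [hw0, hw0]
          split_ifs <;> ring
        rw [e1]
        apply mul_le_mul_of_nonneg_left _ (by positivity)
        refine le_trans ?_ (hbd (pt z) (mem z hz'))
        have : ((range z ×ˢ range z).filter (fun q => q.2 ≠ q.1 ∧ D.C q.2 q.1 z)).card ≤ bd W w (pt z) := by
          unfold bd
          rw [deg_eq]
          apply card_le_card_of_injOn (fun q => (pt q.1, pt q.2))
          · intro q hq
            rw [mem_coe, mem_filter, mem_product, mem_range, mem_range] at hq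
            obtain ⟨⟨h1, h2⟩, h3, h4⟩ := hq
            have h5 : col (pt q.2) (pt q.1) (pt z) := h4
            unfold up
            rw [mem_coe, mem_filter, mem_product, mem_filter, mem_filter]
            refine ⟨⟨⟨mem _ (by omega), srt _ _ h1 hz'⟩, mem _ (by omega), srt _ _ h2 hz'⟩, ?_, ?_, ?_,
              col_12 (col_23 (col_12 h5))⟩
            · intro e; have := inj e; omega
            · intro e; have := inj e; omega
            · intro e; exact h3 (inj e)
          · intro q _ r _ hqr
            simp only [Prod.mk.injEq] at hqr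
            exact Prod.ext (inj hqr.1) (inj hqr.2)
        exact_mod_cast this
      have e3 : ∀ z ∈ range D.M, 8 / (Real.exp (D.Zm z) * D.mass0 (D.cls z)) * (D.w0 z * Real.exp (D.T0 z))
          ≤ (8 * Real.exp (om ^ 2 * D1 - Z)) / cnt (D.cls z) := by
        intro z hz
        rw [hmass]
        have e4 : D.Zm z = Z := rfl
        rw [e4, hw0]
        have hc0 := hcnt0 (D.cls z)
        have h1 : Real.exp (D.T0 z) ≤ Real.exp (om ^ 2 * D1) := Real.exp_le_exp.2 (hT z hz)
        have h2 : 8 / (Real.exp Z * (om * cnt (D.cls z))) * (om * Real.exp (D.T0 z))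
            ≤ 8 / (Real.exp Z * (om * cnt (D.cls z))) * (om * Real.exp (om ^ 2 * D1)) := by
          apply mul_le_mul_of_nonneg_left _ (by positivity)
          exact mul_le_mul_of_nonneg_left h1 hom.le
        refine h2.trans (le_of_eq ?_)
        rw [Real.exp_sub]
        have := (Real.exp_pos Z).ne'
        rcases hc0.eq_or_lt with h0 | h0
        · rw [← h0]; simp
        · field_simp
      refine (sum_le_sum e3).trans ?_
      rw [hM, sum_cls (M := W.card) D.cls subset_rfl hclsY (fun k => (8 * Real.exp (om ^ 2 * D1 - Z)) / cnt k)]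
      have e5 : ((Y : ℝ) + 1) * (8 * Real.exp (om ^ 2 * D1 - Z))
          = ∑ _k ∈ range (Y + 1), (8 * Real.exp (om ^ 2 * D1 - Z)) := by
        rw [sum_const, card_range, nsmul_eq_mul]
        push_cast
        ring
      rw [e5]
      apply sum_le_sum
      intro k _
      change cnt k * _ ≤ _
      rcases (hcnt0 k).eq_or_lt with h0 | h0
      · rw [← h0, zero_mul]; positivity
      · apply le_of_eq
        field_simp
    · have e5 : ∀ k ∈ K, 16 / (D.mass0 k) ^ 2 * (4 * D.mass0 k + 2 * D.cd k *
          ∑ z ∈ (range D.M).filter (fun v => D.cls v = k), D.w0 z * (2 * D.pm z))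
          ≤ 64 / (om * h) + 64 * D2 * Real.exp Z / h := by
        intro k hk
        have hc := (mem_filter.1 hk).2
        have hc0 : 0 < cnt k := hh.trans_le hc
        have e2 : ∀ v, D.w0 v * (2 * D.pm v) = om * (2 * (om * Real.exp Z)) := fun v => rfl
        have e3 : D.cd k = D2 := rfl
        rw [hmass, e3]
        simp only [e2, sum_const, nsmul_eq_mul, hM]
        change 16 / (om * cnt k) ^ 2 * (4 * (om * cnt k) + 2 * D2 * (cnt k * (om * (2 * (om * Real.exp Z))))) ≤ _
        have e4 : 16 / (om * cnt k) ^ 2 * (4 * (om * cnt k) + 2 * D2 * (cnt k * (om * (2 * (om * Real.exp Z)))))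
            = 64 / (om * cnt k) + 64 * D2 * Real.exp Z / cnt k := by
          field_simp
          ring
        rw [e4]
        have := Real.exp_pos Z
        gcongr
      refine (sum_le_sum e5).trans ?_
      rw [sum_const, nsmul_eq_mul]
      apply mul_le_mul_of_nonneg_right
      · have : K.card ≤ Y + 1 := (card_filter_le _ _).trans (by rw [card_range])
        exact_mod_cast this
      · have := Real.exp_pos Z
        positivity
    · have hsub : D.prs ⊆ range W.card ×ˢ range W.card := filter_subset _ _
      have h1 : ∀ e ∈ D.prs, Real.exp (D.s e.2 * (∑ v ∈ range D.M, (if D.C e.1 e.2 v then D.w0 v else 0) - 1 / 128))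
          ≤ Real.exp (-(s / 256)) := by
        intro e he
        obtain ⟨he1, he2, _⟩ := Proc.Sys2.mem_prs.1 he
        have he2' : e.2 < W.card := he2
        rw [Real.exp_le_exp]
        have e2 : D.s e.2 = s := rfl
        rw [e2]
        have e3 : ∑ v ∈ range D.M, (if D.C e.1 e.2 v then D.w0 v else 0)
            = (((range W.card).filter (fun v => col (pt e.1) (pt e.2) (pt v))).card : ℝ) * om := by
          rw [card_filter]
          push_cast
          rw [sum_mul]
          apply sum_congr rfl
          intro v _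
          have e4 : D.C e.1 e.2 v ↔ col (pt e.1) (pt e.2) (pt v) := Iff.rfl
          rw [hw0]
          by_cases hc : col (pt e.1) (pt e.2) (pt v)
          · rw [if_pos (e4.2 hc), if_pos hc, one_mul]
          · rw [if_neg (fun h => hc (e4.1 h)), if_neg hc, zero_mul]
        rw [e3]
        have h2 : (((range W.card).filter (fun v => col (pt e.1) (pt e.2) (pt v))).card : ℝ)
            ≤ ((W.filter (fun v => col (pt e.1) (pt e.2) v)).card : ℝ) := by
          have : ((range W.card).filter (fun v => col (pt e.1) (pt e.2) (pt v))).card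
              ≤ (W.filter (fun v => col (pt e.1) (pt e.2) v)).card := by
            apply card_le_card_of_injOn pt
            · intro v hv
              rw [mem_coe, mem_filter, mem_range] at hv
              rw [mem_coe, mem_filter]
              exact ⟨mem v hv.1, hv.2⟩
            · intro x _ y _ hxy
              exact inj hxy
          exact_mod_cast this
        have h3 := H.line (pt e.1) (mem _ (he1.trans he2')) (pt e.2) (mem _ he2') (fun h => he1.ne (inj h))
        have h4 := mul_le_mul_of_nonneg_right h2 hom.le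
        have h5 := H.s0
        nlinarith
      calc _ ≤ ∑ e ∈ D.prs, Real.exp (-(s / 256)) := sum_le_sum h1
        _ = (D.prs.card : ℝ) * Real.exp (-(s / 256)) := by rw [sum_const, nsmul_eq_mul]
        _ ≤ (W.card : ℝ) ^ 2 * Real.exp (-(s / 256)) := by
          apply mul_le_mul_of_nonneg_right _ (Real.exp_pos _).le
          have h2 := card_le_card hsub
          rw [card_product, card_range, ← sq] at h2
          exact_mod_cast h2

end Pool.Agent.H417Z.GC
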