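import Pool.Agent.H417Z.GC3

set_option autoImplicit false

/-! The weighted selection theorem for bounded weights (numerics as in `Helper64/Gow9`). -/

namespace Pool.Agent.H417Z.GC

open Finset Pool.Agent.Helper64.Gow Pool.Agent.Helper64
open scoped Classical

lemma cyc_bounds {V : Finset Pt} (hxV : XI V) {B : ℕ} (hBV : ∀ L ∈ lines V, (pl V L).card ≤ B) {nu D : ℝ}
    (hnu1 : 1 ≤ nu) (hBR : (B : ℝ) ≤ nu ^ 500) (hn1 : nu ^ 999 ≤ (V.card : ℝ)) (hn2 : (V.card : ℝ) ≤ nu ^ 1000)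
    (hVd : ∀ a ∈ V, (deg V a : ℝ) ≤ D) (hD0 : 0 < D) (hDb : D ≤ 2 ^ 19 * nu ^ 1001) :
    ((S6 V).card : ℝ) ≤ 2 ^ 41 * nu ^ 3477 ∧ ((S8 V).card : ℝ) ≤ 2 ^ 61 * nu ^ 4478 := by
  have hnu0 : (0 : ℝ) < nu := by linarith
  set n : ℝ := (V.card : ℝ) with hn
  set j := ⌈nu ^ 475⌉₊ with hj
  have hj1 : nu ^ 475 ≤ j := Nat.le_ceil _
  have hj2 : (j : ℝ) ≤ 2 * nu ^ 475 := by
    have h1 : (j : ℝ) < nu ^ 475 + 1 := Nat.ceil_lt_add_one (by positivity)
    have h2 : (1 : ℝ) ≤ nu ^ 475 := one_le_pow₀ hnu1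
    linarith
  have hj0 : 0 < j := by
    have : (0 : ℝ) < j := lt_of_lt_of_le (by positivity) hj1
    exact_mod_cast this
  have hjn : j ^ 2 ≤ 12 * V.card := by
    have h1 : (j : ℝ) ^ 2 ≤ 12 * n := by
      calc (j : ℝ) ^ 2 ≤ (2 * nu ^ 475) ^ 2 := pow_le_pow_left₀ (by positivity) hj2 2
        _ = 4 * nu ^ 950 := by ring
        _ ≤ 4 * nu ^ 999 := by
          apply mul_le_mul_of_nonneg_left _ (by norm_num)
          exact pow_le_pow_right₀ hnu1 (by norm_num)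
        _ ≤ 12 * n := by
          have : 0 < nu ^ 999 := by positivity
          linarith
    rw [hn] at h1
    exact_mod_cast h1
  set H : ℝ := ((heavy V j).card : ℝ) with hH
  have hHb : H ≤ 72 * nu ^ 575 := by
    have h1 : H ≤ 72 * n ^ 2 / (j : ℝ) ^ 3 := heavy_bound hxV hj0 hjn
    refine h1.trans ?_
    rw [div_le_iff₀ (by positivity)]
    calc 72 * n ^ 2 ≤ 72 * (nu ^ 1000) ^ 2 := by
          apply mul_le_mul_of_nonneg_left _ (by norm_num)
          exact pow_le_pow_left₀ (by positivity) hn2 2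
      _ = 72 * nu ^ 575 * (nu ^ 475) ^ 3 := by
          rw [← pow_mul, ← pow_mul, mul_assoc, ← pow_add]
      _ ≤ 72 * nu ^ 575 * (j : ℝ) ^ 3 := by
          apply mul_le_mul_of_nonneg_left _ (by positivity)
          exact pow_le_pow_left₀ (by positivity) hj1 3
  have hH0 : 0 ≤ H := Nat.cast_nonneg _
  have hB0 : (0 : ℝ) ≤ B := Nat.cast_nonneg _
  have hn0 : 0 < n := lt_of_lt_of_le (by positivity) hn1
  have hS6 : ((S6 V).card : ℝ) ≤ 2 ^ 41 * nu ^ 3477 := by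
    refine (S6_bound hxV hBV hVd hD0.le j).trans ?_
    have e1 : 3 * (j : ℝ) * n * D ^ 2 ≤ 3 * (2 * nu ^ 475) * nu ^ 1000 * (2 ^ 19 * nu ^ 1001) ^ 2 := by
      have := hD0.le
      gcongr
    have e2 : 3 * (2 * nu ^ 475) * nu ^ 1000 * (2 ^ 19 * nu ^ 1001) ^ 2 = 6 * 2 ^ 38 * nu ^ 3477 := by
      have : nu ^ 3477 = nu ^ 475 * nu ^ 1000 * (nu ^ 1001) ^ 2 := by
        rw [← pow_mul, ← pow_add, ← pow_add]
      rw [this]; ring
    have e3 : H ^ 3 * (B : ℝ) ^ 3 ≤ (72 * nu ^ 575) ^ 3 * (nu ^ 500) ^ 3 := by gcongr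
    have e4 : (72 * nu ^ 575) ^ 3 * (nu ^ 500) ^ 3 = 373248 * nu ^ 3225 := by
      have : nu ^ 3225 = (nu ^ 575) ^ 3 * (nu ^ 500) ^ 3 := by
        rw [← pow_mul, ← pow_mul, ← pow_add]
      rw [this]; ring
    have e5 : nu ^ 3225 ≤ nu ^ 3477 := pow_le_pow_right₀ hnu1 (by norm_num)
    have e6 : (0 : ℝ) < nu ^ 3477 := by positivity
    calc 3 * (j : ℝ) * n * D ^ 2 + H ^ 3 * (B : ℝ) ^ 3 ≤ 6 * 2 ^ 38 * nu ^ 3477 + 373248 * nu ^ 3225 := by
          rw [← e2, ← e4]; exact add_le_add e1 e3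
      _ ≤ 2 ^ 41 * nu ^ 3477 := by
          have : (6 * 2 ^ 38 + 373248 : ℝ) ≤ 2 ^ 41 := by norm_num
          nlinarith
  have hS8 : ((S8 V).card : ℝ) ≤ 2 ^ 61 * nu ^ 4478 := by
    refine (S8_bound hxV hBV hVd hD0.le j).trans ?_
    have e1 : 4 * (j : ℝ) * n * D ^ 3 ≤ 4 * (2 * nu ^ 475) * nu ^ 1000 * (2 ^ 19 * nu ^ 1001) ^ 3 := by
      have := hD0.le
      gcongr
    have e2 : 4 * (2 * nu ^ 475) * nu ^ 1000 * (2 ^ 19 * nu ^ 1001) ^ 3 = 2 ^ 60 * nu ^ 4478 := by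
      have : nu ^ 4478 = nu ^ 475 * nu ^ 1000 * (nu ^ 1001) ^ 3 := by
        rw [← pow_mul, ← pow_add, ← pow_add]
      rw [this]; ring
    have e3 : H ^ 4 * (B : ℝ) ^ 4 ≤ (72 * nu ^ 575) ^ 4 * (nu ^ 500) ^ 4 := by gcongr
    have e4 : (72 * nu ^ 575) ^ 4 * (nu ^ 500) ^ 4 = 26873856 * nu ^ 4300 := by
      have : nu ^ 4300 = (nu ^ 575) ^ 4 * (nu ^ 500) ^ 4 := by
        rw [← pow_mul, ← pow_mul, ← pow_add]
      rw [this]; ring
    have e5 : nu ^ 4300 ≤ nu ^ 4478 := pow_le_pow_right₀ hnu1 (by norm_num)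
    have e6 : (0 : ℝ) < nu ^ 4478 := by positivity
    calc 4 * (j : ℝ) * n * D ^ 3 + H ^ 4 * (B : ℝ) ^ 4 ≤ 2 ^ 60 * nu ^ 4478 + 26873856 * nu ^ 4300 := by
          rw [← e2, ← e4]; exact add_le_add e1 e3
      _ ≤ 2 ^ 61 * nu ^ 4478 := by
          have : (2 ^ 60 + 26873856 : ℝ) ≤ 2 ^ 61 := by norm_num
          nlinarith
  exact ⟨hS6, hS8⟩

lemma choose_small {nu p : ℝ} {B K : ℕ} (hnu1 : 1 ≤ nu) (hp : p = 1 / nu ^ 499) (hBR : (B : ℝ) ≤ nu ^ 500)
    (hK1 : 6 * nu ≤ K) : p ^ K * (B.choose K : ℝ) ≤ Real.exp (-nu) := by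
  have hnu0 : (0 : ℝ) < nu := by linarith
  have hp0 : 0 < p := by rw [hp]; positivity
  have hpB : p * B ≤ nu := by
    calc p * B ≤ p * nu ^ 500 := mul_le_mul_of_nonneg_left hBR hp0.le
      _ = nu := by
        have : nu ^ 500 = nu ^ 499 * nu := by rw [← pow_succ]
        rw [hp, this]
        field_simp
  have hch : (B.choose K : ℝ) ≤ (B : ℝ) ^ K / (K.factorial : ℝ) := Nat.choose_le_pow_div K B
  have hfac : (0 : ℝ) < K.factorial := by exact_mod_cast Nat.factorial_pos K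
  have h1 : p ^ K * (B.choose K : ℝ) ≤ Real.exp (-nu) := by
    calc p ^ K * (B.choose K : ℝ) ≤ p ^ K * ((B : ℝ) ^ K / (K.factorial : ℝ)) := by
          apply mul_le_mul_of_nonneg_left hch (by positivity)
      _ = (p * B) ^ K / K.factorial := by rw [mul_pow]; ring
      _ ≤ nu ^ K / K.factorial := by
          apply div_le_div_of_nonneg_right _ hfac.le
          exact pow_le_pow_left₀ (by positivity) hpB K
      _ = ((6 * nu) ^ K / K.factorial) * (1 / 6) ^ K := by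
          rw [mul_pow, one_div, inv_pow]
          field_simp
      _ ≤ Real.exp (6 * nu) * Real.exp (-(3 / 2) * K) := by
          apply mul_le_mul
          · exact Real.pow_div_factorial_le_exp _ (by positivity) K
          · have h2 : (1 / 6 : ℝ) ≤ Real.exp (-(3 / 2)) := by
              rw [Real.exp_neg, one_div]
              apply inv_anti₀ (Real.exp_pos _)
              have h3 : Real.exp (3 / 2) ^ 2 ≤ 6 ^ 2 := by
                rw [← Real.exp_nat_mul]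
                have : ((2 : ℕ) : ℝ) * (3 / 2) = 1 + 1 + 1 := by norm_num
                rw [this, Real.exp_add, Real.exp_add]
                have h4 := Real.exp_one_lt_d9
                have h5 := Real.exp_pos 1
                have h6 : Real.exp 1 ≤ 3 := by linarith
                calc Real.exp 1 * Real.exp 1 * Real.exp 1 ≤ 3 * 3 * 3 := by gcongr
                  _ ≤ 6 ^ 2 := by norm_num
              exact le_of_sq_le_sq h3 (by norm_num)
            calc (1 / 6 : ℝ) ^ K ≤ Real.exp (-(3 / 2)) ^ K := pow_le_pow_left₀ (by norm_num) h2 K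
              _ = Real.exp (-(3 / 2) * K) := by rw [← Real.exp_nat_mul]; ring_nf
          · positivity
          · positivity
      _ = Real.exp (6 * nu + -(3 / 2) * K) := by rw [Real.exp_add]
      _ ≤ Real.exp (-nu) := by
          rw [Real.exp_le_exp]
          linarith
  exact h1

structure Cnd2 (nu : ℝ) : Prop where
  c0 : Cnd nu
  d1 : 2 ^ 25 * (Real.log nu) ^ 2 ≤ nu
  d2 : 2005 * Real.log nu * (8 * Real.exp (-(Real.log nu / 4))) ≤ 1 / 4

lemma cnd2_eventually : ∀ᶠ nu : ℝ in Filter.atTop, Cnd2 nu := by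
  have hl4 : Filter.Tendsto (fun nu : ℝ => Real.log nu / 4) Filter.atTop Filter.atTop :=
    Real.tendsto_log_atTop.atTop_div_const (by norm_num)
  have h1 : ∀ᶠ nu : ℝ in Filter.atTop, (Real.log nu) ^ 2 * Real.exp (-(Real.log nu)) < 1 / 2 ^ 25 := by
    have := ((Real.tendsto_pow_mul_exp_neg_atTop_nhds_zero 2).comp Real.tendsto_log_atTop).eventually_lt_const
      (show (0 : ℝ) < 1 / 2 ^ 25 by norm_num)
    exact this
  have h2 : ∀ᶠ nu : ℝ in Filter.atTop, (Real.log nu / 4) ^ 1 * Real.exp (-(Real.log nu / 4)) < 1 / 300000 := by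
    have := ((Real.tendsto_pow_mul_exp_neg_atTop_nhds_zero 1).comp hl4).eventually_lt_const
      (show (0 : ℝ) < 1 / 300000 by norm_num)
    exact this
  filter_upwards [cnd_eventually, h1, h2, Filter.eventually_gt_atTop (0 : ℝ)] with nu a0 a1 a2 a3
  refine ⟨a0, ?_, ?_⟩
  · rw [Real.exp_neg, Real.exp_log a3, ← div_eq_mul_inv, div_lt_div_iff₀ a3 (by norm_num)] at a1
    linarith
  · rw [pow_one] at a2
    linarith

lemma tr_big {P : Finset Pt} (hx : XI P) {B : ℕ} (hB : ∀ L ∈ lines P, (pl P L).card ≤ B) (hB1 : 1 ≤ B) {nu : ℝ}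
    (hnu1 : 1 ≤ nu) (hBR : (B : ℝ) ≤ nu ^ 500) {g : ℝ} (hP : (P.card : ℝ) ≤ g) :
    ∀ U ⊆ P, (Tr U : ℝ) ≤ 1728 * (g * (2 + 500 * Real.log nu) + nu ^ 1000) * U.card := by
  intro U hU
  have h1 := triples_all (XI_sub hx hU) (lineb_sub hB hU) hB1
  have hlogB : Real.log B ≤ 500 * Real.log nu := by
    have h1 : Real.log B ≤ Real.log (nu ^ 500) := Real.log_le_log (by exact_mod_cast hB1) hBR
    rw [Real.log_pow] at h1
    exact_mod_cast h1
  have hlogB0 : 0 ≤ Real.log B := Real.log_nonneg (by exact_mod_cast hB1)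
  have hU1 : (U.card : ℝ) ≤ g := by
    refine le_trans ?_ hP
    exact_mod_cast card_le_card hU
  have hU0 : (0 : ℝ) ≤ U.card := Nat.cast_nonneg _
  have h2 : (B : ℝ) ^ 2 ≤ nu ^ 1000 := by
    calc (B : ℝ) ^ 2 ≤ (nu ^ 500) ^ 2 := pow_le_pow_left₀ (Nat.cast_nonneg _) hBR 2
      _ = nu ^ 1000 := by rw [← pow_mul]
  have h3 : (U.card : ℝ) * (2 + Real.log B) ≤ g * (2 + 500 * Real.log nu) :=
    mul_le_mul hU1 (by linarith) (by linarith) (hU0.trans hU1)
  calc (Tr U : ℝ) ≤ 1728 * (U.card : ℝ) * (U.card * (2 + Real.log B) + (B : ℝ) ^ 2) := h1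
    _ ≤ 1728 * (U.card : ℝ) * (g * (2 + 500 * Real.log nu) + nu ^ 1000) := by
        apply mul_le_mul_of_nonneg_left _ (by positivity)
        linarith
    _ = _ := by ring

lemma regW {P : Finset Pt} {w : Pt → ℕ} {D0 D' Y : ℝ} (hD0 : 0 < D0) (hD' : 0 < D') (hY0 : 0 ≤ Y)
    (hTr : ∀ U ⊆ P, (Tr U : ℝ) ≤ D0 * U.card) (hw : ∀ z ∈ P, (w z : ℝ) ≤ Y) :
    ∃ V ⊆ P, (∀ z ∈ V, (bd V w z : ℝ) ≤ 8 * D0) ∧ (∀ z ∈ V, (deg V z : ℝ) ≤ D') ∧
      7 / 8 * ∑ z ∈ P, (w z : ℝ) - Y * (D0 * P.card / D') ≤ ∑ z ∈ V, (w z : ℝ) := by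
  set V := P.filter (fun z => (bd P w z : ℝ) ≤ 8 * D0 ∧ (deg P z : ℝ) ≤ D') with hV
  set b1 := P.filter (fun z => 8 * D0 ≤ (bd P w z : ℝ)) with hb1
  set b2 := P.filter (fun z => D' ≤ (deg P z : ℝ)) with hb2
  have hVP : V ⊆ P := filter_subset _ _
  refine ⟨V, hVP, ?_, ?_, ?_⟩
  · intro z hz
    have h1 : (bd V w z : ℝ) ≤ bd P w z := by exact_mod_cast bd_mono hVP w z
    exact h1.trans (mem_filter.1 hz).2.1
  · intro z hz
    have h1 : (deg V z : ℝ) ≤ deg P z := by exact_mod_cast deg_mono hVP z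
    exact h1.trans (mem_filter.1 hz).2.2
  · have c1 : 8 * D0 * ∑ z ∈ b1, (w z : ℝ) ≤ D0 * ∑ z ∈ P, (w z : ℝ) := by
      refine le_trans ?_ (layer hTr)
      calc 8 * D0 * ∑ z ∈ b1, (w z : ℝ) ≤ ∑ z ∈ b1, (w z : ℝ) * bd P w z := by
            rw [mul_sum]
            apply sum_le_sum
            intro z hz
            rw [mul_comm]
            exact mul_le_mul_of_nonneg_left (mem_filter.1 hz).2 (Nat.cast_nonneg _)
        _ ≤ _ := by
            apply sum_le_sum_of_subset_of_nonneg (filter_subset _ _)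
            intro a _ _
            positivity
    have c1' : ∑ z ∈ b1, (w z : ℝ) ≤ 1 / 8 * ∑ z ∈ P, (w z : ℝ) := by
      have : D0 * (8 * ∑ z ∈ b1, (w z : ℝ)) ≤ D0 * ∑ z ∈ P, (w z : ℝ) := by linarith
      have := le_of_mul_le_mul_left this hD0
      linarith
    have c2 : (b2.card : ℝ) ≤ D0 * P.card / D' := by
      rw [le_div_iff₀ hD']
      refine le_trans ?_ (hTr P subset_rfl)
      calc (b2.card : ℝ) * D' = ∑ z ∈ b2, D' := by rw [sum_const, nsmul_eq_mul]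
        _ ≤ ∑ z ∈ b2, (deg P z : ℝ) := sum_le_sum (fun z hz => (mem_filter.1 hz).2)
        _ ≤ ∑ z ∈ P, (deg P z : ℝ) := by
            apply sum_le_sum_of_subset_of_nonneg (filter_subset _ _)
            intro a _ _
            positivity
        _ = _ := by unfold Tr; push_cast; rfl
    have h1 : ∑ z ∈ P, (w z : ℝ) ≤ ∑ z ∈ P, ((if z ∈ V then (w z : ℝ) else 0)
        + (if z ∈ b1 then (w z : ℝ) else 0) + (if z ∈ b2 then Y else 0)) := by
      apply sum_le_sum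
      intro z hz
      have hz0 : (0 : ℝ) ≤ w z := Nat.cast_nonneg _
      have hzY := hw z hz
      have hcase : z ∈ V ∨ z ∈ b1 ∨ z ∈ b2 := by
        rw [hV, hb1, hb2, mem_filter, mem_filter, mem_filter]
        by_cases h1 : (bd P w z : ℝ) ≤ 8 * D0
        · by_cases h2 : (deg P z : ℝ) ≤ D'
          · exact Or.inl ⟨hz, h1, h2⟩
          · exact Or.inr (Or.inr ⟨hz, (not_le.1 h2).le⟩)
        · exact Or.inr (Or.inl ⟨hz, (not_le.1 h1).le⟩)
      have e1 : 0 ≤ (if z ∈ V then (w z : ℝ) else 0) := by split_ifs <;> simp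
      have e2 : 0 ≤ (if z ∈ b1 then (w z : ℝ) else 0) := by split_ifs <;> simp
      have e3 : 0 ≤ (if z ∈ b2 then Y else 0) := by split_ifs <;> simp [hY0]
      rcases hcase with h | h | h
      · rw [if_pos h] at e1 ⊢; linarith
      · rw [if_pos h] at e2 ⊢; linarith
      · rw [if_pos h] at e3 ⊢; linarith
    rw [sum_add_distrib, sum_add_distrib] at h1
    have f1 : ∑ z ∈ P, (if z ∈ V then (w z : ℝ) else 0) = ∑ z ∈ V, (w z : ℝ) := by
      rw [← sum_filter]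
      apply sum_congr _ (fun _ _ => rfl)
      ext z
      rw [mem_filter]
      exact ⟨fun h => h.2, fun h => ⟨hVP h, h⟩⟩
    have f2 : ∑ z ∈ P, (if z ∈ b1 then (w z : ℝ) else 0) = ∑ z ∈ b1, (w z : ℝ) := by
      rw [← sum_filter]
      apply sum_congr _ (fun _ _ => rfl)
      ext z
      rw [mem_filter]
      exact ⟨fun h => h.2, fun h => ⟨(mem_filter.1 h).1, h⟩⟩
    have f3 := sum_ite_mem_le P b2 hY0
    have f4 := mul_le_mul_of_nonneg_left c2 hY0
    rw [f1, f2] at h1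
    linarith

theorem big_caseW {P : Finset Pt} (hx : XI P) {B : ℕ} (hB : ∀ L ∈ lines P, (pl P L).card ≤ B) (hB1 : 1 ≤ B)
    {nu : ℝ} (hc2 : Cnd2 nu) (hBR : (B : ℝ) ≤ nu ^ 500) (hP : (P.card : ℝ) ≤ nu ^ 1000) {w : Pt → ℕ} {Y : ℕ}
    (hw : ∀ z ∈ P, w z ≤ Y) (hY : (Y : ℝ) ≤ 2004 * Real.log nu) (hW : nu ^ 1000 ≤ ∑ z ∈ P, (w z : ℝ)) :
    ∃ S ⊆ P, GP S ∧ nu ^ 500 / 2 ^ 18 ≤ ∑ z ∈ S, (w z : ℝ) := by
  have hc := hc2.c0
  have hnu24 := hc.c1
  have hnu1 : (1 : ℝ) ≤ nu := by linarith [show (1 : ℝ) ≤ 2 ^ 24 by norm_num]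
  have hnu0 : (0 : ℝ) < nu := by linarith
  have hd1 := hc2.d1
  have hd2 := hc2.d2
  set l := Real.log nu with hl
  have hl2 : 2 ≤ l := hc.c5
  have h25 : (2 : ℝ) ^ 25 = 33554432 := by norm_num
  have h24 : (2 : ℝ) ^ 24 = 16777216 := by norm_num
  rw [h25] at hd1
  have hY0 : (0 : ℝ) ≤ Y := Nat.cast_nonneg _
  have hYl : 32 * (Y * l) ≤ nu := by nlinarith only [hY, hd1, hl2]
  have hY1 : (Y : ℝ) + 1 ≤ 2005 * l := by linarith
  have hYY : ((Y : ℝ) + 1) * Y ≤ nu := by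
    have h1 : ((Y : ℝ) + 1) * Y ≤ (2005 * l) * (2004 * l) := mul_le_mul hY1 hY hY0 (by linarith)
    nlinarith only [h1, hd1, hl2]
  have hY2 : 2 * (Y : ℝ) ≤ nu := by nlinarith only [hY, hd1, hl2]
  have hY3 : (Y : ℝ) + 1 ≤ nu := by nlinarith only [hY1, hd1, hl2]
  have hwR : ∀ z ∈ P, (w z : ℝ) ≤ Y := fun z hz => by exact_mod_cast hw z hz
  set D0 : ℝ := 2 ^ 20 * nu ^ 1000 * l with hD0
  have hN0 : (0 : ℝ) < nu ^ 1000 := by positivity
  have hD00 : 0 < D0 := by rw [hD0]; positivity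
  have hTr : ∀ U ⊆ P, (Tr U : ℝ) ≤ D0 * U.card := by
    intro U hU
    refine (tr_big hx hB hB1 hnu1 hBR hP U hU).trans ?_
    apply mul_le_mul_of_nonneg_right _ (Nat.cast_nonneg _)
    rw [hD0, ← hl]
    have h1 : (2 : ℝ) ^ 20 = 1048576 := by norm_num
    rw [h1]
    have h2 : nu ^ 1000 * 2 ≤ nu ^ 1000 * l := mul_le_mul_of_nonneg_left hl2 hN0.le
    linarith only [h2, hN0]
  obtain ⟨V, hVP, hVb, hVd, hVw⟩ := regW (D' := 2 ^ 19 * nu ^ 1001) hD00 (by positivity) hY0 hTr hwR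
  set X : ℝ := ∑ z ∈ V, (w z : ℝ) with hX
  have e1000 : nu ^ 1000 = nu ^ 999 * nu := by rw [← pow_succ]
  have e1001 : nu ^ 1001 = nu ^ 1000 * nu := by rw [← pow_succ]
  have h999 : (0 : ℝ) < nu ^ 999 := by positivity
  have hX1 : nu ^ 1000 / 2 ≤ X := by
    have h1 : D0 * P.card / (2 ^ 19 * nu ^ 1001) ≤ 2 * l * nu ^ 999 := by
      rw [div_le_iff₀ (by positivity)]
      calc D0 * P.card ≤ D0 * nu ^ 1000 := mul_le_mul_of_nonneg_left hP hD00.le
        _ = 2 * l * nu ^ 999 * (2 ^ 19 * nu ^ 1001) := by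
          rw [hD0, e1001, e1000]; ring
    have h2 := mul_le_mul_of_nonneg_left h1 hY0
    have h3 : (Y : ℝ) * (2 * l * nu ^ 999) ≤ nu ^ 1000 / 8 := by
      rw [e1000]
      have h4 := mul_le_mul_of_nonneg_left hYl h999.le
      have h5 : 0 ≤ nu ^ 999 * nu := by positivity
      linarith only [h4, h5]
    linarith
  have hX0 : 0 < X := lt_of_lt_of_le (by positivity) hX1
  have hxV : XI V := XI_sub hx hVP
  have hBV := lineb_sub hB hVP
  have hn2 : (V.card : ℝ) ≤ nu ^ 1000 := by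
    refine le_trans ?_ hP
    exact_mod_cast card_le_card hVP
  have hn0 : (0 : ℝ) ≤ V.card := Nat.cast_nonneg _
  have hXn : X ≤ V.card * Y := by
    rw [hX, ← nsmul_eq_mul, ← sum_const]
    exact sum_le_sum (fun z hz => hwR z (hVP hz))
  have hn1 : nu ^ 999 ≤ (V.card : ℝ) := by
    have h1 : nu ^ 999 * nu ≤ V.card * nu := by
      rw [← e1000]
      have := mul_le_mul_of_nonneg_left hY2 hn0
      linarith
    exact le_of_mul_le_mul_right h1 hnu0
  have hX2 : X ≤ nu ^ 1001 := by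
    refine hXn.trans ?_
    rw [e1001]
    exact mul_le_mul hn2 (by linarith) hY0 hN0.le
  obtain ⟨hS6, hS8⟩ := cyc_bounds hxV hBV hnu1 hBR hn1 hn2 hVd (by positivity) le_rfl
  set p : ℝ := 1 / nu ^ 499 with hp
  have hp0 : 0 < p := by rw [hp]; positivity
  have hp1 : p ≤ 1 := by
    rw [hp, div_le_one (by positivity)]
    exact one_le_pow₀ hnu1
  have hpn : nu ^ 501 / 2 ≤ p * X := by
    have h1 : nu ^ 501 / 2 = p * (nu ^ 1000 / 2) := by
      rw [hp]
      have : nu ^ 1000 = nu ^ 499 * nu ^ 501 := by rw [← pow_add]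
      rw [this]
      field_simp
    rw [h1]
    exact mul_le_mul_of_nonneg_left hX1 hp0.le
  have hYnu : (Y : ℝ) ≤ nu := by linarith
  have h6 : Y * (p ^ 6 * ((S6 V).card : ℝ)) ≤ p * X / 16 := by
    calc Y * (p ^ 6 * ((S6 V).card : ℝ)) ≤ nu * (p ^ 6 * (2 ^ 41 * nu ^ 3477)) := by gcongr
      _ = 2 ^ 41 * nu ^ 484 := by
          have : nu ^ 3477 = (nu ^ 499) ^ 6 * nu ^ 483 := by rw [← pow_mul, ← pow_add]
          have h2 : nu ^ 484 = nu ^ 483 * nu := by rw [← pow_succ]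
          rw [hp, this, h2]
          field_simp
      _ ≤ nu ^ 501 / 32 := by
          have h1 : nu ^ 501 = nu ^ 484 * nu ^ 17 := by rw [← pow_add]
          have h2 : (2 ^ 24 : ℝ) ^ 17 ≤ nu ^ 17 := pow_le_pow_left₀ (by norm_num) hnu24 17
          have h3 : (2 : ℝ) ^ 46 ≤ (2 ^ 24) ^ 17 := by norm_num
          have h4 : (0 : ℝ) < nu ^ 484 := by positivity
          rw [h1, le_div_iff₀ (by norm_num)]
          have h5 := mul_le_mul_of_nonneg_left (h3.trans h2) h4.le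
          linarith only [h5]
      _ ≤ p * X / 16 := by linarith
  have h8 : Y * (p ^ 8 * ((S8 V).card : ℝ)) ≤ p * X / 16 := by
    calc Y * (p ^ 8 * ((S8 V).card : ℝ)) ≤ nu * (p ^ 8 * (2 ^ 61 * nu ^ 4478)) := by gcongr
      _ = 2 ^ 61 * nu ^ 487 := by
          have : nu ^ 4478 = (nu ^ 499) ^ 8 * nu ^ 486 := by rw [← pow_mul, ← pow_add]
          have h2 : nu ^ 487 = nu ^ 486 * nu := by rw [← pow_succ]
          rw [hp, this, h2]
          field_simp
      _ ≤ nu ^ 501 / 32 := by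
          have h1 : nu ^ 501 = nu ^ 487 * nu ^ 14 := by rw [← pow_add]
          have h2 : (2 ^ 24 : ℝ) ^ 14 ≤ nu ^ 14 := pow_le_pow_left₀ (by norm_num) hnu24 14
          have h3 : (2 : ℝ) ^ 66 ≤ (2 ^ 24) ^ 14 := by norm_num
          have h4 : (0 : ℝ) < nu ^ 487 := by positivity
          rw [h1, le_div_iff₀ (by norm_num)]
          have h5 := mul_le_mul_of_nonneg_left (h3.trans h2) h4.le
          linarith only [h5]
      _ ≤ p * X / 16 := by linarith
  have hT : Y / (2 ^ 20 * nu ^ 3) * (p ^ 3 * ((trs V).card : ℝ)) ≤ p * X / 8 := by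
    have h1 : ((trs V).card : ℝ) ≤ D0 * nu ^ 1000 := by
      rw [← Tr_eq]
      exact (hTr V hVP).trans (mul_le_mul_of_nonneg_left hn2 hD00.le)
    calc Y / (2 ^ 20 * nu ^ 3) * (p ^ 3 * ((trs V).card : ℝ))
        ≤ Y / (2 ^ 20 * nu ^ 3) * (p ^ 3 * (D0 * nu ^ 1000)) := by gcongr
      _ = (Y * l) * nu ^ 500 := by
          have : nu ^ 1000 * nu ^ 1000 = (nu ^ 499) ^ 3 * nu ^ 3 * nu ^ 500 := by
            rw [← pow_mul, ← pow_add, ← pow_add, ← pow_add]
          have h2 : D0 * nu ^ 1000 = 2 ^ 20 * l * (nu ^ 1000 * nu ^ 1000) := by rw [hD0]; ring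
          rw [h2, this, hp]
          field_simp
      _ ≤ nu ^ 501 / 16 := by
          have h2 : nu ^ 501 = nu ^ 500 * nu := by rw [← pow_succ]
          have h3 : (0 : ℝ) < nu ^ 500 := by positivity
          rw [h2]
          have h5 := mul_le_mul_of_nonneg_left hYl h3.le
          have h4 : 0 ≤ nu ^ 500 * nu := by positivity
          linarith only [h4, h5]
      _ ≤ p * X / 8 := by linarith
  set K := ⌈6 * nu⌉₊ with hK
  have hK1 : 6 * nu ≤ K := Nat.le_ceil _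
  have hK2 : (K : ℝ) ≤ 7 * nu := by
    have h1 : (K : ℝ) < 6 * nu + 1 := Nat.ceil_lt_add_one (by positivity)
    linarith
  have hKb : (X + 1) * (p ^ K * ((V.card : ℝ) ^ 2 * (B.choose K : ℝ))) ≤ p * X / 16 := by
    have h1 := choose_small hnu1 hp hBR hK1
    have h2 : X + 1 ≤ 2 * nu ^ 1001 := by
      have : (1 : ℝ) ≤ nu ^ 1001 := one_le_pow₀ hnu1
      linarith
    have h3 : (V.card : ℝ) ^ 2 ≤ nu ^ 2000 := by
      calc (V.card : ℝ) ^ 2 ≤ (nu ^ 1000) ^ 2 := pow_le_pow_left₀ hn0 hn2 2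
        _ = nu ^ 2000 := by rw [← pow_mul]
    calc (X + 1) * (p ^ K * ((V.card : ℝ) ^ 2 * (B.choose K : ℝ)))
        = (X + 1) * ((V.card : ℝ) ^ 2 * (p ^ K * (B.choose K : ℝ))) := by ring
      _ ≤ (2 * nu ^ 1001) * (nu ^ 2000 * Real.exp (-nu)) := by
          apply mul_le_mul h2 _ (by positivity) (by positivity)
          apply mul_le_mul h3 h1 (by positivity) (by positivity)
      _ = 2 * nu * (nu ^ 3000 * Real.exp (-nu)) := by
          have : nu ^ 3000 = nu ^ 1000 * nu ^ 2000 := by rw [← pow_add]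
          rw [this, e1001]; ring
      _ ≤ 2 * nu * (1 / 64) := by
          apply mul_le_mul_of_nonneg_left hc.c2 (by positivity)
      _ ≤ nu ^ 501 / 32 := by
          have : nu ^ 1 ≤ nu ^ 501 := pow_le_pow_right₀ hnu1 (by norm_num)
          rw [pow_one] at this
          linarith
      _ ≤ p * X / 16 := by linarith
  obtain ⟨W, hWs⟩ := sampleW (D2 := 2 ^ 20 * nu ^ 3) hBV hX hX0 hY0 (fun z hz => hwR z (hVP hz)) hVb
    (by positivity) (by positivity) hp0 hp1 h6 h8 hT hKb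
  have hWV := hWs.sub
  have hWbig : nu ^ 501 / 4 ≤ ∑ z ∈ W, (w z : ℝ) := by
    have := hWs.big
    linarith
  have hWle : (W.card : ℝ) ≤ nu ^ 1000 := by
    refine le_trans ?_ hn2
    exact_mod_cast card_le_card hWV
  have hDg : 8 * p ^ 2 * (8 * D0) = 2 ^ 26 * nu ^ 2 * l := by
    rw [hp, hD0]
    have : nu ^ 1000 = (nu ^ 499) ^ 2 * nu ^ 2 := by rw [← pow_mul, ← pow_add]
    rw [this]
    field_simp
    norm_num
  set Z : ℝ := l / 2 with hZ
  have hZ1 : 1 ≤ Z := by rw [hZ]; linarith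
  have hexpl : Real.exp l = nu := by rw [hl, Real.exp_log hnu0]
  have hexpZ : Real.exp Z * Real.exp Z = nu := by
    rw [← Real.exp_add, ← hexpl]; congr 1; rw [hZ]; ring
  have hexpZ' : Real.exp Z ≤ nu := by
    rw [← hexpl, Real.exp_le_exp, hZ]; linarith
  set om : ℝ := 1 / (16384 * nu) with hom
  have hom0 : 0 < om := by rw [hom]; positivity
  have homZ : om * Real.exp Z = Real.exp (-Z) / 16384 := by
    rw [hom, ← hexpZ, Real.exp_neg]
    have := (Real.exp_pos Z).ne'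
    field_simp
  have hPD : PData W om Z (1 / (256 * (Z + 1))) (256 * 2001 * l) (2 ^ 20 * nu ^ 3) := by
    refine ⟨hom0, by linarith, by positivity, ?_, ?_, ?_, by positivity, hWs.deg, ?_, hWs.notri, hWs.noquad⟩
    · have : Z + 1 ≠ 0 := by linarith
      rw [div_mul_eq_mul_div, one_mul, div_le_div_iff₀ (by positivity) (by norm_num)]
      linarith
    · rw [homZ, le_div_iff₀ (by positivity)]
      have h1 : (Z + 1) * Real.exp (-Z) ≤ 1 := by
        rw [Real.exp_neg, ← div_eq_mul_inv, div_le_one (Real.exp_pos _)]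
        exact Real.add_one_le_exp Z
      linarith only [h1]
    · rw [homZ, le_div_iff₀ (by positivity)]
      have h1 : Z ^ 2 * Real.exp (-Z) ≤ 1 / 300000 := hc.c4
      have h2 : l = 2 * Z := by rw [hZ]; ring
      rw [h2]
      have h3 : 0 < Real.exp (-Z) := Real.exp_pos _
      have h4 : Z * (Z + 1) * Real.exp (-Z) ≤ 2 * (Z ^ 2 * Real.exp (-Z)) := by
        have : Z * (Z + 1) ≤ 2 * Z ^ 2 := by nlinarith only [hZ1]
        have := mul_le_mul_of_nonneg_right this h3.le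
        linarith
      have e : 256 * 2001 * (2 * Z) * (Real.exp (-Z) / 16384) * (256 * (Z + 1))
          = 16008 * (Z * (Z + 1) * Real.exp (-Z)) := by
        ring
      rw [e]
      linarith
    · intro a ha b hb hab
      have haV := hWV ha
      have hbV := hWV hb
      have hne := hxV.ne haV hbV hab
      have h1 : W.filter (fun v => col a b v) = pl W (ln (a, b)) := by
        unfold pl
        apply filter_congr
        intro v _
        exact col_on hne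
      rw [h1]
      have h2 := hWs.line (ln (a, b)) (mem_lines.2 ⟨a, haV, b, hbV, hab, rfl⟩)
      have h3 : ((pl W (ln (a, b))).card : ℝ) ≤ 7 * nu := by
        refine le_trans ?_ hK2
        exact_mod_cast h2.le
      calc ((pl W (ln (a, b))).card : ℝ) * om ≤ 7 * nu * om := mul_le_mul_of_nonneg_right h3 hom0.le
        _ = 7 / 16384 := by rw [hom]; field_simp
        _ ≤ 1 / 256 := by norm_num
  have h499 : (0 : ℝ) < nu ^ 499 := by positivity
  have hnum : ((Y : ℝ) + 1) * (8 * Real.exp (om ^ 2 * (8 * p ^ 2 * (8 * D0)) - Z))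
      + ((Y : ℝ) + 1) * (64 / (om * nu ^ 499) + 64 * (2 ^ 20 * nu ^ 3) * Real.exp Z / nu ^ 499)
      + (W.card : ℝ) ^ 2 * Real.exp (-((256 * 2001 * l) / 256)) < 1 := by
    have t1 : ((Y : ℝ) + 1) * (8 * Real.exp (om ^ 2 * (8 * p ^ 2 * (8 * D0)) - Z)) ≤ 1 / 4 := by
      have e1 : om ^ 2 * (8 * p ^ 2 * (8 * D0)) - Z = -(l / 4) := by
        rw [hDg, hom, hZ]
        field_simp
        ring
      rw [e1]
      refine le_trans ?_ hd2
      exact mul_le_mul_of_nonneg_right hY1 (by positivity)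
    have t2 : ((Y : ℝ) + 1) * (64 / (om * nu ^ 499) + 64 * (2 ^ 20 * nu ^ 3) * Real.exp Z / nu ^ 499) ≤ 1 / 8 := by
      have e1 : 64 / (om * nu ^ 499) = 2 ^ 20 * nu / nu ^ 499 := by
        rw [hom]
        field_simp
        norm_num
      have h1 : nu ≤ nu ^ 4 := by
        calc nu = nu ^ 1 := (pow_one nu).symm
          _ ≤ nu ^ 4 := pow_le_pow_right₀ hnu1 (by norm_num)
      have h2 : 2 ^ 20 * nu / nu ^ 499 ≤ 2 ^ 26 * nu ^ 4 / nu ^ 499 := by
        apply div_le_div_of_nonneg_right _ h499.le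
        apply mul_le_mul (by norm_num) h1 hnu0.le (by norm_num)
      have h3 : 64 * (2 ^ 20 * nu ^ 3) * Real.exp Z / nu ^ 499 ≤ 2 ^ 26 * nu ^ 4 / nu ^ 499 := by
        apply div_le_div_of_nonneg_right _ h499.le
        calc 64 * (2 ^ 20 * nu ^ 3) * Real.exp Z ≤ 64 * (2 ^ 20 * nu ^ 3) * nu := by gcongr
          _ = 2 ^ 26 * nu ^ 4 := by ring
      rw [e1]
      calc ((Y : ℝ) + 1) * (2 ^ 20 * nu / nu ^ 499 + 64 * (2 ^ 20 * nu ^ 3) * Real.exp Z / nu ^ 499)
          ≤ nu * (2 ^ 26 * nu ^ 4 / nu ^ 499 + 2 ^ 26 * nu ^ 4 / nu ^ 499) := by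
            apply mul_le_mul hY3 (add_le_add h2 h3) _ hnu0.le
            have := Real.exp_pos Z
            positivity
        _ = 2 ^ 27 / nu ^ 494 := by
            have : nu ^ 499 = nu ^ 494 * nu ^ 4 * nu := by rw [← pow_add, ← pow_succ]
            rw [this]
            field_simp
            norm_num
        _ ≤ 1 / 8 := by
            rw [div_le_div_iff₀ (by positivity) (by norm_num)]
            have h4 : nu ^ 2 ≤ nu ^ 494 := pow_le_pow_right₀ hnu1 (by norm_num)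
            have h5 : (2 ^ 24 : ℝ) ^ 2 ≤ nu ^ 2 := pow_le_pow_left₀ (by norm_num) hnu24 2
            have h6' : (2 : ℝ) ^ 27 * 8 ≤ (2 ^ 24) ^ 2 := by norm_num
            linarith
    have t4 : (W.card : ℝ) ^ 2 * Real.exp (-((256 * 2001 * l) / 256)) ≤ 1 / 8 := by
      have e1 : -((256 * 2001 * l) / 256) = -(((2001 : ℕ) : ℝ) * l) := by push_cast; ring
      rw [e1, Real.exp_neg, Real.exp_nat_mul, hexpl]
      have h1 : (W.card : ℝ) ^ 2 ≤ nu ^ 2000 := by
        calc (W.card : ℝ) ^ 2 ≤ (nu ^ 1000) ^ 2 := pow_le_pow_left₀ (Nat.cast_nonneg _) hWle 2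
          _ = nu ^ 2000 := by rw [← pow_mul]
      rw [← div_eq_mul_inv, div_le_div_iff₀ (by positivity) (by norm_num)]
      have h2 : nu ^ 2001 = nu ^ 2000 * nu := by rw [← pow_succ]
      have h3 : (0 : ℝ) < nu ^ 2000 := by positivity
      rw [h2]
      have h4 : nu ^ 2000 * 8 ≤ nu ^ 2000 * nu := mul_le_mul_of_nonneg_left (by linarith only [hnu24, h24]) h3.le
      linarith only [h1, h4]
    linarith
  obtain ⟨S, hS1, hS2, hS3⟩ := apply_processW hPD (fun z hz => hw z (hVP (hWV hz))) hWs.bdeg h499 hnum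
  refine ⟨S, hS1.trans (hWV.trans hVP), hS2, ?_⟩
  refine le_trans ?_ hS3
  have e500 : nu ^ 500 = nu ^ 499 * nu := by rw [← pow_succ]
  have e501 : nu ^ 501 = nu ^ 500 * nu := by rw [← pow_succ]
  have h500 : (0 : ℝ) < nu ^ 500 := by positivity
  have h1 : ((Y : ℝ) + 1) * (Y * nu ^ 499) ≤ nu ^ 500 := by
    rw [e500, ← mul_assoc, mul_comm (nu ^ 499)]
    exact mul_le_mul_of_nonneg_right hYY h499.le
  have h2 : nu ^ 500 ≤ nu ^ 501 / 8 := by
    rw [e501]
    have h4 : nu ^ 500 * 8 ≤ nu ^ 500 * nu := mul_le_mul_of_nonneg_left (by linarith only [hnu24, h24]) h500.le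
    linarith only [h4]
  have h3 : nu ^ 500 / 2 ^ 18 = om / 2 * (nu ^ 501 / 8) := by
    rw [hom, e501]
    field_simp
    norm_num
  rw [h3]
  apply mul_le_mul_of_nonneg_left _ (by positivity)
  linarith

end Pool.Agent.H417Z.GC
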