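import Pool.Agent.H417Z.GC4

set_option autoImplicit false

/-! The weighted selection theorem, and colouring by halving. -/

namespace Pool.Agent.H417Z.GC

open Finset Pool.Agent.Helper64.Gow Pool.Agent.Helper64
open scoped Classical

/-- weighted selection -/
theorem weighted {P : Finset Pt} (hx : XI P) {B : ℕ} (hB : ∀ L ∈ lines P, (pl P L).card ≤ B) (hB1 : 1 ≤ B)
    {nu : ℝ} (hc2 : Cnd2 nu) (hBR : (B : ℝ) ≤ nu ^ 500) (hP : (P.card : ℝ) ≤ nu ^ 1000) (w : Pt → ℕ) :
    ∃ S ⊆ P, GP S ∧ 1 / (2 ^ 20 * nu ^ 500) * ∑ z ∈ P, (w z : ℝ) ≤ ∑ z ∈ S, (w z : ℝ) := by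
  have hc := hc2.c0
  have hnu24 := hc.c1
  have hnu1 : (1 : ℝ) ≤ nu := by linarith [show (1 : ℝ) ≤ 2 ^ 24 by norm_num]
  have hnu0 : (0 : ℝ) < nu := by linarith
  set l := Real.log nu with hl
  have hl2 : 2 ≤ l := hc.c5
  set Wt : ℝ := ∑ z ∈ P, (w z : ℝ) with hWt
  have hWt0 : 0 ≤ Wt := sum_nonneg (fun _ _ => Nat.cast_nonneg _)
  rcases hWt0.eq_or_lt with h0 | h0
  · refine ⟨∅, empty_subset _, ?_, ?_⟩
    · intro a ha; simp at ha
    · rw [← h0]; simp
  have hN0 : (0 : ℝ) < nu ^ 1000 := by positivity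
  have h500 : (0 : ℝ) < nu ^ 500 := by positivity
  have e1000 : nu ^ 1000 = (nu ^ 500) ^ 2 := by rw [← pow_mul]
  set g : ℝ := nu ^ 1000 / (501 * l) with hg
  have hg0 : 0 < g := by rw [hg]; positivity
  set H := P.filter (fun z => Wt ≤ (w z : ℝ) * g) with hH
  set V := P.filter (fun z => ¬ Wt ≤ (w z : ℝ) * g) with hV
  have hsplit : ∑ z ∈ H, (w z : ℝ) + ∑ z ∈ V, (w z : ℝ) = Wt := sum_filter_add_sum_filter_not _ _ _
  have hHP : H ⊆ P := filter_subset _ _
  have hVP : V ⊆ P := filter_subset _ _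
  have hV0 : 0 ≤ ∑ z ∈ V, (w z : ℝ) := sum_nonneg (fun _ _ => Nat.cast_nonneg _)
  by_cases hcase : Wt / 2 ≤ ∑ z ∈ H, (w z : ℝ)
  · have hHg : (H.card : ℝ) ≤ g := by
      have h1 : (H.card : ℝ) * Wt ≤ (∑ z ∈ H, (w z : ℝ)) * g := by
        rw [sum_mul, ← nsmul_eq_mul, ← sum_const]
        exact sum_le_sum (fun z hz => (mem_filter.1 hz).2)
      have h2 : (∑ z ∈ H, (w z : ℝ)) * g ≤ Wt * g := mul_le_mul_of_nonneg_right (by linarith) hg0.le
      have h3 : (H.card : ℝ) * Wt ≤ g * Wt := by linarith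
      exact le_of_mul_le_mul_right h3 h0
    have hTr := tr_big (XI_sub hx hHP) (lineb_sub hB hHP) hB1 hnu1 hBR hHg
    have hgl : g * (2 + 500 * l) ≤ nu ^ 1000 := by
      have h1 : g * (501 * l) = nu ^ 1000 := by
        rw [hg]
        field_simp
      rw [← h1]
      apply mul_le_mul_of_nonneg_left _ hg0.le
      linarith
    obtain ⟨S, hS1, hS2, hS3⟩ := small_case w (p := 1 / (128 * nu ^ 500)) hTr (by positivity) (by
      rw [div_le_one (by positivity)]
      have : (1 : ℝ) ≤ nu ^ 500 := one_le_pow₀ hnu1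
      linarith) (by
      rw [← hl]
      calc (1 / (128 * nu ^ 500)) ^ 2 * (1728 * (g * (2 + 500 * l) + nu ^ 1000))
          ≤ (1 / (128 * nu ^ 500)) ^ 2 * (1728 * (nu ^ 1000 + nu ^ 1000)) := by gcongr
        _ = 3456 / 16384 := by
          rw [e1000]
          field_simp
          norm_num
        _ ≤ 1 / 4 := by norm_num)
    refine ⟨S, hS1.trans hHP, hS2, le_trans ?_ hS3⟩
    calc 1 / (2 ^ 20 * nu ^ 500) * Wt ≤ 1 / (512 * nu ^ 500) * Wt := by
          apply mul_le_mul_of_nonneg_right _ h0.le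
          apply one_div_le_one_div_of_le (by positivity)
          apply mul_le_mul_of_nonneg_right (by norm_num) h500.le
      _ = 1 / (128 * nu ^ 500) / 2 * (Wt / 2) := by
          field_simp
          norm_num
      _ ≤ _ := mul_le_mul_of_nonneg_left hcase (by positivity)
  · push Not at hcase
    set u : ℝ := 4 * nu ^ 1000 / Wt with hu
    have hu0 : 0 < u := by rw [hu]; positivity
    set w' : Pt → ℕ := fun z => ⌊(w z : ℝ) * u⌋₊ with hw'
    have hle : ∀ z, (w' z : ℝ) ≤ w z * u := fun z => Nat.floor_le (by positivity)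
    have hge : ∀ z, (w z : ℝ) * u - 1 ≤ w' z := fun z => by
      have := Nat.lt_floor_add_one ((w z : ℝ) * u)
      simp only [hw']
      linarith
    have hVc : (V.card : ℝ) ≤ nu ^ 1000 := by
      refine le_trans ?_ hP
      exact_mod_cast card_le_card hVP
    obtain ⟨S, hS1, hS2, hS3⟩ := big_caseW (XI_sub hx hVP) (lineb_sub hB hVP) hB1 hc2 hBR hVc (w := w')
      (Y := ⌊2004 * l⌋₊) (by
        intro z hz
        apply Nat.floor_le_floor
        have h1 := (mem_filter.1 hz).2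
        push Not at h1
        have h2 : (w z : ℝ) * u * g ≤ 2004 * l * g := by
          have e1 : 2004 * l * g = Wt * u := by
            rw [hg, hu]
            field_simp
            norm_num
          rw [e1]
          have := mul_le_mul_of_nonneg_right h1.le hu0.le
          linarith
        exact le_of_mul_le_mul_right h2 hg0) (Nat.floor_le (by positivity)) (by
        have h1 : ∑ z ∈ V, ((w z : ℝ) * u - 1) ≤ ∑ z ∈ V, (w' z : ℝ) := sum_le_sum (fun z _ => hge z)
        rw [sum_sub_distrib, ← sum_mul, sum_const, nsmul_eq_mul, mul_one] at h1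
        have h2 : Wt / 2 * u ≤ (∑ z ∈ V, (w z : ℝ)) * u := mul_le_mul_of_nonneg_right (by linarith) hu0.le
        have h3 : Wt / 2 * u = 2 * nu ^ 1000 := by
          rw [hu]
          field_simp
          norm_num
        linarith)
    refine ⟨S, hS1.trans hVP, hS2, ?_⟩
    have h1 : ∑ z ∈ S, (w' z : ℝ) ≤ (∑ z ∈ S, (w z : ℝ)) * u := by
      rw [sum_mul]
      exact sum_le_sum (fun z _ => hle z)
    have h2 : 1 / (2 ^ 20 * nu ^ 500) * Wt * u = nu ^ 500 / 2 ^ 18 := by
      rw [hu, e1000]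
      field_simp
      norm_num
    have h3 : 1 / (2 ^ 20 * nu ^ 500) * Wt * u ≤ (∑ z ∈ S, (w z : ℝ)) * u := by linarith
    exact le_of_mul_le_mul_right h3 hu0

/-- colourings with classes in general position -/
def Col (X : Finset Pt) (k : ℕ) : Prop :=
  ∃ c : Pt → ℕ, (∀ p ∈ X, c p < k) ∧
    ∀ a ∈ X, ∀ b ∈ X, ∀ d ∈ X, a ≠ b → a ≠ d → b ≠ d → c a = c b → c a = c d → ¬ col a b d

lemma Col.mono {X X' : Finset Pt} {k k' : ℕ} (h : Col X k) (hX : X' ⊆ X) (hk : k ≤ k') : Col X' k' := by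
  obtain ⟨c, h1, h2⟩ := h
  exact ⟨c, fun p hp => (h1 p (hX hp)).trans_le hk,
    fun a ha b hb d hd => h2 a (hX ha) b (hX hb) d (hX hd)⟩

lemma Col.union {X X' : Finset Pt} {k k' : ℕ} (h : Col X k) (h' : Col X' k') : Col (X ∪ X') (k + k') := by
  obtain ⟨c, h1, h2⟩ := h
  obtain ⟨c', h1', h2'⟩ := h'
  have hm : ∀ p ∈ X ∪ X', p ∉ X → p ∈ X' := fun p hp hn => (mem_union.1 hp).resolve_left hn
  refine ⟨fun p => if p ∈ X then c p else k + c' p, ?_, ?_⟩
  · intro p hp
    by_cases hpX : p ∈ X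
    · simp only [hpX, if_true]
      have := h1 p hpX
      omega
    · simp only [hpX, if_false]
      have := h1' p (hm p hp hpX)
      omega
  · intro a ha b hb d hd hab had hbd e1 e2
    by_cases haX : a ∈ X
    · have hca := h1 a haX
      by_cases hbX : b ∈ X
      · by_cases hdX : d ∈ X
        · simp only [haX, hbX, hdX, if_true] at e1 e2
          exact h2 a haX b hbX d hdX hab had hbd e1 e2
        · simp only [haX, hdX, if_true, if_false] at e2
          omega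
      · simp only [haX, hbX, if_true, if_false] at e1
        omega
    · by_cases hbX : b ∈ X
      · have := h1 b hbX
        simp only [haX, hbX, if_true, if_false] at e1
        omega
      · by_cases hdX : d ∈ X
        · have := h1 d hdX
          simp only [haX, hdX, if_true, if_false] at e2
          omega
        · simp only [haX, hbX, hdX, if_false] at e1 e2
          exact h2' a (hm a ha haX) b (hm b hb hbX) d (hm d hd hdX) hab had hbd (by omega) (by omega)

lemma Col_gp {S : Finset Pt} (h : GP S) : Col S 1 :=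
  ⟨fun _ => 0, fun _ _ => Nat.one_pos, fun a ha b hb d hd hab had hbd _ _ => h a ha b hb d hd hab had hbd⟩

lemma Col_card (X : Finset Pt) : Col X X.card := by
  induction X using Finset.induction_on with
  | empty => exact ⟨fun _ => 0, by simp, by simp⟩
  | insert a X ha ih =>
    rw [card_insert_of_notMem ha, insert_eq, add_comm]
    apply Col.union _ ih
    apply Col_gp
    intro x hx y hy z _ hxy
    rw [mem_singleton] at hx hy
    exact absurd (hx.trans hy.symm) hxy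

/-- one colour class destroys a fixed proportion of a family of collinear sets -/
lemma step {U : Finset Pt} {ga : ℝ} (F : Finset (Finset Pt)) {q : ℕ} (hq : ∀ T ∈ F, T.card = q)
    (hcol : ∀ T ∈ F, ∀ a ∈ T, ∀ b ∈ T, ∀ c ∈ T, col a b c)
    (hW : ∀ w : Pt → ℕ, ∃ S ⊆ U, GP S ∧ ga * ∑ z ∈ U, (w z : ℝ) ≤ ∑ z ∈ S, (w z : ℝ)) :
    ∃ S ⊆ U, GP S ∧ ((F.filter (fun T => T ⊆ U \ S)).card : ℝ)
      ≤ Real.exp (-(ga * q / 2)) * (F.filter (fun T => T ⊆ U)).card := by
  set G := F.filter (fun T => T ⊆ U) with hG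
  have dbl : ∀ A : Finset Pt, ∑ z ∈ A, (((G.filter (fun T => z ∈ T)).card : ℕ) : ℝ)
      = ∑ T ∈ G, ((A.filter (fun z => z ∈ T)).card : ℝ) := by
    intro A
    simp only [card_filter]
    push_cast
    rw [sum_comm]
  obtain ⟨S, hS1, hS2, hS3⟩ := hW (fun z => (G.filter (fun T => z ∈ T)).card)
  refine ⟨S, hS1, hS2, ?_⟩
  rw [dbl, dbl] at hS3
  have e1 : ∑ T ∈ G, ((U.filter (fun z => z ∈ T)).card : ℝ) = G.card * q := by
    rw [← nsmul_eq_mul, ← sum_const]
    apply sum_congr rfl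
    intro T hT
    rw [hG, mem_filter] at hT
    have : U.filter (fun z => z ∈ T) = T := by
      ext z
      rw [mem_filter]
      exact ⟨fun h => h.2, fun h => ⟨hT.2 h, h⟩⟩
    rw [this, hq T hT.1]
  have e2 : ∑ T ∈ G, ((S.filter (fun z => z ∈ T)).card : ℝ)
      ≤ ∑ T ∈ G, (if T ⊆ U \ S then (0 : ℝ) else 2) := by
    apply sum_le_sum
    intro T hT
    rw [hG, mem_filter] at hT
    split_ifs with h
    · have : S.filter (fun z => z ∈ T) = ∅ := by
        rw [eq_empty_iff_forall_notMem]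
        intro z hz
        rw [mem_filter] at hz
        exact (mem_sdiff.1 (h hz.2)).2 hz.1
      rw [this]
      simp
    · have : (S.filter (fun z => z ∈ T)).card ≤ 2 := by
        by_contra hcon
        push Not at hcon
        obtain ⟨a, ha, b, hb, c, hc, hab, hac, hbc⟩ := two_lt_card.1 hcon
        rw [mem_filter] at ha hb hc
        exact hS2 a ha.1 b hb.1 c hc.1 hab hac hbc (hcol T hT.1 a ha.2 b hb.2 c hc.2)
      exact_mod_cast this
  have e3 : ∑ T ∈ G, (if T ⊆ U \ S then (0 : ℝ) else 2)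
      = 2 * G.card - 2 * (G.filter (fun T => T ⊆ U \ S)).card := by
    rw [card_filter (fun T => T ⊆ U \ S) G]
    push_cast
    rw [mul_sum, mul_comm (2 : ℝ) (G.card : ℝ), ← nsmul_eq_mul, ← sum_const, ← sum_sub_distrib]
    apply sum_congr rfl
    intro T _
    split_ifs <;> norm_num
  have e4 : F.filter (fun T => T ⊆ U \ S) = G.filter (fun T => T ⊆ U \ S) := by
    ext T
    rw [hG, mem_filter, mem_filter, mem_filter]
    exact ⟨fun h => ⟨⟨h.1, h.2.trans sdiff_subset⟩, h.2⟩, fun h => ⟨h.1.1, h.2⟩⟩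
  rw [e4]
  have e5 := Real.add_one_le_exp (-(ga * q / 2))
  have e6 : (0 : ℝ) ≤ G.card := Nat.cast_nonneg _
  have e7 := mul_le_mul_of_nonneg_right e5 e6
  rw [e1] at hS3
  nlinarith

lemma steps {P : Finset Pt} {ga : ℝ} (F : Finset (Finset Pt)) {q : ℕ} (hq : ∀ T ∈ F, T.card = q)
    (hcol : ∀ T ∈ F, ∀ a ∈ T, ∀ b ∈ T, ∀ c ∈ T, col a b c)
    (hW : ∀ U ⊆ P, ∀ w : Pt → ℕ, ∃ S ⊆ U, GP S ∧ ga * ∑ z ∈ U, (w z : ℝ) ≤ ∑ z ∈ S, (w z : ℝ))
    {U : Finset Pt} (hU : U ⊆ P) (t : ℕ) :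
    ∃ Q ⊆ U, Col (U \ Q) t ∧ ((F.filter (fun T => T ⊆ Q)).card : ℝ)
      ≤ Real.exp (-(ga * q / 2 * t)) * F.card := by
  induction t with
  | zero =>
    refine ⟨U, subset_rfl, ⟨fun _ => 0, by simp, by simp⟩, ?_⟩
    simp only [Nat.cast_zero, mul_zero, neg_zero, Real.exp_zero, one_mul]
    exact_mod_cast card_filter_le _ _
  | succ t ih =>
    obtain ⟨Q, hQ1, hQ2, hQ3⟩ := ih
    obtain ⟨S, hS1, hS2, hS3⟩ := step F hq hcol (hW Q (hQ1.trans hU))
    refine ⟨Q \ S, sdiff_subset.trans hQ1, ?_, ?_⟩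
    · refine (hQ2.union (Col_gp hS2)).mono ?_ le_rfl
      intro z hz
      rw [mem_sdiff, mem_sdiff, not_and, not_not] at hz
      rw [mem_union, mem_sdiff]
      by_cases h : z ∈ Q
      · exact Or.inr (hz.2 h)
      · exact Or.inl ⟨hz.1, h⟩
    · refine hS3.trans ?_
      have := mul_le_mul_of_nonneg_left hQ3 (Real.exp_pos (-(ga * q / 2))).le
      refine this.trans (le_of_eq ?_)
      rw [← mul_assoc, ← Real.exp_add]
      push_cast
      congr 2
      ring

lemma col_of_on {L a b c : Pt} (ha : on L a) (hb : on L b) (hc : on L c) : col a b c := by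
  unfold on at ha hb hc
  unfold col
  rw [ha, hb, hc]
  ring

/-- halving -/
lemma halve {P : Finset Pt} {s : ℕ} (hs : 200 ≤ s) (hB : ∀ L ∈ lines P, (pl P L).card ≤ s) (hP : P.card ≤ s ^ 2)
    (hW : ∀ U ⊆ P, ∀ w : Pt → ℕ, ∃ S ⊆ U, GP S ∧
      1 / (2 ^ 20 * (s : ℝ)) * ∑ z ∈ U, (w z : ℝ) ≤ ∑ z ∈ S, (w z : ℝ)) :
    ∃ Q ⊆ P, Col (P \ Q) (2 ^ 24 * s) ∧ Q.card ≤ (s / 2) ^ 2 ∧ ∀ L ∈ lines Q, (pl Q L).card ≤ s / 2 := by
  have hsR : (200 : ℝ) ≤ s := by exact_mod_cast hs
  have hs0 : (0 : ℝ) < s := by linarith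
  have hPR : (P.card : ℝ) ≤ (s : ℝ) ^ 2 := by exact_mod_cast hP
  obtain ⟨Q1, hQ1, hc1, hn1⟩ := steps (P.image (fun z => ({z} : Finset Pt))) (q := 1) (by
      intro T hT
      obtain ⟨z, _, rfl⟩ := mem_image.1 hT
      exact card_singleton z) (by
      intro T hT a ha b hb c _
      obtain ⟨z, _, rfl⟩ := mem_image.1 hT
      rw [mem_singleton] at ha hb
      rw [ha, hb]
      exact col_self3 _ _) hW subset_rfl (2 ^ 23 * s)
  obtain ⟨Q, hQ, hc2, hn2⟩ := steps (LK P (s / 2 + 1)) (q := s / 2 + 1) (fun T hT => (mem_LK hT).2) (by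
      intro T hT a ha b hb c hc
      unfold LK at hT
      obtain ⟨L, _, hT2⟩ := mem_biUnion.1 hT
      have h1 := (mem_powersetCard.1 hT2).1
      exact col_of_on (mem_filter.1 (h1 ha)).2 (mem_filter.1 (h1 hb)).2 (mem_filter.1 (h1 hc)).2)
    hW hQ1 (2 ^ 23 * s)
  refine ⟨Q, hQ.trans hQ1, ?_, ?_, ?_⟩
  · refine (hc1.union hc2).mono ?_ (by omega)
    intro z hz
    rw [mem_sdiff] at hz
    rw [mem_union, mem_sdiff, mem_sdiff]
    by_cases h : z ∈ Q1
    · exact Or.inr ⟨h, hz.2⟩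
    · exact Or.inl ⟨hz.1, h⟩
  · have h1 : Q1.card ≤ ((P.image (fun z => ({z} : Finset Pt))).filter (fun T => T ⊆ Q1)).card := by
      apply card_le_card_of_injOn (fun z => ({z} : Finset Pt))
      · intro z hz
        rw [mem_coe, mem_filter, singleton_subset_iff]
        exact ⟨mem_image_of_mem _ (hQ1 hz), hz⟩
      · intro a _ b _ e
        exact singleton_injective e
    have h2 : ((P.image (fun z => ({z} : Finset Pt))).card : ℝ) ≤ (s : ℝ) ^ 2 := by
      refine le_trans ?_ hPR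
      exact_mod_cast card_image_le
    have e1 : -(1 / (2 ^ 20 * (s : ℝ)) * ((1 : ℕ) : ℝ) / 2 * ((2 ^ 23 * s : ℕ) : ℝ)) = -4 := by
      push_cast
      field_simp
      norm_num
    rw [e1] at hn1
    have h3 : Real.exp (-4) ≤ 1 / 9 := by
      rw [Real.exp_neg, one_div]
      apply inv_anti₀ (by norm_num)
      have := Real.quadratic_le_exp_of_nonneg (show (0 : ℝ) ≤ 4 by norm_num)
      linarith
    have h4 : (Q1.card : ℝ) ≤ 1 / 9 * (s : ℝ) ^ 2 := by
      have h5 : (Q1.card : ℝ) ≤ ((P.image (fun z => ({z} : Finset Pt))).filter (fun T => T ⊆ Q1)).card := by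
        exact_mod_cast h1
      refine h5.trans (hn1.trans ?_)
      exact mul_le_mul h3 h2 (Nat.cast_nonneg _) (by norm_num)
    have h6 : 9 * Q1.card ≤ s ^ 2 := by
      have : 9 * (Q1.card : ℝ) ≤ (s : ℝ) ^ 2 := by linarith
      exact_mod_cast this
    have h7 : s ^ 2 ≤ (3 * (s / 2)) ^ 2 := Nat.pow_le_pow_left (by omega) 2
    have h8 := card_le_card hQ
    rw [mul_pow] at h7
    omega
  · have h1 : ((LK P (s / 2 + 1)).card : ℝ) ≤ (s : ℝ) ^ 4 * 2 ^ s := by
      have h2 : (LK P (s / 2 + 1)).card ≤ (s ^ 2) ^ 2 * 2 ^ s :=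
        (LK_card hB).trans (Nat.mul_le_mul (Nat.pow_le_pow_left hP 2) (Nat.choose_le_two_pow _ _))
      rw [← pow_mul] at h2
      exact_mod_cast h2
    have h2 : (s : ℝ) ≤ 2 * ((s / 2 + 1 : ℕ) : ℝ) := by
      have : s ≤ 2 * (s / 2 + 1) := by omega
      exact_mod_cast this
    have h3 : Real.exp (-(1 / (2 ^ 20 * (s : ℝ)) * ((s / 2 + 1 : ℕ) : ℝ) / 2 * ((2 ^ 23 * s : ℕ) : ℝ)))
        ≤ Real.exp (-(s : ℝ)) * Real.exp (-(s : ℝ)) := by
      rw [← Real.exp_add, Real.exp_le_exp]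
      have e1 : 1 / (2 ^ 20 * (s : ℝ)) * ((s / 2 + 1 : ℕ) : ℝ) / 2 * ((2 ^ 23 * s : ℕ) : ℝ)
          = 4 * ((s / 2 + 1 : ℕ) : ℝ) := by
        rw [Nat.cast_mul, Nat.cast_pow, Nat.cast_ofNat]
        field_simp
        norm_num
      rw [e1]
      linarith
    have h4 : Real.exp (-(s : ℝ)) * 2 ^ s ≤ 1 := by
      rw [Real.exp_neg, inv_mul_le_iff₀ (Real.exp_pos _), mul_one, ← Real.exp_one_pow]
      apply pow_le_pow_left₀ (by norm_num)
      have := Real.add_one_le_exp (1 : ℝ)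
      linarith
    have h5 : Real.exp (-(s : ℝ)) * (s : ℝ) ^ 4 < 1 := by
      rw [Real.exp_neg, inv_mul_lt_iff₀ (Real.exp_pos _), mul_one]
      have h6 := Real.pow_div_factorial_le_exp (s : ℝ) hs0.le 5
      have h7 : ((Nat.factorial 5 : ℕ) : ℝ) = 120 := by norm_num [Nat.factorial]
      rw [h7] at h6
      have h8 : (0 : ℝ) < (s : ℝ) ^ 4 := by positivity
      have h9 : (s : ℝ) ^ 5 = (s : ℝ) ^ 4 * s := by ring
      nlinarith
    have h6 : (((LK P (s / 2 + 1)).filter (fun T => T ⊆ Q)).card : ℝ) < 1 := by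
      refine lt_of_le_of_lt hn2 ?_
      calc _ ≤ (Real.exp (-(s : ℝ)) * Real.exp (-(s : ℝ))) * ((s : ℝ) ^ 4 * 2 ^ s) :=
            mul_le_mul h3 h1 (Nat.cast_nonneg _) (by positivity)
        _ = (Real.exp (-(s : ℝ)) * (s : ℝ) ^ 4) * (Real.exp (-(s : ℝ)) * 2 ^ s) := by ring
        _ ≤ (Real.exp (-(s : ℝ)) * (s : ℝ) ^ 4) * 1 := mul_le_mul_of_nonneg_left h4 (by positivity)
        _ < 1 := by rw [mul_one]; exact h5
    have h7 : ((LK P (s / 2 + 1)).filter (fun T => T ⊆ Q)).card = 0 := by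
      have : ((LK P (s / 2 + 1)).filter (fun T => T ⊆ Q)).card < 1 := by exact_mod_cast h6
      omega
    rw [card_eq_zero, eq_empty_iff_forall_notMem] at h7
    intro L hL
    by_contra hcon
    push Not at hcon
    obtain ⟨T, hT1, hT2⟩ := exists_subset_card_eq (show s / 2 + 1 ≤ (pl Q L).card from hcon)
    apply h7 T
    rw [mem_filter]
    refine ⟨?_, hT1.trans (filter_subset _ _)⟩
    unfold LK
    rw [mem_biUnion]
    exact ⟨L, lines_sub (hQ.trans hQ1) hL,
      mem_powersetCard.2 ⟨hT1.trans (filter_subset_filter _ (hQ.trans hQ1)), hT2⟩⟩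

theorem colour_coord : ∃ C : ℕ, ∀ s : ℕ, ∀ P : Finset Pt, XI P → (∀ L ∈ lines P, (pl P L).card ≤ s) →
    P.card ≤ s ^ 2 → Col P (C * s) := by
  obtain ⟨nu0, hnu0⟩ := Filter.eventually_atTop.1 cnd2_eventually
  set m := max nu0 1 with hm
  obtain ⟨s0, hs0⟩ := exists_nat_ge (m ^ 500)
  refine ⟨2 ^ 25 + 200 + s0, ?_⟩
  intro s
  induction s using Nat.strong_induction_on with
  | _ s ih =>
    intro P hx hB hP
    by_cases hsm : s < 200 + s0
    · refine (Col_card P).mono subset_rfl (hP.trans ?_)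
      rw [sq]
      exact Nat.mul_le_mul_right _ (by omega)
    · push Not at hsm
      set nu : ℝ := (s : ℝ) ^ ((1 : ℝ) / 500) with hnu
      have hm1 : (1 : ℝ) ≤ m := le_max_right _ _
      have hpow : nu ^ 500 = (s : ℝ) := by
        rw [hnu, ← Real.rpow_natCast, ← Real.rpow_mul (Nat.cast_nonneg _)]
        norm_num
      have hnu_ge : nu0 ≤ nu := by
        have h0 : (s0 : ℝ) ≤ s := by exact_mod_cast (show s0 ≤ s by omega)
        have h1 : m ^ 500 ≤ nu ^ 500 := by rw [hpow]; exact hs0.trans h0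
        have h2 : m ≤ nu := le_of_pow_le_pow_left₀ (by norm_num) (by positivity) h1
        exact (le_max_left _ _).trans h2
      have hc := hnu0 nu hnu_ge
      have hpow2 : nu ^ 1000 = (s : ℝ) ^ 2 := by
        rw [← hpow, ← pow_mul]
      obtain ⟨Q, hQ, hc1, hn, hl⟩ := halve (by omega) hB hP (by
        intro U hU w
        have := weighted (XI_sub hx hU) (lineb_sub hB hU) (by omega) hc (by rw [hpow]) (by
          rw [hpow2]
          exact_mod_cast (card_le_card hU).trans hP) w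
        rwa [hpow] at this)
      have hc2 := ih (s / 2) (by omega) Q (XI_sub hx hQ) hl hn
      refine (hc1.union hc2).mono ?_ ?_
      · intro z hz
        rw [mem_union, mem_sdiff]
        by_cases h : z ∈ Q
        · exact Or.inr h
        · exact Or.inl ⟨hz, h⟩
      · have h1 : 2 * (s / 2) ≤ s := Nat.mul_div_le s 2
        have h2 : (2 ^ 25 + 200 + s0) * (2 * (s / 2)) ≤ (2 ^ 25 + 200 + s0) * s := Nat.mul_le_mul_left _ h1
        have h3 : 2 ^ 25 * s ≤ (2 ^ 25 + 200 + s0) * s := Nat.mul_le_mul_right _ (by omega)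
        have h4 : (2 ^ 25 + 200 + s0) * (2 * (s / 2)) = 2 * ((2 ^ 25 + 200 + s0) * (s / 2)) := by ring
        have h5 : 2 ^ 25 * s = 2 * (2 ^ 24 * s) := by ring
        omega

end Pool.Agent.H417Z.GC
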