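import Mathlib

set_option autoImplicit false

/-!
Iterated integrals with respect to a countably additive probability on all subsets of `X`, and
realisation of countably many almost sure cylinder properties along a well order.
-/

namespace Pool.Agent.H417Z

open scoped ENNReal

/-- an integral defined on all `[0,∞]`-valued functions on `X` -/
structure Mean (X : Type) where
  E : (X → ℝ≥0∞) → ℝ≥0∞
  mono : ∀ f g : X → ℝ≥0∞, (∀ x, f x ≤ g x) → E f ≤ E g
  const : ∀ a : ℝ≥0∞, E (fun _ => a) = a
  add : ∀ f g : X → ℝ≥0∞, E (fun x => f x + g x) = E f + E g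
  tsum : ∀ (K : Type) [Countable K] (f : K → X → ℝ≥0∞),
    E (fun x => ∑' k, f k x) = ∑' k, E (f k)
  exle : ∀ f : X → ℝ≥0∞, ∃ x, f x ≤ E f
  atom : ∀ (a : X) (f : X → ℝ≥0∞), (∀ x, x ≠ a → f x = 0) → E f = 0

variable {X : Type}

namespace Mean

variable (μ : Mean X)

lemma sum {ι : Type} (s : Finset ι) (f : ι → X → ℝ≥0∞) :
    μ.E (fun x => ∑ i ∈ s, f i x) = ∑ i ∈ s, μ.E (f i) := by
  classical
  induction s using Finset.induction_on with
  | empty => simpa using μ.const 0
  | insert a s ha ih =>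
    simp only [Finset.sum_insert ha]
    rw [μ.add, ih]

/-- iterated integral over lists of length `n` -/
noncomputable def J : ℕ → (List X → ℝ≥0∞) → ℝ≥0∞
  | 0, G => G []
  | n + 1, G => μ.E (fun x => J n (fun l => G (x :: l)))

lemma J_mono : ∀ (n : ℕ) (G G' : List X → ℝ≥0∞), (∀ l, l.length = n → G l ≤ G' l) →
    μ.J n G ≤ μ.J n G'
  | 0, G, G', h => h [] rfl
  | n + 1, G, G', h => μ.mono _ _ fun x => J_mono n _ _ fun l hl => h _ (by simp [hl])

lemma J_congr (n : ℕ) (G G' : List X → ℝ≥0∞) (h : ∀ l, l.length = n → G l = G' l) :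
    μ.J n G = μ.J n G' :=
  le_antisymm (μ.J_mono n _ _ fun l hl => (h l hl).le) (μ.J_mono n _ _ fun l hl => (h l hl).ge)

lemma J_const : ∀ (n : ℕ) (a : ℝ≥0∞), μ.J n (fun _ => a) = a
  | 0, a => rfl
  | n + 1, a => by
    simp only [J]
    rw [J_const n a, μ.const]

lemma J_add : ∀ (n : ℕ) (G G' : List X → ℝ≥0∞),
    μ.J n (fun l => G l + G' l) = μ.J n G + μ.J n G'
  | 0, G, G' => rfl
  | n + 1, G, G' => by
    simp only [J]
    rw [← μ.add]
    congr 1
    funext x
    exact J_add n _ _

lemma J_sum (n : ℕ) {ι : Type} (s : Finset ι) (G : ι → List X → ℝ≥0∞) :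
    μ.J n (fun l => ∑ i ∈ s, G i l) = ∑ i ∈ s, μ.J n (G i) := by
  classical
  induction s using Finset.induction_on with
  | empty => simpa using μ.J_const n 0
  | insert a s ha ih =>
    simp only [Finset.sum_insert ha]
    rw [μ.J_add, ih]

lemma J_append : ∀ (a m : ℕ) (G : List X → ℝ≥0∞),
    μ.J (m + a) G = μ.J a (fun lo => μ.J m (fun l => G (lo ++ l)))
  | 0, m, G => by simp [J]
  | a + 1, m, G => by
    rw [← Nat.add_assoc]
    simp only [J]
    congr 1
    funext x
    rw [J_append a m]
    simp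

variable {I : Type}

open Classical in
/-- integrate out the coordinates that are not fixed -/
noncomputable def V (fixed : I → Prop) (w : I → X) : List I → (List X → ℝ≥0∞) → ℝ≥0∞
  | [], G => G []
  | a :: L, G => if fixed a then V fixed w L (fun l => G (w a :: l)) else μ.J (L.length + 1) G

lemma V_congr (f f' : I → Prop) (w w' : I → X) : ∀ (L : List I) (G : List X → ℝ≥0∞),
    (∀ a ∈ L, f a ↔ f' a) → (∀ a ∈ L, f a → w a = w' a) → μ.V f w L G = μ.V f' w' L G
  | [], G, _, _ => rfl
  | a :: L, G, h1, h2 => by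
    simp only [V]
    by_cases ha : f a
    · have ha' : f' a := (h1 a (by simp)).1 ha
      rw [if_pos ha, if_pos ha', h2 a (by simp) ha]
      exact V_congr f f' w w' L _ (fun b hb => h1 b (by simp [hb]))
        (fun b hb => h2 b (by simp [hb]))
    · have ha' : ¬ f' a := fun h => ha ((h1 a (by simp)).2 h)
      rw [if_neg ha, if_neg ha']

lemma V_all (f : I → Prop) (w : I → X) : ∀ (L : List I) (G : List X → ℝ≥0∞),
    (∀ a ∈ L, f a) → μ.V f w L G = G (L.map w)
  | [], G, _ => rfl
  | a :: L, G, h => by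
    simp only [V]
    rw [if_pos (h a (by simp)), V_all f w L _ (fun b hb => h b (by simp [hb]))]
    simp

lemma V_none (f : I → Prop) (w : I → X) : ∀ (L : List I) (G : List X → ℝ≥0∞),
    (∀ a ∈ L, ¬ f a) → μ.V f w L G = μ.J L.length G
  | [], G, _ => rfl
  | a :: L, G, h => by
    simp only [V]
    rw [if_neg (h a (by simp))]
    rfl

lemma V_step [LinearOrder I] (i : I) (w : I → X) : ∀ (L : List I) (G : List X → ℝ≥0∞),
    L.Pairwise (· < ·) →
    μ.V (· < i) w L G = μ.E (fun x => μ.V (· ≤ i) (Function.update w i x) L G)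
  | [], G, _ => by simp only [V]; rw [μ.const]
  | a :: L, G, h => by
    rw [List.pairwise_cons] at h
    simp only [V]
    rcases lt_trichotomy a i with hlt | heq | hgt
    · rw [if_pos hlt, V_step i w L _ h.2]
      congr 1
      funext x
      rw [if_pos hlt.le, Function.update_of_ne hlt.ne]
    · subst heq
      rw [if_neg (lt_irrefl _)]
      simp only [J]
      congr 1
      funext x
      rw [if_pos le_rfl, Function.update_self, V_none]
      intro b hb
      exact not_le.2 (h.1 b hb)
    · rw [if_neg (not_lt.2 hgt.le)]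
      refine Eq.trans (μ.const _).symm ?_
      congr 1
      funext x
      rw [if_neg (not_le.2 hgt)]

end Mean

lemma exists_wf_seq {I : Type} [LinearOrder I] [WellFoundedLT I] [Nonempty X]
    (P : I → (I → X) → X → Prop) (hex : ∀ i u, ∃ x, P i u x)
    (hdep : ∀ i u u' x, (∀ j, j < i → u j = u' j) → P i u x → P i u' x) :
    ∃ w : I → X, ∀ i, P i w (w i) := by
  classical
  let ext : (i : I) → (∀ j, j < i → X) → I → X :=
    fun i prev j => if h : j < i then prev j h else Classical.arbitrary X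
  let F : (i : I) → (∀ j, j < i → X) → X := fun i prev => Classical.choose (hex i (ext i prev))
  let w : I → X := WellFounded.fix (wellFounded_lt (α := I)) F
  have hw : ∀ i, w i = F i (fun j _ => w j) := fun i => WellFounded.fix_eq _ F i
  refine ⟨w, fun i => ?_⟩
  have h1 : P i (ext i (fun j _ => w j)) (F i (fun j _ => w j)) := Classical.choose_spec (hex i _)
  rw [← hw i] at h1
  refine hdep i _ _ _ ?_ h1
  intro j hj
  simp [ext, hj]

namespace Mean

variable (μ : Mean X) {I : Type}

theorem realize [LinearOrder I] [WellFoundedLT I] {K : Type} [Countable K]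
    (L : K → List I) (G : K → List X → ℝ≥0∞) (hL : ∀ k, (L k).Pairwise (· < ·)) :
    ∃ w : I → X, ∑' k, G k ((L k).map w) ≤ ∑' k, μ.J (L k).length (G k) := by
  classical
  have : Nonempty X := by
    obtain ⟨x, _⟩ := μ.exle (fun _ => 0)
    exact ⟨x⟩
  obtain ⟨w, hw⟩ := exists_wf_seq (X := X) (I := I)
    (fun i u x => ∑' k, μ.V (· ≤ i) (Function.update u i x) (L k) (G k)
      ≤ ∑' k, μ.V (· < i) u (L k) (G k)) (by
      intro i u
      obtain ⟨x, hx⟩ := μ.exle (fun x => ∑' k, μ.V (· ≤ i) (Function.update u i x) (L k) (G k))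
      refine ⟨x, hx.trans (le_of_eq ?_)⟩
      rw [μ.tsum K (fun k x => μ.V (· ≤ i) (Function.update u i x) (L k) (G k))]
      congr 1
      funext k
      rw [μ.V_step i u _ _ (hL k)]) (by
      intro i u u' x h hle
      have e1 : ∀ k, μ.V (· ≤ i) (Function.update u i x) (L k) (G k)
          = μ.V (· ≤ i) (Function.update u' i x) (L k) (G k) := by
        intro k
        refine μ.V_congr _ _ _ _ _ _ (fun _ _ => Iff.rfl) ?_
        intro a _ ha
        rcases eq_or_lt_of_le ha with rfl | hlt
        · simp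
        · rw [Function.update_of_ne hlt.ne, Function.update_of_ne hlt.ne, h a hlt]
      have e2 : ∀ k, μ.V (· < i) u (L k) (G k) = μ.V (· < i) u' (L k) (G k) := fun k =>
        μ.V_congr _ _ _ _ _ _ (fun _ _ => Iff.rfl) (fun a _ ha => h a ha)
      simp only [← e1, ← e2]
      exact hle)
  simp only [Function.update_eq_self] at hw
  have key : ∀ f : I → Prop, (∀ a b, a ≤ b → f b → f a) →
      (∀ j, f j → ∑' k, μ.V (· ≤ j) w (L k) (G k) ≤ ∑' k, μ.J (L k).length (G k)) →
      ∑' k, μ.V f w (L k) (G k) ≤ ∑' k, μ.J (L k).length (G k) := by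
    intro f hdown hf
    rw [ENNReal.tsum_eq_iSup_sum]
    refine iSup_le fun s => ?_
    set A : Finset I := (s.biUnion (fun k => (L k).toFinset)).filter f with hA
    rcases A.eq_empty_or_nonempty with hE | hN
    · refine le_trans (le_of_eq ?_) (ENNReal.sum_le_tsum s)
      refine Finset.sum_congr rfl fun k hk => μ.V_none _ _ _ _ ?_
      intro a ha hfa
      have : a ∈ A := by
        rw [hA, Finset.mem_filter, Finset.mem_biUnion]
        exact ⟨⟨k, hk, List.mem_toFinset.2 ha⟩, hfa⟩
      rw [hE] at this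
      simp at this
    · have hj : A.max' hN ∈ A := A.max'_mem hN
      have hfj : f (A.max' hN) := (Finset.mem_filter.1 hj).2
      refine le_trans (le_trans (le_of_eq ?_) (ENNReal.sum_le_tsum s)) (hf _ hfj)
      refine Finset.sum_congr rfl fun k hk => μ.V_congr _ _ _ _ _ _ ?_ (fun _ _ _ => rfl)
      intro a ha
      constructor
      · intro hfa
        refine A.le_max' a ?_
        rw [hA, Finset.mem_filter, Finset.mem_biUnion]
        exact ⟨⟨k, hk, List.mem_toFinset.2 ha⟩, hfa⟩
      · intro hle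
        exact hdown _ _ hle hfj
  have ind : ∀ i, ∑' k, μ.V (· ≤ i) w (L k) (G k) ≤ ∑' k, μ.J (L k).length (G k) := by
    intro i
    induction i using WellFoundedLT.induction with
    | ind i ih =>
      exact (hw i).trans (key (· < i) (fun a b hab hb => lt_of_le_of_lt hab hb) ih)
  refine ⟨w, le_trans (le_of_eq ?_) (key (fun _ => True) (fun _ _ _ _ => trivial)
    (fun j _ => ind j))⟩
  congr 1
  funext k
  rw [μ.V_all _ _ _ _ (fun _ _ => trivial)]

/-- a property of `w` that fails only inside cylinder sets of arbitrarily small mass -/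
def AS [LinearOrder I] (Good : (I → X) → Prop) : Prop :=
  ∀ ε : ℝ≥0∞, 0 < ε → ∃ (L : List I) (G : List X → ℝ≥0∞), L.Pairwise (· < ·) ∧
    μ.J L.length G ≤ ε ∧ ∀ w, G (L.map w) < 1 → Good w

theorem realize_AS [LinearOrder I] [WellFoundedLT I] {K : Type} [Countable K]
    (Good : K → (I → X) → Prop) (h : ∀ k, μ.AS (Good k)) : ∃ w : I → X, ∀ k, Good k w := by
  obtain ⟨ε, hε, hsum⟩ := ENNReal.exists_pos_sum_of_countable (ε := 1) one_ne_zero K
  choose L G hL hJ hG using fun k => h k (ε k) (by exact_mod_cast hε k)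
  obtain ⟨w, hw⟩ := μ.realize L G hL
  refine ⟨w, fun k => hG k w ?_⟩
  calc G k ((L k).map w) ≤ ∑' k, G k ((L k).map w) := ENNReal.le_tsum k
    _ ≤ ∑' k, μ.J (L k).length (G k) := hw
    _ ≤ ∑' k, (ε k : ℝ≥0∞) := ENNReal.tsum_le_tsum hJ
    _ < 1 := hsum

open Classical in
/-- the first `N` entries fail `A` and the next one satisfies it -/
noncomputable def bad (A : X → List X → Prop) : ℕ → (List X → ℝ≥0∞) → List X → ℝ≥0∞
  | _, _, [] => 0
  | 0, f, s :: hi => if A s hi then f hi else 0
  | N + 1, f, x :: l => bad A N (fun hi => if A x hi then 0 else f hi) l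

lemma bad_eval (A : X → List X → Prop) (s : X) (hi : List X) : ∀ (mid : List X)
    (f : List X → ℝ≥0∞), (∀ x ∈ mid, ¬ A x hi) → A s hi →
    bad A mid.length f (mid ++ s :: hi) = f hi
  | [], f, _, h => by simp [bad, h]
  | x :: mid, f, h1, h => by
    simp only [List.length_cons, List.cons_append, bad]
    rw [bad_eval A s hi mid _ (fun y hy => h1 y (by simp [hy])) h, if_neg (h1 x (by simp))]

lemma bad_sum (A : X → List X → Prop) (b : ℕ) : ∀ (M : ℕ) (f : List X → ℝ≥0∞),
    ∑ N ∈ Finset.range M, μ.J (b + N + 1) (bad A N f) ≤ μ.J b f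
  | 0, f => by simp
  | M + 1, f => by
    classical
    rw [Finset.sum_range_succ']
    have e1 : ∀ N, μ.J (b + (N + 1) + 1) (bad A (N + 1) f) =
        μ.E (fun x => μ.J (b + N + 1) (bad A N (fun hi => if A x hi then 0 else f hi))) := by
      intro N
      rfl
    have e0 : μ.J (b + 0 + 1) (bad A 0 f) =
        μ.E (fun x => μ.J b (fun hi => if A x hi then f hi else 0)) := rfl
    simp only [e1]
    rw [e0, ← μ.sum, ← μ.add]
    refine le_trans (μ.mono _ (fun _ => μ.J b f) fun x => ?_) (le_of_eq (μ.const _))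
    refine le_trans (add_le_add (bad_sum A b M _) le_rfl) ?_
    rw [← μ.J_add]
    refine μ.J_mono _ _ _ fun l _ => ?_
    split_ifs <;> simp

lemma exists_bad_small (A : List X → X → List X → Prop) (a b : ℕ) (ε : ℝ≥0∞) (hε : 0 < ε) :
    ∃ N, μ.J (b + N + 1 + a) (fun l => bad (A (l.take a)) N (fun _ => 1) (l.drop a)) ≤ ε := by
  by_contra hcon
  push Not at hcon
  have h1 : ∀ M : ℕ, ∑ N ∈ Finset.range M,
      μ.J (b + N + 1 + a) (fun l => bad (A (l.take a)) N (fun _ => 1) (l.drop a)) ≤ 1 := by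
    intro M
    have e : ∀ N, μ.J (b + N + 1 + a) (fun l => bad (A (l.take a)) N (fun _ => 1) (l.drop a))
        = μ.J a (fun lo => μ.J (b + N + 1) (bad (A lo) N (fun _ => 1))) := by
      intro N
      rw [μ.J_append]
      refine μ.J_congr _ _ _ fun lo hlo => ?_
      congr 1
      funext l
      rw [← hlo]
      simp
    simp only [e]
    rw [← μ.J_sum]
    refine le_trans (μ.J_mono _ _ (fun _ => 1) fun lo _ => ?_) (le_of_eq (μ.J_const _ _))
    exact (μ.bad_sum _ b M _).trans (le_of_eq (μ.J_const _ _))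
  have h2 : ∀ M : ℕ, (M : ℝ≥0∞) * ε ≤ 1 := by
    intro M
    refine le_trans ?_ (h1 M)
    calc (M : ℝ≥0∞) * ε = ∑ _N ∈ Finset.range M, ε := by simp
      _ ≤ _ := Finset.sum_le_sum fun N _ => (hcon N).le
  obtain ⟨M, hM⟩ := ENNReal.exists_nat_mul_gt hε.ne' (ENNReal.one_ne_top)
  exact absurd (h2 M) (not_le.2 hM)

end Mean

end Pool.Agent.H417Z
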