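import Mathlib

set_option autoImplicit false

/-!
Systems of parameters in a Noetherian local algebra: one-step exchanges connect any two of them,
regularity and the trace of an endomorphism on the quotient are preserved by exchanges.
-/

namespace Pool.Agent.H417Z.Sop

open IsLocalRing

lemma trace_exact {K A B C : Type*} [Field K] [AddCommGroup A] [Module K A] [AddCommGroup B]
    [Module K B] [AddCommGroup C] [Module K C] [Module.Finite K A] [Module.Finite K B]
    [Module.Finite K C] (i : A →ₗ[K] B) (p : B →ₗ[K] C) (hi : Function.Injective i)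
    (hp : Function.Surjective p) (h0 : ∀ a, p (i a) = 0) (hex : ∀ b, p b = 0 → ∃ a, i a = b)
    (α : A →ₗ[K] A) (β : B →ₗ[K] B) (γ : C →ₗ[K] C) (h1 : β ∘ₗ i = i ∘ₗ α)
    (h2 : p ∘ₗ β = γ ∘ₗ p) :
    LinearMap.trace K B β = LinearMap.trace K A α + LinearMap.trace K C γ := by
  obtain ⟨s, hs⟩ := p.exists_rightInverse_of_surjective (LinearMap.range_eq_top.2 hp)
  obtain ⟨r₀, hr₀⟩ := i.exists_leftInverse_of_injective (LinearMap.ker_eq_bot.2 hi)
  have hs' : ∀ c, p (s c) = c := fun c => LinearMap.congr_fun hs c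
  have hr' : ∀ a, r₀ (i a) = a := fun a => LinearMap.congr_fun hr₀ a
  set r : B →ₗ[K] A := r₀ ∘ₗ (LinearMap.id - s ∘ₗ p) with hr
  have e1 : r ∘ₗ i = LinearMap.id := by
    ext a
    simp [hr, h0, hr']
  have e2 : i ∘ₗ r + s ∘ₗ p = LinearMap.id := by
    ext b
    obtain ⟨a, ha⟩ := hex (b - s (p b)) (by simp [hs'])
    have : r b = a := by
      simp only [hr, LinearMap.comp_apply, LinearMap.sub_apply, LinearMap.id_apply]
      rw [← ha, hr']
    simp [this, ha]
  have e3 : β = (i ∘ₗ (α ∘ₗ r)) + ((β ∘ₗ s) ∘ₗ p) := by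
    rw [← LinearMap.comp_assoc, ← h1, LinearMap.comp_assoc, LinearMap.comp_assoc,
      ← LinearMap.comp_add, e2, LinearMap.comp_id]
  rw [e3, map_add, LinearMap.trace_comp_comm' (α ∘ₗ r) i, LinearMap.trace_comp_comm' p (β ∘ₗ s),
    LinearMap.comp_assoc, e1, LinearMap.comp_id, ← LinearMap.comp_assoc, h2,
    LinearMap.comp_assoc, hs, LinearMap.comp_id]

variable {O : Type} [CommRing O] [IsLocalRing O] [IsNoetherianRing O]

/-- the only prime over `I` is the maximal ideal -/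
def Prim (I : Ideal O) : Prop := ∀ P : Ideal O, P.IsPrime → I ≤ P → maximalIdeal O ≤ P

omit [IsNoetherianRing O] in
lemma Prim.mono {I J : Ideal O} (h : Prim I) (hIJ : I ≤ J) : Prim J :=
  fun P hP hJ => h P hP (hIJ.trans hJ)

lemma Prim.pow_le {I : Ideal O} (h : Prim I) : ∃ N, maximalIdeal O ^ N ≤ I := by
  refine Ideal.exists_pow_le_of_le_radical_of_fg ?_ (IsNoetherian.noetherian _)
  rw [Ideal.radical_eq_sInf]
  exact le_sInf fun P hP => h P hP.2 hP.1

omit [IsNoetherianRing O] in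
lemma Prim.mul {I : Ideal O} {a b : O} (ha : Prim (I ⊔ Ideal.span {a}))
    (hb : Prim (I ⊔ Ideal.span {b})) : Prim (I ⊔ Ideal.span {a * b}) := by
  intro P hP h
  have h1 : a * b ∈ P := h (Ideal.mem_sup_right (Ideal.mem_span_singleton_self _))
  have hI : I ≤ P := le_sup_left.trans h
  rcases hP.mem_or_mem h1 with h2 | h2
  · exact ha P hP (sup_le hI ((Ideal.span_singleton_le_iff_mem _).2 h2))
  · exact hb P hP (sup_le hI ((Ideal.span_singleton_le_iff_mem _).2 h2))

lemma mem_of_not_prim {I : Ideal O} {u c : O} (hu : u ∈ maximalIdeal O)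
    (h : Prim (I ⊔ Ideal.span {u})) (hc : ¬ Prim (I ⊔ Ideal.span {c})) :
    ∃ P ∈ I.minimalPrimes, c ∈ P ∧ u ∉ P := by
  unfold Prim at hc
  push Not at hc
  obtain ⟨P', hP', hle, hne⟩ := hc
  obtain ⟨P, hP, hPP'⟩ := Ideal.exists_minimalPrimes_le (I := I) (J := P') (le_sup_left.trans hle)
  have hPp : P.IsPrime := hP.1.1
  have hIP : I ≤ P := hP.1.2
  have huP : u ∉ P := fun hu' =>
    hne ((h P hPp (sup_le hIP ((Ideal.span_singleton_le_iff_mem _).2 hu'))).trans hPP')
  refine ⟨P, hP, ?_, huP⟩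
  by_contra hcP
  have hcP' : c ∈ P' := hle (Ideal.mem_sup_right (Ideal.mem_span_singleton_self _))
  have hmin : maximalIdeal O ∈ (P ⊔ Ideal.span {u}).minimalPrimes := by
    refine ⟨⟨inferInstance, sup_le (le_maximalIdeal hPp.ne_top)
      ((Ideal.span_singleton_le_iff_mem _).2 hu)⟩, ?_⟩
    rintro Q ⟨hQ, hQle⟩ _
    exact h Q hQ (le_trans (sup_le_sup_right hIP _) hQle)
  have hht := Ideal.map_height_le_one_of_mem_minimalPrimes hmin
  have hP'm : P' ≤ maximalIdeal O := le_maximalIdeal hP'.ne_top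
  have hs : Function.Surjective (Ideal.Quotient.mk P) := Ideal.Quotient.mk_surjective
  have p1 : (P'.map (Ideal.Quotient.mk P)).IsPrime :=
    Ideal.map_isPrime_of_surjective hs (by simpa using hPP')
  have p2 : ((maximalIdeal O).map (Ideal.Quotient.mk P)).IsPrime :=
    Ideal.map_isPrime_of_surjective hs (by simpa using hPP'.trans hP'm)
  have l1 : (⊥ : Ideal (O ⧸ P)) < P'.map (Ideal.Quotient.mk P) := by
    rw [bot_lt_iff_ne_bot]
    intro h0
    have := Ideal.mem_map_of_mem (Ideal.Quotient.mk P) hcP'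
    rw [h0, Ideal.mem_bot, Ideal.Quotient.eq_zero_iff_mem] at this
    exact hcP this
  have l2 : P'.map (Ideal.Quotient.mk P) < (maximalIdeal O).map (Ideal.Quotient.mk P) := by
    refine lt_of_le_of_ne (Ideal.map_mono hP'm) fun h0 => hne ?_
    intro x hx
    have := Ideal.mem_map_of_mem (Ideal.Quotient.mk P) hx
    rw [← h0, ← Ideal.mem_comap, Ideal.comap_map_of_surjective _ hs] at this
    have e : Ideal.comap (Ideal.Quotient.mk P) ⊥ = P := by
      rw [← RingHom.ker_eq_comap_bot, Ideal.mk_ker]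
    rwa [e, sup_eq_left.2 hPP'] at this
  have q1 := Ideal.height_add_one_le_of_lt_of_isPrime l1
  have q2 := Ideal.height_add_one_le_of_lt_of_isPrime l2
  have q3 : (1 : ℕ∞) + 1 ≤ 1 := by
    refine le_trans ?_ (q2.trans hht)
    exact add_le_add_left (le_trans le_add_self q1) 1
  exact absurd q3 (by decide)

variable [Algebra ℂ O]

lemma finite_bad (I : Ideal O) (a b u : O) (hu : u ∈ maximalIdeal O) (huab : u = a ∨ u = b)
    (h : Prim (I ⊔ Ideal.span {u})) : {s : ℂ | ¬ Prim (I ⊔ Ideal.span {a + s • b})}.Finite := by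
  have hfin := Ideal.finite_minimalPrimes_of_isNoetherianRing O I
  refine (hfin.biUnion (t := fun P => {s : ℂ | a + s • b ∈ P ∧ u ∉ P}) ?_).subset ?_
  · intro P _
    refine Set.Subsingleton.finite ?_
    rintro s ⟨hs, hu'⟩ s' ⟨hs', _⟩
    by_contra hne
    have h1 : (s - s') • b ∈ P := by
      have := P.sub_mem hs hs'
      rwa [add_sub_add_left_eq_sub, ← sub_smul] at this
    have hb : b ∈ P := by
      have := P.smul_of_tower_mem (s - s')⁻¹ h1
      rwa [smul_smul, inv_mul_cancel₀ (sub_ne_zero.2 hne), one_smul] at this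
    have ha : a ∈ P := by
      have := P.sub_mem hs (P.smul_of_tower_mem s hb)
      rwa [add_sub_cancel_right] at this
    rcases huab with rfl | rfl
    · exact hu' ha
    · exact hu' hb
  · intro s hs
    obtain ⟨P, hP, h1, h2⟩ := mem_of_not_prim hu h hs
    exact Set.mem_biUnion hP ⟨h1, h2⟩

omit [IsLocalRing O] [IsNoetherianRing O] [Algebra ℂ O] in
lemma ofList_cons' (a : O) (L : List O) :
    Ideal.ofList (a :: L) = Ideal.ofList L ⊔ Ideal.span {a} := by
  rw [Ideal.ofList_cons, sup_comm]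

omit [IsLocalRing O] [IsNoetherianRing O] [Algebra ℂ O] in
lemma ofList_perm {L L' : List O} (h : L.Perm L') : Ideal.ofList L = Ideal.ofList L' := by
  unfold Ideal.ofList
  congr 1
  ext x
  exact h.mem_iff

theorem connect (𝒲 : Set (Submodule ℂ O)) (S : Set O)
    (hW : ∀ W ∈ 𝒲, ∀ x ∈ W, x ∈ maximalIdeal O ∧ x ∈ S) (n : ℕ) (Inv : List O → Prop)
    (hperm : ∀ L L', L.Perm L' → Inv L → Inv L')
    (hex : ∀ W ∈ 𝒲, ∀ a ∈ W, ∀ b ∈ W, ∀ L : List O, (∀ x ∈ L, x ∈ S) → L.length + 1 = n →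
      Prim (Ideal.ofList (a :: L)) → Prim (Ideal.ofList (b :: L)) → Inv (b :: L) → Inv (a :: L)) :
    ∀ (T : List (O × O)) (C : List O), (∀ t ∈ T, ∃ W ∈ 𝒲, t.1 ∈ W ∧ t.2 ∈ W) → (∀ x ∈ C, x ∈ S) →
      T.length + C.length = n →
      Prim (Ideal.ofList (T.map Prod.fst ++ C)) → Prim (Ideal.ofList (T.map Prod.snd ++ C)) →
      Inv (T.map Prod.snd ++ C) → Inv (T.map Prod.fst ++ C)
  | [], C, _, _, _, _, _, h => h
  | (a, b) :: T, C, hT, hC, hn, pa, pb, h => by
    obtain ⟨W, hWm, ha, hb⟩ := hT (a, b) (by simp)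
    have hT' : ∀ t ∈ T, ∃ W ∈ 𝒲, t.1 ∈ W ∧ t.2 ∈ W := fun t ht => hT t (by simp [ht])
    simp only [List.map_cons, List.cons_append] at pa pb h ⊢
    have f1 := finite_bad (Ideal.ofList (T.map Prod.fst ++ C)) a b a (hW W hWm a ha).1
      (Or.inl rfl) (by rwa [← ofList_cons'])
    have f2 := finite_bad (Ideal.ofList (T.map Prod.snd ++ C)) a b b (hW W hWm b hb).1
      (Or.inr rfl) (by rwa [← ofList_cons'])
    obtain ⟨s, hs⟩ := (f1.union f2).infinite_compl.nonempty
    simp only [Set.mem_compl_iff, Set.mem_union, Set.mem_ofPred_eq, not_or, not_not,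
      ← ofList_cons'] at hs
    have hc : a + s • b ∈ W := W.add_mem ha (W.smul_mem s hb)
    have hS1 : ∀ x ∈ T.map Prod.fst ++ C, x ∈ S := by
      intro x hx
      rcases List.mem_append.1 hx with hx | hx
      · obtain ⟨t, ht, rfl⟩ := List.mem_map.1 hx
        obtain ⟨W', h1, h2, _⟩ := hT' t ht
        exact (hW W' h1 _ h2).2
      · exact hC x hx
    have hS2 : ∀ x ∈ T.map Prod.snd ++ C, x ∈ S := by
      intro x hx
      rcases List.mem_append.1 hx with hx | hx
      · obtain ⟨t, ht, rfl⟩ := List.mem_map.1 hx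
        obtain ⟨W', h1, _, h2⟩ := hT' t ht
        exact (hW W' h1 _ h2).2
      · exact hC x hx
    simp only [List.length_cons] at hn
    have i1 := hex W hWm _ hc b hb _ hS2 (by simp; omega) hs.2 pb h
    have i2 := connect 𝒲 S hW n Inv hperm hex T ((a + s • b) :: C) hT' (by
        intro x hx
        rcases List.mem_cons.1 hx with rfl | hx
        · exact (hW W hWm _ hc).2
        · exact hC x hx) (by simp; omega)
      (by rw [ofList_perm List.perm_middle]; exact hs.1)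
      (by rw [ofList_perm List.perm_middle]; exact hs.2)
      (hperm _ _ List.perm_middle.symm i1)
    exact hex W hWm a ha _ hc _ hS1 (by simp; omega) pa hs.1 (hperm _ _ List.perm_middle i2)

/-- regular sequences modulo an ideal -/
def RegL : Ideal O → List O → Prop
  | _, [] => True
  | I, a :: L => (∀ r, a * r ∈ I → r ∈ I) ∧ RegL (I ⊔ Ideal.span {a}) L

omit [Algebra ℂ O] in
lemma RegL.perm {L L' : List O} (h : L.Perm L') : ∀ I : Ideal O,
    (∀ x ∈ L, x ∈ maximalIdeal O) → RegL I L → RegL I L' := by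
  induction h with
  | nil => exact fun _ _ h => h
  | cons a _ ih => exact fun I hm h => ⟨h.1, ih _ (fun x hx => hm x (by simp [hx])) h.2⟩
  | swap b a L =>
    rintro I hm ⟨ha, hb, hL⟩
    have ham : a ∈ maximalIdeal O := hm a (by simp)
    refine ⟨?_, ?_, ?_⟩
    · have key : I.colon {b} ≤ I := by
        refine Submodule.le_of_le_smul_of_le_jacobson_bot (I := maximalIdeal O)
          (IsNoetherian.noetherian _) (maximalIdeal_le_jacobson _) ?_
        intro r hr
        rw [Submodule.mem_colon_singleton, smul_eq_mul] at hr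
        have h1 := hb r (Ideal.mem_sup_left (by rwa [mul_comm]))
        obtain ⟨i, hi, t, ht, rfl⟩ := Submodule.mem_sup.1 h1
        obtain ⟨t, rfl⟩ := Ideal.mem_span_singleton'.1 ht
        refine Submodule.add_mem_sup hi ?_
        rw [mul_comm, ← smul_eq_mul]
        refine Submodule.smul_mem_smul ham ?_
        rw [Submodule.mem_colon_singleton, smul_eq_mul]
        apply ha
        have : a * (t * b) = (i + t * a) * b - i * b := by ring
        rw [this]
        exact I.sub_mem hr (I.mul_mem_right _ hi)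
      intro r hr
      apply key
      rw [Submodule.mem_colon_singleton, smul_eq_mul, mul_comm]
      exact hr
    · intro r hr
      obtain ⟨i, hi, t, ht, he⟩ := Submodule.mem_sup.1 hr
      obtain ⟨t, rfl⟩ := Ideal.mem_span_singleton'.1 ht
      have h1 : b * t ∈ I ⊔ Ideal.span {a} := by
        have : b * t = -i + r * a := by linear_combination he
        rw [this]
        exact Submodule.add_mem_sup (I.neg_mem hi) (Ideal.mem_span_singleton'.2 ⟨r, rfl⟩)
      obtain ⟨j, hj, t', ht', rfl⟩ := Submodule.mem_sup.1 (hb t h1)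
      obtain ⟨t', rfl⟩ := Ideal.mem_span_singleton'.1 ht'
      have h2 : r - t' * b ∈ I := by
        apply ha
        have : a * (r - t' * b) = i + j * b := by linear_combination -he
        rw [this]
        exact I.add_mem hi (I.mul_mem_right _ hj)
      have : r = (r - t' * b) + t' * b := by ring
      rw [this]
      exact Submodule.add_mem_sup h2 (Ideal.mem_span_singleton'.2 ⟨t', rfl⟩)
    · rwa [sup_right_comm]
  | trans h1 _ ih1 ih2 =>
    exact fun I hm h => ih2 I (fun x hx => hm x (h1.mem_iff.2 hx)) (ih1 I hm h)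

omit [IsLocalRing O] [IsNoetherianRing O] [Algebra ℂ O] in
lemma regL_append (a : O) : ∀ (L : List O) (I : Ideal O), RegL I (L ++ [a]) ↔
    RegL I L ∧ ∀ r, a * r ∈ I ⊔ Ideal.ofList L → r ∈ I ⊔ Ideal.ofList L
  | [], I => by simp [RegL]
  | b :: L, I => by
    simp only [List.cons_append, RegL]
    rw [regL_append a L, Ideal.ofList_cons, sup_assoc, and_assoc]

omit [Algebra ℂ O] in
lemma regL_cons {a : O} {L : List O} (hm : ∀ x ∈ a :: L, x ∈ maximalIdeal O) :
    RegL ⊥ (a :: L) ↔ RegL ⊥ L ∧ ∀ r, a * r ∈ Ideal.ofList L → r ∈ Ideal.ofList L := by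
  have := regL_append a L ⊥
  rw [bot_sup_eq] at this
  rw [← this]
  have hp : (a :: L).Perm (L ++ [a]) := (List.perm_append_singleton a L).symm
  exact ⟨RegL.perm hp _ hm, RegL.perm hp.symm _ (fun x hx => hm x (hp.mem_iff.2 hx))⟩

omit [Algebra ℂ O] in
lemma reg_of_prim {I : Ideal O} {a b : O} (hb : b ∈ maximalIdeal O)
    (hreg : ∀ r, b * r ∈ I → r ∈ I) (ha : Prim (I ⊔ Ideal.span {a})) :
    ∀ r, a * r ∈ I → r ∈ I := by
  intro r hr
  obtain ⟨N, hN⟩ := ha.pow_le
  have h1 : b ^ N * r ∈ I := by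
    obtain ⟨i, hi, t, ht, he⟩ := Submodule.mem_sup.1 (hN (Ideal.pow_mem_pow hb N))
    obtain ⟨t, rfl⟩ := Ideal.mem_span_singleton'.1 ht
    rw [← he, add_mul, mul_assoc]
    exact I.add_mem (I.mul_mem_right _ hi) (I.mul_mem_left _ hr)
  clear hN
  induction N with
  | zero => simpa using h1
  | succ N ih =>
    apply ih
    apply hreg
    rwa [← mul_assoc, ← pow_succ']

theorem regL_of_prim (X : List O) (hXm : ∀ x ∈ X, x ∈ maximalIdeal O) (hX : RegL ⊥ X)
    (hXp : Prim (Ideal.ofList X)) (L : List O) (hLm : ∀ x ∈ L, x ∈ maximalIdeal O)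
    (hlen : L.length = X.length) (hL : Prim (Ideal.ofList L)) : RegL ⊥ L := by
  have key := connect {(maximalIdeal O).restrictScalars ℂ} (maximalIdeal O : Set O)
    (by rintro W rfl x hx; exact ⟨hx, hx⟩) X.length
    (fun L => (∀ x ∈ L, x ∈ maximalIdeal O) ∧ RegL ⊥ L)
    (fun L L' h hL => ⟨fun x hx => hL.1 x (h.mem_iff.2 hx), RegL.perm h _ hL.1 hL.2⟩)
    (by
      rintro W rfl a ha b hb L hL _ pa _ ⟨h1, h2⟩
      have hm : ∀ x ∈ a :: L, x ∈ maximalIdeal O := by
        intro x hx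
        rcases List.mem_cons.1 hx with rfl | hx
        · exact ha
        · exact hL x hx
      rw [regL_cons h1] at h2
      refine ⟨hm, (regL_cons hm).2 ⟨h2.1, reg_of_prim hb h2.2 (by rwa [← ofList_cons'])⟩⟩)
    (L.zip X) [] (by
      intro t ht
      exact ⟨_, rfl, hLm _ (List.of_mem_zip ht).1, hXm _ (List.of_mem_zip ht).2⟩)
    (by simp) (by simp [hlen])
  rw [List.map_fst_zip hlen.le, List.map_snd_zip hlen.ge, List.append_nil, List.append_nil] at key
  exact (key hL hXp ⟨hXm, hX⟩).2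

/-- `τ` is the trace of the map induced by `σ` on `O ⧸ I` -/
def HasTr (σ : O →ₐ[ℂ] O) (I : Ideal O) (τ : ℂ) : Prop :=
  ∃ T : (O ⧸ I) →ₗ[ℂ] (O ⧸ I),
    (∀ x, T (Ideal.Quotient.mk I x) = Ideal.Quotient.mk I (σ x)) ∧ LinearMap.trace ℂ _ T = τ

omit [IsLocalRing O] [IsNoetherianRing O] in
lemma exists_hasTr (σ : O →ₐ[ℂ] O) (I : Ideal O) (h : ∀ x ∈ I, σ x ∈ I) : ∃ τ, HasTr σ I τ :=
  ⟨_, (Ideal.quotientMapₐ I σ h).toLinearMap, fun _ => rfl, rfl⟩

omit [IsLocalRing O] [IsNoetherianRing O] in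
lemma HasTr.unique {σ : O →ₐ[ℂ] O} {I : Ideal O} {τ τ' : ℂ} (h : HasTr σ I τ)
    (h' : HasTr σ I τ') : τ = τ' := by
  obtain ⟨T, h1, rfl⟩ := h
  obtain ⟨T', h2, rfl⟩ := h'
  congr 1
  ext x
  obtain ⟨x, rfl⟩ := Ideal.Quotient.mk_surjective x
  rw [h1, h2]

omit [IsLocalRing O] [IsNoetherianRing O] in
lemma stable_sup (σ : O →ₐ[ℂ] O) {I : Ideal O} (h : ∀ x ∈ I, σ x ∈ I) {a : O} {l : ℂ}
    (ha : σ a = l • a) : ∀ x ∈ I ⊔ Ideal.span {a}, σ x ∈ I ⊔ Ideal.span {a} := by
  intro x hx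
  obtain ⟨i, hi, t, ht, rfl⟩ := Submodule.mem_sup.1 hx
  obtain ⟨t, rfl⟩ := Ideal.mem_span_singleton'.1 ht
  rw [map_add, map_mul, ha]
  refine Submodule.add_mem_sup (h i hi) (Ideal.mem_span_singleton'.2 ⟨l • σ t, ?_⟩)
  simp

omit [IsLocalRing O] [IsNoetherianRing O] in
lemma trace_mul (σ : O →ₐ[ℂ] O) {I : Ideal O} {a b : O} {l : ℂ} (ha : σ a = l • a)
    (hreg : ∀ r, a * r ∈ I → r ∈ I) [Module.Finite ℂ (O ⧸ (I ⊔ Ideal.span {a}))]
    [Module.Finite ℂ (O ⧸ (I ⊔ Ideal.span {b}))] [Module.Finite ℂ (O ⧸ (I ⊔ Ideal.span {a * b}))]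
    {ta tb tab : ℂ} (h1 : HasTr σ (I ⊔ Ideal.span {a}) ta) (h2 : HasTr σ (I ⊔ Ideal.span {b}) tb)
    (h3 : HasTr σ (I ⊔ Ideal.span {a * b}) tab) : tab = l * tb + ta := by
  obtain ⟨Ta, h1, rfl⟩ := h1
  obtain ⟨Tb, h2, rfl⟩ := h2
  obtain ⟨Tab, h3, rfl⟩ := h3
  have hle : I ⊔ Ideal.span {a * b} ≤ I ⊔ Ideal.span {a} :=
    sup_le_sup_left ((Ideal.span_singleton_le_iff_mem _).2
      (Ideal.mem_span_singleton'.2 ⟨b, mul_comm _ _⟩)) _
  let i : (O ⧸ (I ⊔ Ideal.span {b})) →ₗ[O] (O ⧸ (I ⊔ Ideal.span {a * b})) :=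
    Submodule.mapQ _ _ (LinearMap.mulLeft O a) (by
      intro x hx
      obtain ⟨j, hj, t, ht, rfl⟩ := Submodule.mem_sup.1 hx
      obtain ⟨t, rfl⟩ := Ideal.mem_span_singleton'.1 ht
      simp only [Submodule.mem_comap, LinearMap.mulLeft_apply, mul_add]
      exact Submodule.add_mem_sup (I.mul_mem_left _ hj)
        (Ideal.mem_span_singleton'.2 ⟨t, by ring⟩))
  have hi : ∀ x, i (Ideal.Quotient.mk _ x) = Ideal.Quotient.mk _ (a * x) := fun _ => rfl
  let p := (Ideal.Quotient.factorₐ ℂ hle).toLinearMap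
  have hp : ∀ x, p (Ideal.Quotient.mk _ x) = Ideal.Quotient.mk _ x := fun _ => rfl
  have := trace_exact (i.restrictScalars ℂ) p ?_ ?_ ?_ ?_ (l • Tb) Tab Ta ?_ ?_
  · rw [this, map_smul, smul_eq_mul]
  · rw [injective_iff_map_eq_zero]
    intro x hx
    obtain ⟨x, rfl⟩ := Ideal.Quotient.mk_surjective x
    rw [LinearMap.restrictScalars_apply, hi, Ideal.Quotient.eq_zero_iff_mem] at hx
    rw [Ideal.Quotient.eq_zero_iff_mem]
    obtain ⟨j, hj, t, ht, he⟩ := Submodule.mem_sup.1 hx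
    obtain ⟨t, rfl⟩ := Ideal.mem_span_singleton'.1 ht
    have h4 : x - t * b ∈ I := by
      apply hreg
      have : a * (x - t * b) = j := by linear_combination -he
      rwa [this]
    have : x = (x - t * b) + t * b := by ring
    rw [this]
    exact Submodule.add_mem_sup h4 (Ideal.mem_span_singleton'.2 ⟨t, rfl⟩)
  · intro x
    obtain ⟨x, rfl⟩ := Ideal.Quotient.mk_surjective x
    exact ⟨_, hp x⟩
  · intro x
    obtain ⟨x, rfl⟩ := Ideal.Quotient.mk_surjective x
    rw [LinearMap.restrictScalars_apply, hi, hp, Ideal.Quotient.eq_zero_iff_mem]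
    exact Ideal.mem_sup_right (Ideal.mem_span_singleton'.2 ⟨x, mul_comm _ _⟩)
  · intro x hx
    obtain ⟨x, rfl⟩ := Ideal.Quotient.mk_surjective x
    rw [hp, Ideal.Quotient.eq_zero_iff_mem] at hx
    obtain ⟨j, hj, t, ht, rfl⟩ := Submodule.mem_sup.1 hx
    obtain ⟨t, rfl⟩ := Ideal.mem_span_singleton'.1 ht
    refine ⟨Ideal.Quotient.mk _ t, ?_⟩
    rw [LinearMap.restrictScalars_apply, hi, Ideal.Quotient.eq]
    have : a * t - (j + t * a) = -j := by ring
    rw [this]
    exact Ideal.mem_sup_left (I.neg_mem hj)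
  · refine LinearMap.ext fun x => ?_
    obtain ⟨x, rfl⟩ := Ideal.Quotient.mk_surjective x
    simp only [LinearMap.comp_apply, LinearMap.restrictScalars_apply, LinearMap.smul_apply]
    rw [hi, h3, h2, map_mul, ha, LinearMap.map_smul_of_tower, hi, smul_mul_assoc]
    rfl
  · refine LinearMap.ext fun x => ?_
    obtain ⟨x, rfl⟩ := Ideal.Quotient.mk_surjective x
    simp only [LinearMap.comp_apply]
    rw [h3, hp, hp, h1]

omit [IsLocalRing O] [IsNoetherianRing O] in
lemma stable_ofList (σ : O →ₐ[ℂ] O) : ∀ L : List O, (∀ x ∈ L, ∃ l : ℂ, σ x = l • x) →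
    ∀ x ∈ Ideal.ofList L, σ x ∈ Ideal.ofList L
  | [], _ => by simp
  | a :: L, h => by
    obtain ⟨l, hl⟩ := h a (by simp)
    rw [ofList_cons']
    exact stable_sup σ (stable_ofList σ L fun x hx => h x (by simp [hx])) hl

theorem trace_exchange (σ : O →ₐ[ℂ] O) (X : List O) (hXm : ∀ x ∈ X, x ∈ maximalIdeal O)
    (hX : RegL ⊥ X) (hXp : Prim (Ideal.ofList X))
    (hfin : ∀ I : Ideal O, Prim I → Module.Finite ℂ (O ⧸ I))
    (T : List (O × O)) (C : List O)
    (hT : ∀ t ∈ T, t.1 ∈ maximalIdeal O ∧ t.2 ∈ maximalIdeal O ∧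
      ∃ l : ℂ, l ≠ 1 ∧ σ t.1 = l • t.1 ∧ σ t.2 = l • t.2)
    (hC : ∀ x ∈ C, x ∈ maximalIdeal O ∧ ∃ l : ℂ, σ x = l • x)
    (hn : T.length + C.length = X.length)
    (p1 : Prim (Ideal.ofList (T.map Prod.fst ++ C)))
    (p2 : Prim (Ideal.ofList (T.map Prod.snd ++ C))) (τ : ℂ)
    (h : HasTr σ (Ideal.ofList (T.map Prod.snd ++ C)) τ) :
    HasTr σ (Ideal.ofList (T.map Prod.fst ++ C)) τ := by
  let E : ℂ → Submodule ℂ O := fun l =>
    (maximalIdeal O).restrictScalars ℂ ⊓ LinearMap.ker (σ.toLinearMap - l • LinearMap.id)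
  have hE : ∀ l x, x ∈ E l ↔ x ∈ maximalIdeal O ∧ σ x = l • x := by
    intro l x
    simp [E, sub_eq_zero]
  refine connect {W | ∃ l : ℂ, l ≠ 1 ∧ W = E l} {x | x ∈ maximalIdeal O ∧ ∃ l : ℂ, σ x = l • x}
    ?_ X.length (fun L => HasTr σ (Ideal.ofList L) τ) ?_ ?_ T C ?_ hC hn p1 p2 h
  · rintro W ⟨l, _, rfl⟩ x hx
    rw [hE] at hx
    exact ⟨hx.1, hx.1, l, hx.2⟩
  · intro L L' hp hL
    rwa [← ofList_perm hp]
  · rintro W ⟨l, hl, rfl⟩ a ha b hb L hL hlen pa pb hb'
    rw [hE] at ha hb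
    have hreg : ∀ c, c ∈ maximalIdeal O → Prim (Ideal.ofList (c :: L)) →
        ∀ r, c * r ∈ Ideal.ofList L → r ∈ Ideal.ofList L := by
      intro c hc pc
      have hm : ∀ x ∈ c :: L, x ∈ maximalIdeal O := by
        intro x hx
        rcases List.mem_cons.1 hx with rfl | hx
        · exact hc
        · exact (hL x hx).1
      exact ((regL_cons hm).1 (regL_of_prim X hXm hX hXp _ hm (by simpa using hlen) pc)).2
    have ra := hreg a ha.1 pa
    have rb := hreg b hb.1 pb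
    rw [ofList_cons'] at pa pb hb' ⊢
    have hst := stable_ofList σ L fun x hx => (hL x hx).2
    obtain ⟨ta, hta⟩ := exists_hasTr σ _ (stable_sup σ hst ha.2)
    have hab : σ (a * b) = (l * l) • (a * b) := by
      rw [map_mul, ha.2, hb.2, smul_mul_smul_comm]
    obtain ⟨tab, htab⟩ := exists_hasTr σ _ (stable_sup σ hst hab)
    have := hfin _ pa
    have := hfin _ pb
    have := hfin _ (pa.mul pb)
    have := hfin _ (pb.mul pa)
    have e1 := trace_mul σ ha.2 ra hta hb' htab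
    have e2 := trace_mul σ hb.2 rb hb' hta (by rwa [mul_comm b a])
    have e3 : ta = τ := by
      have : (1 - l) * (ta - τ) = 0 := by linear_combination e2 - e1
      exact sub_eq_zero.1 ((mul_eq_zero.1 this).resolve_left (sub_ne_zero.2 hl.symm))
    rwa [← e3]
  · intro t ht
    obtain ⟨h1, h2, l, hl, h3, h4⟩ := hT t ht
    exact ⟨E l, ⟨l, hl, rfl⟩, (hE _ _).2 ⟨h1, h3⟩, (hE _ _).2 ⟨h2, h4⟩⟩

end Pool.Agent.H417Z.Sop
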