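import Pool.Agent.H417Z.Mean

set_option autoImplicit false

/-!
Star points: a family `w (l, n)`, `n ≤ ω`, in which every top point `w (l, ω)` is reflected by the
points `w (l, n)` over all the other points.
-/

namespace Pool.Agent.H417Z

open scoped ENNReal

variable {X : Type}

lemma exists_recon {I : Type} [Nonempty X] : ∀ L : List I, ∃ ρ : List X → I → X,
    ∀ w : I → X, ∀ i ∈ L, ρ (L.map w) i = w i
  | [] => ⟨fun _ _ => Classical.arbitrary X, fun _ _ h => by simp at h⟩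
  | a :: L => by
    classical
    obtain ⟨ρ, hρ⟩ := exists_recon (I := I) L
    refine ⟨fun l => Function.update (ρ l.tail) a (l.headD (Classical.arbitrary X)), ?_⟩
    intro w i hi
    by_cases h : i = a
    · subst h; simp
    · simp only [List.map_cons, List.tail_cons]
      rw [Function.update_of_ne h]
      exact hρ w i (by simpa [h] using hi)

abbrev Idx : Type := ℕ ×ₗ ℕ∞

namespace Mean

variable (μ : Mean X)

lemma AS_ne {I : Type} [LinearOrder I] (p q : I) (h : p < q) :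
    μ.AS (fun w : I → X => w p ≠ w q) := by
  classical
  intro ε _
  refine ⟨[p, q], fun l => if l.head? = l.tail.head? then 1 else 0, by simp [h], ?_, ?_⟩
  · refine le_trans (μ.mono _ (fun _ => 0) fun x => le_of_eq ?_) (le_trans (μ.const 0).le zero_le)
    refine μ.atom x _ fun y hy => ?_
    exact if_neg (fun h => hy (Option.some.inj h).symm)
  · intro w hw he
    simp [he] at hw

lemma AS_star (l N₀ : ℕ) (P : Finset Idx) (hP : toLex (l, (⊤ : ℕ∞)) ∉ P)
    (A : (Idx → X) → X → Prop)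
    (hA : ∀ u u' x, (∀ p ∈ P, u p = u' p) → A u x → A u' x) :
    μ.AS (fun w : Idx → X => A w (w (toLex (l, ⊤))) →
      ∃ n : ℕ, N₀ ≤ n ∧ A w (w (toLex (l, (n : ℕ∞))))) := by
  classical
  have : Nonempty X := by
    obtain ⟨x, _⟩ := μ.exle (fun _ => 0)
    exact ⟨x⟩
  intro ε hε
  obtain ⟨N₁, hN₀, hN₁⟩ : ∃ N₁ : ℕ, N₀ ≤ N₁ ∧ ∀ p ∈ P,
      p < toLex (l, (N₁ : ℕ∞)) ∨ toLex (l, (⊤ : ℕ∞)) < p := by
    refine ⟨N₀ + P.sup (fun p => (ofLex p).2.toNat) + 1, by omega, fun p hp => ?_⟩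
    have hle : (ofLex p).2.toNat ≤ P.sup (fun p => (ofLex p).2.toNat) :=
      Finset.le_sup (f := fun p => (ofLex p).2.toNat) hp
    obtain ⟨⟨a, b⟩, rfl⟩ : ∃ q : ℕ × ℕ∞, toLex q = p := ⟨ofLex p, rfl⟩
    simp only [Prod.Lex.toLex_lt_toLex]
    rcases lt_trichotomy a l with h | h | h
    · exact Or.inl (Or.inl h)
    · subst h
      left; right
      refine ⟨rfl, ?_⟩
      induction b using ENat.recTopCoe with
      | top => exact absurd hp hP
      | coe b =>
        simp only [ofLex_toLex, ENat.toNat_natCast] at hle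
        exact_mod_cast (by omega)
    · exact Or.inr (Or.inl h)
  set lo : List Idx := (P.filter (· < toLex (l, (N₁ : ℕ∞)))).sort (· ≤ ·) with hlo
  set hi : List Idx := (P.filter (toLex (l, (⊤ : ℕ∞)) < ·)).sort (· ≤ ·) with hhi
  obtain ⟨ρ, hρ⟩ := exists_recon (X := X) (lo ++ hi)
  obtain ⟨N, hN⟩ := μ.exists_bad_small (fun a x b => A (ρ (a ++ b)) x) lo.length hi.length ε hε
  set mid : List Idx := (List.range N).map (fun n => toLex (l, ((N₁ + n : ℕ) : ℕ∞))) with hmid
  have hlo' : ∀ p ∈ lo, p < toLex (l, (N₁ : ℕ∞)) := by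
    intro p hp
    rw [hlo, Finset.mem_sort, Finset.mem_filter] at hp
    exact hp.2
  have hhi' : ∀ p ∈ hi, toLex (l, (⊤ : ℕ∞)) < p := by
    intro p hp
    rw [hhi, Finset.mem_sort, Finset.mem_filter] at hp
    exact hp.2
  have hmid' : ∀ p ∈ mid, toLex (l, (N₁ : ℕ∞)) ≤ p ∧ p < toLex (l, (⊤ : ℕ∞)) := by
    intro p hp
    rw [hmid, List.mem_map] at hp
    obtain ⟨n, _, rfl⟩ := hp
    constructor
    · rw [Prod.Lex.toLex_le_toLex]
      right
      exact ⟨rfl, Nat.cast_le.2 (Nat.le_add_right _ _)⟩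
    · rw [Prod.Lex.toLex_lt_toLex]
      right
      exact ⟨rfl, ENat.natCast_lt_top _⟩
  have htop : toLex (l, (N₁ : ℕ∞)) < toLex (l, (⊤ : ℕ∞)) := by
    rw [Prod.Lex.toLex_lt_toLex]
    right
    exact ⟨rfl, ENat.natCast_lt_top _⟩
  refine ⟨lo ++ (mid ++ toLex (l, ⊤) :: hi),
    fun v => bad (fun x b => A (ρ (v.take lo.length ++ b)) x) N (fun _ => 1)
      (v.drop lo.length), ?_, ?_, ?_⟩
  rotate_left 2
  · intro w hw hstar
    by_contra hcon
    push Not at hcon
    have hdep : ∀ x, A (ρ (lo.map w ++ hi.map w)) x ↔ A w x := by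
      have e : ∀ p ∈ P, ρ (lo.map w ++ hi.map w) p = w p := by
        intro p hp
        rw [← List.map_append]
        refine hρ w p ?_
        rcases hN₁ p hp with h | h
        · exact List.mem_append_left _ (by rw [hlo, Finset.mem_sort, Finset.mem_filter]; exact ⟨hp, h⟩)
        · exact List.mem_append_right _ (by rw [hhi, Finset.mem_sort, Finset.mem_filter]; exact ⟨hp, h⟩)
      intro x
      exact ⟨hA _ _ x e, hA _ _ x (fun p hp => (e p hp).symm)⟩
    have e1 : ((lo ++ (mid ++ toLex (l, ⊤) :: hi)).map w).take lo.length = lo.map w := by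
      rw [List.map_append, List.take_left' (by simp)]
    have e2 : ((lo ++ (mid ++ toLex (l, ⊤) :: hi)).map w).drop lo.length
        = mid.map w ++ w (toLex (l, ⊤)) :: hi.map w := by
      rw [List.map_append, List.drop_left' (by simp)]
      simp
    have e3 : N = (mid.map w).length := by simp [hmid]
    simp only [e1, e2] at hw
    rw [e3, bad_eval] at hw
    · exact lt_irrefl _ hw
    · intro x hx
      rw [hmid, List.map_map, List.mem_map] at hx
      obtain ⟨n, _, rfl⟩ := hx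
      rw [hdep]
      exact hcon (N₁ + n) (by omega)
    · rw [hdep]; exact hstar
  · rw [List.pairwise_append, List.pairwise_append, List.pairwise_cons]
    refine ⟨(Finset.sortedLT_sort _).pairwise, ⟨?_, ⟨hhi', (Finset.sortedLT_sort _).pairwise⟩, ?_⟩, ?_⟩
    · rw [hmid, List.pairwise_map]
      refine List.Pairwise.imp ?_ List.pairwise_lt_range
      intro a b hab
      rw [Prod.Lex.toLex_lt_toLex]
      right
      exact ⟨rfl, Nat.cast_lt.2 (Nat.add_lt_add_left hab _)⟩
    · intro a ha b hb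
      rcases List.mem_cons.1 hb with rfl | hb
      · exact (hmid' a ha).2
      · exact (hmid' a ha).2.trans (hhi' b hb)
    · intro a ha b hb
      rcases List.mem_append.1 hb with hb | hb
      · exact lt_of_lt_of_le (hlo' a ha) (hmid' b hb).1
      · rcases List.mem_cons.1 hb with rfl | hb
        · exact (hlo' a ha).trans htop
        · exact (hlo' a ha).trans (htop.trans (hhi' b hb))
  · have : (lo ++ (mid ++ toLex (l, ⊤) :: hi)).length = hi.length + N + 1 + lo.length := by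
      simp [hmid]; omega
    rw [this]
    exact hN

theorem exists_star (μ : Mean ℝ) {β : Type} [Countable β] (c : ℝ → β) :
    ∃ w : ℕ × ℕ∞ → ℝ, (∀ (l n m : ℕ), n < m → w (l, n) ≠ w (l, m)) ∧
      ∀ (l N₀ : ℕ) (F : List (List (ℕ × ℕ∞) × ℕ)), (∀ a ∈ F, (l, ⊤) ∉ a.1) →
        ∃ n : ℕ, N₀ ≤ n ∧ ∀ a ∈ F,
          c ((a.1.map w).sum + a.2 * w (l, n)) = c ((a.1.map w).sum + a.2 * w (l, ⊤)) := by
  classical
  let K₁ : Type := {k : ℕ × ℕ × ℕ // k.2.1 < k.2.2}
  let K₂ : Type := {k : ℕ × ℕ × List ((List (ℕ × ℕ∞) × ℕ) × β) // ∀ a ∈ k.2.2, (k.1, ⊤) ∉ a.1.1}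
  let A : K₂ → (Idx → ℝ) → ℝ → Prop := fun k u x =>
    ∀ a ∈ k.1.2.2, c ((a.1.1.map (fun p => u (toLex p))).sum + a.1.2 * x) = a.2
  let Good : K₁ ⊕ K₂ → (Idx → ℝ) → Prop := fun k w => match k with
    | Sum.inl k => w (toLex (k.1.1, (k.1.2.1 : ℕ∞))) ≠ w (toLex (k.1.1, (k.1.2.2 : ℕ∞)))
    | Sum.inr k => A k w (w (toLex (k.1.1, ⊤))) →
        ∃ n : ℕ, k.1.2.1 ≤ n ∧ A k w (w (toLex (k.1.1, (n : ℕ∞))))
  obtain ⟨w, hw⟩ := μ.realize_AS Good (by
    rintro (k | k)
    · refine μ.AS_ne _ _ ?_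
      rw [Prod.Lex.toLex_lt_toLex]
      right
      exact ⟨rfl, Nat.cast_lt.2 k.2⟩
    · refine μ.AS_star k.1.1 k.1.2.1
        ((k.1.2.2.flatMap (fun a => a.1.1.map toLex)).toFinset) ?_ (A k) ?_
      · rw [List.mem_toFinset, List.mem_flatMap]
        rintro ⟨a, ha, h⟩
        rw [List.mem_map] at h
        obtain ⟨p, hp, h⟩ := h
        have : p = (k.1.1, ⊤) := toLex.injective h
        exact k.2 a ha (this ▸ hp)
      · intro u u' x h hu a ha
        rw [← hu a ha]
        congr 3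
        refine List.map_congr_left fun p hp => (h _ ?_).symm
        rw [List.mem_toFinset, List.mem_flatMap]
        exact ⟨a, ha, List.mem_map_of_mem hp⟩)
  refine ⟨fun p => w (toLex p), fun l n m h => hw (Sum.inl ⟨(l, n, m), h⟩), ?_⟩
  intro l N₀ F hF
  let k : K₂ := ⟨(l, N₀, F.map (fun a => (a,
      c ((a.1.map (fun p => w (toLex p))).sum + a.2 * w (toLex (l, ⊤)))))), by
    intro a ha
    rw [List.mem_map] at ha
    obtain ⟨b, hb, rfl⟩ := ha
    exact hF b hb⟩
  obtain ⟨n, hn, h⟩ := hw (Sum.inr k) (by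
    intro a ha
    rw [List.mem_map] at ha
    obtain ⟨b, hb, rfl⟩ := ha
    rfl)
  exact ⟨n, hn, fun a ha => h _ (List.mem_map_of_mem ha)⟩

end Mean

end Pool.Agent.H417Z
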