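import Pool.Agent.H417Z.Star

set_option autoImplicit false

/-!
From star points to an infinite `X` with `X + X` monochromatic.
-/

namespace Pool.Agent.H417Z

open Filter

lemma exists_clique {α : Type} (U : Ultrafilter α) (hU : ∀ x, ∀ᶠ u in (U : Filter α), u ≠ x)
    (B : α → Prop) (hB : ∀ᶠ u in (U : Filter α), B u) (R : α → α → Prop)
    (hR : ∀ b, B b → ∀ᶠ u in (U : Filter α), R b u) :
    ∃ f : ℕ → α, Function.Injective f ∧ (∀ n, B (f n)) ∧ ∀ n m, n < m → R (f n) (f m) := by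
  classical
  have hne : Nonempty α := by
    obtain ⟨x, _⟩ := hB.exists
    exact ⟨x⟩
  obtain ⟨f, hf⟩ := exists_wf_seq (X := α) (I := ℕ)
    (fun i u x => B x ∧ ∀ j, j < i → (B (u j) → R (u j) x) ∧ x ≠ u j) (by
      intro i u
      have h1 : ∀ᶠ x in (U : Filter α), ∀ j ∈ Finset.range i, (B (u j) → R (u j) x) ∧ x ≠ u j := by
        rw [Filter.eventually_all_finset]
        intro j _
        refine Filter.Eventually.and ?_ (hU _)
        by_cases h : B (u j)
        · exact (hR _ h).mono fun x hx _ => hx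
        · exact Filter.Eventually.of_forall fun x hx => absurd hx h
      obtain ⟨x, hx1, hx2⟩ := (hB.and h1).exists
      exact ⟨x, hx1, fun j hj => hx2 j (Finset.mem_range.2 hj)⟩) (by
      intro i u u' x h hx
      refine ⟨hx.1, fun j hj => ?_⟩
      rw [← h j hj]
      exact hx.2 j hj)
  refine ⟨f, ?_, fun n => (hf n).1, fun n m h => ((hf m).2 n h).1 (hf n).1⟩
  intro n m h
  rcases lt_trichotomy n m with hl | hl | hl
  · exact absurd h.symm ((hf m).2 n hl).2
  · exact hl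
  · exact absurd h ((hf n).2 m hl).2

section

variable (w : ℕ × ℕ∞ → ℝ) (D : ℕ → Ultrafilter ℕ)

/-- iterated sum of the level ultrafilters `k, …, k + m - 1` -/
noncomputable def USum : ℕ → ℕ → Ultrafilter ℝ
  | _, 0 => pure 0
  | k, m + 1 => (D k).bind (fun n : ℕ => (USum (k + 1) m).map (fun u => w (k, n) + u))

/-- sum of the top points of the levels `k, …, k + m - 1` -/
noncomputable def SSum : ℕ → ℕ → ℝ
  | _, 0 => 0
  | k, m + 1 => w (k, ⊤) + SSum (k + 1) m

lemma ev_zero (k : ℕ) (φ : ℝ → Prop) : (∀ᶠ u in (USum w D k 0 : Filter ℝ), φ u) ↔ φ 0 := by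
  simp [USum]

lemma ev_succ (k m : ℕ) (φ : ℝ → Prop) : (∀ᶠ u in (USum w D k (m + 1) : Filter ℝ), φ u) ↔
    ∀ᶠ n : ℕ in (D k : Filter ℕ), ∀ᶠ u in (USum w D (k + 1) m : Filter ℝ), φ (w (k, n) + u) :=
  Iff.rfl

lemma ev_add : ∀ (m m' k : ℕ) (φ : ℝ → Prop),
    (∀ᶠ u in (USum w D k (m + m') : Filter ℝ), φ u) ↔
    ∀ᶠ a in (USum w D k m : Filter ℝ), ∀ᶠ b in (USum w D (k + m) m' : Filter ℝ), φ (a + b)
  | 0, m', k, φ => by
    rw [ev_zero]
    simp
  | m + 1, m', k, φ => by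
    rw [show m + 1 + m' = (m + m') + 1 by omega, ev_succ, ev_succ]
    refine Filter.eventually_congr (Filter.Eventually.of_forall fun n => ?_)
    rw [ev_add m m' (k + 1) (fun u => φ (w (k, n) + u)), show k + 1 + m = k + (m + 1) by omega]
    simp only [add_assoc]

lemma SSum_add : ∀ (m m' k : ℕ), SSum w k (m + m') = SSum w k m + SSum w (k + m) m'
  | 0, m', k => by simp [SSum]
  | m + 1, m', k => by
    rw [show m + 1 + m' = (m + m') + 1 by omega]
    simp only [SSum]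
    rw [SSum_add m m' (k + 1), show k + 1 + m = k + (m + 1) by omega, add_assoc]

/-- sums of points with index in `T` -/
def Cl (T : Set (ℕ × ℕ∞)) : AddSubmonoid ℝ := AddSubmonoid.closure (w '' T)

lemma Cl_mono {T T' : Set (ℕ × ℕ∞)} (h : T ⊆ T') : Cl w T ≤ Cl w T' :=
  AddSubmonoid.closure_mono (Set.image_mono h)

lemma Cl_pt {T : Set (ℕ × ℕ∞)} {p : ℕ × ℕ∞} (h : p ∈ T) : w p ∈ Cl w T :=
  AddSubmonoid.subset_closure ⟨p, h, rfl⟩

lemma Cl_nat {T : Set (ℕ × ℕ∞)} {v : ℝ} (h : v ∈ Cl w T) (q : ℕ) : (q : ℝ) * v ∈ Cl w T := by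
  rw [← nsmul_eq_mul]
  exact nsmul_mem h q

lemma Cl_list {T : Set (ℕ × ℕ∞)} {v : ℝ} (h : v ∈ Cl w T) :
    ∃ s : List (ℕ × ℕ∞), (∀ p ∈ s, p ∈ T) ∧ (s.map w).sum = v := by
  induction h using AddSubmonoid.closure_induction with
  | mem x hx =>
    obtain ⟨p, hp, rfl⟩ := hx
    exact ⟨[p], by simpa using hp, by simp⟩
  | zero => exact ⟨[], by simp, by simp⟩
  | add x y _ _ hx hy =>
    obtain ⟨s, hs, rfl⟩ := hx
    obtain ⟨t, ht, rfl⟩ := hy
    refine ⟨s ++ t, ?_, by simp⟩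
    intro p hp
    rcases List.mem_append.1 hp with h | h
    · exact hs p h
    · exact ht p h

lemma SSum_mem : ∀ (m k : ℕ) (T : Set (ℕ × ℕ∞)), (∀ l, k ≤ l → l < k + m → (l, ⊤) ∈ T) →
    SSum w k m ∈ Cl w T
  | 0, _, T, _ => (Cl w T).zero_mem
  | m + 1, k, T, h => (Cl w T).add_mem (Cl_pt w (h k le_rfl (by omega)))
      (SSum_mem m (k + 1) T fun l h1 h2 => h l (by omega) (by omega))

lemma fin_mem : ∀ (m k : ℕ), ∀ᶠ u in (USum w D k m : Filter ℝ), u ∈ Cl w {p | p.2 ≠ ⊤}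
  | 0, k => (ev_zero w D k _).2 (Cl w _).zero_mem
  | m + 1, k => by
    rw [ev_succ]
    refine Filter.Eventually.of_forall fun n => (fin_mem m (k + 1)).mono fun u hu => ?_
    exact (Cl w _).add_mem (Cl_pt w (ENat.natCast_ne_top n)) hu

lemma ne_pt (hD : ∀ k x, ∀ᶠ n : ℕ in (D k : Filter ℕ), w (k, n) ≠ x) :
    ∀ (m k : ℕ) (x : ℝ), ∀ᶠ u in (USum w D k (m + 1) : Filter ℝ), u ≠ x
  | 0, k, x => by
    rw [ev_succ]
    refine (hD k x).mono fun n hn => ?_
    rw [ev_zero]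
    simpa using hn
  | m + 1, k, x => by
    rw [ev_succ]
    refine Filter.Eventually.of_forall fun n => (ne_pt hD m (k + 1) (x - w (k, n))).mono ?_
    intro u hu h
    exact hu (by linarith)

lemma key {β : Type} (c : ℝ → β)
    (hD : ∀ (k : ℕ) (v : ℝ) (q : ℕ), v ∈ Cl w {p | p ≠ (k, ⊤)} →
      ∀ᶠ n : ℕ in (D k : Filter ℕ), c (v + q * w (k, n)) = c (v + q * w (k, ⊤))) :
    ∀ (m k : ℕ) (v : ℝ) (q : ℕ), v ∈ Cl w {p | ¬ (p.2 = ⊤ ∧ k ≤ p.1 ∧ p.1 < k + m)} →
      ∀ᶠ u in (USum w D k m : Filter ℝ), c (v + q * u) = c (v + q * SSum w k m)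
  | 0, k, v, q, _ => by
    rw [ev_zero]
    simp [SSum]
  | m + 1, k, v, q, hv => by
    rw [ev_succ]
    have h1 : v + q * SSum w (k + 1) m ∈ Cl w {p | p ≠ (k, ⊤)} := by
      refine (Cl w _).add_mem (Cl_mono w ?_ hv) (Cl_nat w (SSum_mem w m (k + 1) _ ?_) q)
      · rintro p hp rfl
        exact hp ⟨rfl, le_rfl, by simp⟩
      · intro l h1 _ h
        have : l = k := congrArg Prod.fst h
        omega
    refine (hD k _ q h1).mono fun n hn => ?_
    have h2 : v + q * w (k, n) ∈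
        Cl w {p | ¬ (p.2 = ⊤ ∧ k + 1 ≤ p.1 ∧ p.1 < k + 1 + m)} := by
      refine (Cl w _).add_mem (Cl_mono w ?_ hv) (Cl_nat w (Cl_pt w ?_) q)
      · rintro p hp ⟨a, b, c⟩
        exact hp ⟨a, by omega, by omega⟩
      · rintro ⟨a, _⟩
        exact ENat.natCast_ne_top n a
    refine (key c hD m (k + 1) _ q h2).mono fun u hu => ?_
    have e1 : v + q * (w (k, n) + u) = v + q * w (k, n) + q * u := by ring
    have e2 : v + q * w (k, n) + q * SSum w (k + 1) m
        = v + q * SSum w (k + 1) m + q * w (k, n) := by ring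
    have e3 : v + q * SSum w k (m + 1) = v + q * SSum w (k + 1) m + q * w (k, ⊤) := by
      simp only [SSum]; ring
    rw [e1, hu, e2, hn, e3]

end

lemma exists_D {β : Type} (c : ℝ → β) (w : ℕ × ℕ∞ → ℝ)
    (h : ∀ (l N₀ : ℕ) (F : List (List (ℕ × ℕ∞) × ℕ)), (∀ a ∈ F, (l, ⊤) ∉ a.1) →
        ∃ n : ℕ, N₀ ≤ n ∧ ∀ a ∈ F,
          c ((a.1.map w).sum + a.2 * w (l, n)) = c ((a.1.map w).sum + a.2 * w (l, ⊤)))
    (k : ℕ) : ∃ D : Ultrafilter ℕ, (∀ N, ∀ᶠ n : ℕ in (D : Filter ℕ), N ≤ n) ∧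
      ∀ (v : ℝ) (q : ℕ), v ∈ Cl w {p | p ≠ (k, ⊤)} →
        ∀ᶠ n : ℕ in (D : Filter ℕ), c (v + q * w (k, n)) = c (v + q * w (k, ⊤)) := by
  let S : ℕ × List (List (ℕ × ℕ∞) × ℕ) → Set ℕ := fun j =>
    {n | j.1 ≤ n ∧ ∀ a ∈ j.2, (k, ⊤) ∉ a.1 →
      c ((a.1.map w).sum + a.2 * w (k, n)) = c ((a.1.map w).sum + a.2 * w (k, ⊤))}
  have hne : (⨅ j, Filter.principal (S j)).NeBot := by
    classical
    refine Filter.iInf_neBot_of_directed ?_ ?_
    · intro i j
      refine ⟨(max i.1 j.1, i.2 ++ j.2), ?_, ?_⟩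
      · refine Filter.principal_mono.2 fun n hn => ⟨le_trans (le_max_left _ _) hn.1, ?_⟩
        exact fun a ha => hn.2 a (List.mem_append_left _ ha)
      · refine Filter.principal_mono.2 fun n hn => ⟨le_trans (le_max_right _ _) hn.1, ?_⟩
        exact fun a ha => hn.2 a (List.mem_append_right _ ha)
    · intro j
      rw [Filter.principal_neBot_iff]
      obtain ⟨n, hn, h2⟩ := h k j.1 (j.2.filter (fun a => (k, ⊤) ∉ a.1)) (by
        intro a ha
        simpa using (List.mem_filter.1 ha).2)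
      exact ⟨n, hn, fun a ha hk => h2 a (List.mem_filter.2 ⟨ha, by simpa using hk⟩)⟩
  have hS : ∀ j, S j ∈ (Ultrafilter.of (⨅ j, Filter.principal (S j)) : Filter ℕ) := fun j =>
    Ultrafilter.of_le _ (Filter.mem_iInf_of_mem j (Filter.mem_principal_self _))
  refine ⟨Ultrafilter.of (⨅ j, Filter.principal (S j)), fun N => ?_, fun v q hv => ?_⟩
  · exact Filter.mem_of_superset (hS (N, [])) fun n hn => hn.1
  · obtain ⟨s, hs, rfl⟩ := Cl_list w hv
    exact Filter.mem_of_superset (hS (0, [(s, q)])) fun n hn =>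
      hn.2 (s, q) (by simp) (fun hk => hs _ hk rfl)

theorem mono_sumset (μ : Mean ℝ) (r : ℕ) (c : ℝ → Fin r) :
    ∃ X : Set ℝ, X.Infinite ∧ ∃ k : Fin r, ∀ x ∈ X, ∀ y ∈ X, c (x + y) = k := by
  classical
  obtain ⟨w, hinj, hstar⟩ := μ.exists_star c
  choose D hD1 hD2 using exists_D c w hstar
  have hD0 : ∀ k x, ∀ᶠ n : ℕ in (D k : Filter ℕ), w (k, n) ≠ x := by
    intro k x
    by_cases h : ∃ m : ℕ, w (k, m) = x
    · obtain ⟨m, rfl⟩ := h
      exact (hD1 k (m + 1)).mono fun n hn he => hinj k m n (by omega) he.symm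
    · exact Filter.Eventually.of_forall fun n hn => h ⟨n, hn⟩
  have hcol : ∀ l : ℕ, ∃ χ : Fin r, ∀ᶠ u in (USum w D 0 l : Filter ℝ),
      c (u + (SSum w 0 l + 2 * SSum w l (r - l))) = χ := by
    intro l
    rw [← Ultrafilter.eventually_exists_iff]
    exact Filter.Eventually.of_forall fun u => ⟨_, rfl⟩
  choose χ hχ using hcol
  obtain ⟨i, j, hij, hjr, he⟩ : ∃ i j : ℕ, i < j ∧ j ≤ r ∧ χ i = χ j := by
    obtain ⟨a, b, hab, h⟩ := Fintype.exists_ne_map_eq_of_card_lt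
      (fun a : Fin (r + 1) => χ a) (by simp)
    rcases lt_or_gt_of_ne hab with hl | hl
    · exact ⟨a, b, hl, Nat.lt_succ_iff.1 b.2, h⟩
    · exact ⟨b, a, hl, Nat.lt_succ_iff.1 a.2, h.symm⟩
  obtain ⟨m, rfl⟩ : ∃ m, j = i + (m + 1) := ⟨j - i - 1, by omega⟩
  obtain ⟨t, rfl⟩ : ∃ t, r = i + (m + 1) + t := ⟨r - (i + (m + 1)), by omega⟩
  have h1 := hχ i
  have h2 := hχ (i + (m + 1))
  rw [ev_add] at h2
  rw [show i + (m + 1) + t - i = (m + 1) + t by omega, SSum_add] at h1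
  rw [show i + (m + 1) + t - (i + (m + 1)) = t by omega, SSum_add, ← he] at h2
  simp only [zero_add] at h2
  obtain ⟨a, ha1, ha2, ha3⟩ := (h1.and (h2.and (fin_mem w D i 0))).exists
  set y : ℝ := a + SSum w 0 i + 2 * SSum w (i + (m + 1)) t with hy
  set T : Set (ℕ × ℕ∞) := {p | ¬ (p.2 = ⊤ ∧ i ≤ p.1 ∧ p.1 < i + (m + 1))} with hT
  have hfin : {p : ℕ × ℕ∞ | p.2 ≠ ⊤} ⊆ T := fun p hp h => hp h.1
  have hyT : y ∈ Cl w T := by
    refine (Cl w _).add_mem ((Cl w _).add_mem (Cl_mono w hfin ha3) (SSum_mem w i 0 _ ?_)) ?_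
    · rintro l _ h2 ⟨_, h3, _⟩
      simp only at h3
      omega
    · have := Cl_nat w (SSum_mem w t (i + (m + 1)) T (by
        rintro l h1 _ ⟨_, _, h3⟩
        simp only at h3
        omega)) 2
      exact_mod_cast this
  obtain ⟨f, hf1, hf2, hf3⟩ := exists_clique (USum w D i (m + 1)) (ne_pt w D hD0 m i)
    (fun b => b ∈ Cl w T ∧ c (y + b + SSum w i (m + 1)) = χ i ∧ c (y + 2 * b) = χ i) (by
      refine ((fin_mem w D (m + 1) i).mono fun u hu => Cl_mono w hfin hu).and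
        ((ha2.mono fun b hb => ?_).and ((key w D c hD2 (m + 1) i y 2 hyT).mono fun b hb => ?_))
      · rw [← hb]; congr 1; rw [hy]; ring
      · rw [← ha1]
        push_cast at hb
        rw [hb]; congr 1; rw [hy]; ring)
    (fun b b' => c (y + b + b') = χ i) (by
      intro b hb
      refine (key w D c hD2 (m + 1) i (y + b) 1 ((Cl w _).add_mem hyT hb.1)).mono fun u hu => ?_
      simp only [Nat.cast_one, one_mul] at hu
      rw [hu, hb.2.1])
  refine ⟨Set.range (fun n => y / 2 + f n), Set.infinite_range_of_injective ?_, χ i, ?_⟩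
  · intro n n' h
    exact hf1 (add_left_cancel h)
  · rintro _ ⟨n, rfl⟩ _ ⟨n', rfl⟩
    rcases lt_trichotomy n n' with h | h | h
    · rw [← hf3 n n' h]; congr 1; ring
    · subst h
      rw [← (hf2 n).2.2]; congr 1; ring
    · rw [← hf3 n' n h]; congr 1; ring

/-- a countable colouring of the reals with no two-point `X` having `X + X` monochromatic -/
theorem exists_bad_colouring : ∃ c : ℝ → ℕ, ∀ x y : ℝ,
    c (x + x) = c (x + y) → c (x + x) = c (y + y) → x = y := by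
  classical
  let b := Module.Basis.ofVectorSpace ℚ ℝ
  let Q : ℝ → ℚ := fun v => (b.repr v).sum (fun _ a => a ^ 2)
  have hQ : ∀ (s : Finset (Module.Basis.ofVectorSpaceIndex ℚ ℝ)) (v : ℝ),
      (b.repr v).support ⊆ s → Q v = ∑ i ∈ s, (b.repr v i) ^ 2 := fun s v hs =>
    Finsupp.sum_of_support_subset _ hs _ (by simp)
  refine ⟨fun v => Encodable.encode (Q v), fun x y h1 h2 => ?_⟩
  have h1' : Q (x + x) = Q (x + y) := Encodable.encode_injective h1
  have h2' : Q (x + x) = Q (y + y) := Encodable.encode_injective h2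
  set s := (b.repr x).support ∪ (b.repr y).support with hs
  have hsub : ∀ u v : ℝ, (b.repr u).support ⊆ s → (b.repr v).support ⊆ s →
      (b.repr (u + v)).support ⊆ s := by
    intro u v hu hv
    rw [map_add]
    exact Finsupp.support_add.trans (Finset.union_subset hu hv)
  have hx : (b.repr x).support ⊆ s := Finset.subset_union_left
  have hy : (b.repr y).support ⊆ s := Finset.subset_union_right
  rw [hQ s _ (hsub _ _ hx hx), hQ s _ (hsub _ _ hx hy)] at h1'
  rw [hQ s _ (hsub _ _ hx hx), hQ s _ (hsub _ _ hy hy)] at h2'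
  have h3 : ∑ i ∈ s, (b.repr x i - b.repr y i) ^ 2 = 0 := by
    have : ∑ i ∈ s, (b.repr x i - b.repr y i) ^ 2 =
        (∑ i ∈ s, (b.repr (x + x) i) ^ 2 + ∑ i ∈ s, (b.repr (y + y) i) ^ 2) / 2
          - ∑ i ∈ s, (b.repr (x + y) i) ^ 2 := by
      rw [← Finset.sum_add_distrib, Finset.sum_div, ← Finset.sum_sub_distrib]
      refine Finset.sum_congr rfl fun i _ => ?_
      simp only [map_add, Finsupp.add_apply]
      ring
    rw [this, ← h1', ← h2']
    ring
  rw [Finset.sum_eq_zero_iff_of_nonneg (fun i _ => sq_nonneg _)] at h3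
  apply b.repr.injective
  ext i
  by_cases hi : i ∈ s
  · have := h3 i hi
    exact sub_eq_zero.1 (pow_eq_zero_iff (two_ne_zero) |>.1 this)
  · rw [Finsupp.notMem_support_iff.1 (fun h => hi (hx h)),
      Finsupp.notMem_support_iff.1 (fun h => hi (hy h))]

open MeasureTheory in
/-- a countably additive diffuse probability on all subsets gives a mean -/
theorem exists_mean {X : Type} (m : Set X → ℝ) (h0 : ∀ s, 0 ≤ m s) (h1 : m Set.univ = 1)
    (h2 : ∀ x : X, m {x} = 0)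
    (h3 : ∀ f : ℕ → Set X, Pairwise (Function.onFun Disjoint f) →
      HasSum (fun n => m (f n)) (m (⋃ n, f n))) : Nonempty (Mean X) := by
  let _ : MeasurableSpace X := ⊤
  have hem : m ∅ = 0 := by
    have := h3 (fun _ => ∅) (fun _ _ _ => by simp [Function.onFun])
    have h := this.summable.tendsto_atTop_zero
    exact tendsto_const_nhds_iff.1 h
  let ν : Measure X := Measure.ofMeasurable (fun s _ => ENNReal.ofReal (m s)) (by simp [hem]) (by
    intro f _ hd
    rw [← (h3 f hd).tsum_eq]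
    exact ENNReal.ofReal_tsum_of_nonneg (fun n => h0 _) (h3 f hd).summable)
  have hν : ∀ s, ν s = ENNReal.ofReal (m s) := fun s =>
    Measure.ofMeasurable_apply s MeasurableSpace.measurableSet_top
  have : IsProbabilityMeasure ν := ⟨by rw [hν, h1]; simp⟩
  have hm : ∀ f : X → ENNReal, Measurable f := fun f => measurable_from_top
  refine ⟨⟨fun f => ∫⁻ x, f x ∂ν, fun f g h => lintegral_mono h, fun a => by simp,
    fun f g => lintegral_add_left (hm f) g, fun K _ f => lintegral_tsum fun k => (hm _).aemeasurable,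
    fun f => exists_le_lintegral (hm f).aemeasurable, fun a f hf => ?_⟩⟩
  refine (lintegral_eq_zero_iff (hm f)).2 ?_
  refine measure_mono_null (t := {a}) ?_ (by rw [hν, h2]; simp)
  intro x hx
  by_contra h
  exact hx (hf x h)

end Pool.Agent.H417Z
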