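import Mathlib
import Pool.Agent.Helper813.SL4

set_option autoImplicit false

/-!
In `GL(4,5)` the subgroup generated by `diag(2,1,1,1)` is a cyclic TI-subgroup of order 4 that meets
`SL(4,5) · C(SL(4,5))` trivially.
-/

namespace Pool.Agent.H417Z.TI

open Matrix
open scoped commutatorElement

variable {F : Type} [Field F]

abbrev G (F : Type) [Field F] := GL (Fin 4) F

def dm (c : F) : Matrix (Fin 4) (Fin 4) F := diagonal (fun i => if i = 0 then c else 1)

lemma dm_mul (c d : F) : dm c * dm d = dm (c * d) := by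
  unfold dm
  rw [diagonal_mul_diagonal]
  congr 1
  funext i
  split_ifs <;> simp

lemma dm_one : dm (1 : F) = 1 := by
  unfold dm
  simp

lemma det_dm (c : F) : (dm c).det = c := by
  unfold dm
  rw [det_diagonal]
  simp

def φ : Fˣ →* G F where
  toFun c := ⟨dm c, dm (c⁻¹ : Fˣ), by rw [dm_mul]; simp [dm_one], by rw [dm_mul]; simp [dm_one]⟩
  map_one' := by ext1; simp [dm_one]
  map_mul' c d := by ext1; simp [dm_mul]

lemma det_φ (c : Fˣ) : GeneralLinearGroup.det (φ c) = c := by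
  ext
  exact det_dm (c : F)

lemma φ_inj : Function.Injective (φ (F := F)) := fun c d h => by
  rw [← det_φ c, h, det_φ]

def A (F : Type) [Field F] : Subgroup (G F) := φ.range

def L (F : Type) [Field F] : Subgroup (G F) :=
  (SpecialLinearGroup.toGL : SpecialLinearGroup (Fin 4) F →* G F).range

lemma mem_L {g : G F} : g ∈ L F ↔ GeneralLinearGroup.det g = 1 := by
  constructor
  · rintro ⟨s, rfl⟩
    ext
    exact s.2
  · intro h
    refine ⟨⟨g.1, congrArg Units.val h⟩, ?_⟩
    ext1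
    rfl

lemma A_cyc [Finite F] : IsCyclic (A F) := isCyclic_of_surjective φ.rangeRestrict φ.rangeRestrict_surjective

lemma A_card [Finite F] (h : Nat.card F = 5) : Nat.card (A F) = 4 := by
  have : Nat.card (A F) = Nat.card Fˣ := (Nat.card_congr (MonoidHom.ofInjective φ_inj).toEquiv).symm
  rw [this, Nat.card_units, h]

lemma comm_of_comm (g : Matrix (Fin 4) (Fin 4) F) (c d : F) (hc : c ≠ 1)
    (h : g * dm c = dm c * g) : g * dm d = dm d * g := by
  ext i j
  have hij := congrFun (congrFun h i) j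
  unfold dm at hij ⊢
  rw [mul_diagonal, diagonal_mul] at hij ⊢
  have hc' : c - 1 ≠ 0 := sub_ne_zero.2 hc
  by_cases hi : i = 0 <;> by_cases hj : j = 0
  · simp [hi, hj, mul_comm]
  · simp only [hi, hj, if_true, if_false, mul_one] at hij ⊢
    have : g 0 j = 0 := by
      have h2 : (c - 1) * g 0 j = 0 := by linear_combination -hij
      exact (mul_eq_zero.1 h2).resolve_left hc'
    simp [this]
  · simp only [hi, hj, if_true, if_false, one_mul] at hij ⊢
    have : g i 0 = 0 := by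
      have h2 : (c - 1) * g i 0 = 0 := by linear_combination hij
      exact (mul_eq_zero.1 h2).resolve_left hc'
    simp [this]
  · simp [hi, hj]

lemma A_TI (g : G F) :
    (∀ x ∈ A F, g * x * g⁻¹ ∈ A F → x = 1) ∨ (∀ x ∈ A F, g * x * g⁻¹ ∈ A F) := by
  by_cases h : ∀ x ∈ A F, g * x * g⁻¹ ∈ A F → x = 1
  · exact Or.inl h
  right
  push Not at h
  obtain ⟨_, ⟨c, rfl⟩, ⟨d, hd⟩, hne⟩ := h
  have hcd : d = c := by
    have := congrArg GeneralLinearGroup.det hd
    rw [det_φ, map_mul, map_mul, det_φ, map_inv, mul_inv_cancel_comm] at this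
    exact this
  subst hcd
  have h1 : g * φ d = φ d * g := by
    rw [← mul_inv_eq_iff_eq_mul]; exact hd.symm
  have hd1 : (d : F) ≠ 1 := by
    intro h
    apply hne
    have : d = 1 := Units.ext h
    rw [this, map_one]
  rintro _ ⟨e, rfl⟩
  have h2 : g * φ e = φ e * g := by
    ext1
    exact comm_of_comm g.1 d e hd1 (congrArg Units.val h1)
  rw [h2, mul_inv_cancel_right]
  exact ⟨e, rfl⟩

lemma cent_le (h4 : ∀ c : F, c ^ 4 ≠ 0 → c ^ 4 = 1) :
    Subgroup.centralizer (L F : Set (G F)) ≤ L F := by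
  intro g hg
  have h1 : (g : Matrix (Fin 4) (Fin 4) F) ∈ Set.range (Matrix.scalar (Fin 4)) := by
    refine Matrix.mem_range_scalar_of_commute_transvectionStruct fun t => ?_
    have := hg (SpecialLinearGroup.toGL ⟨t.toMatrix, t.det⟩) ⟨_, rfl⟩
    exact congrArg Units.val this
  obtain ⟨c, hc⟩ := h1
  rw [mem_L]
  have h2 : (g : Matrix (Fin 4) (Fin 4) F).det = c ^ 4 := by
    rw [← hc, scalar_apply, det_diagonal]
    simp
  have h3 : (g : Matrix (Fin 4) (Fin 4) F).det ≠ 0 := (GeneralLinearGroup.det g).ne_zero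
  ext
  exact h2.trans (h4 c (h2 ▸ h3))

lemma A_inf (h4 : ∀ c : F, c ^ 4 ≠ 0 → c ^ 4 = 1) :
    A F ⊓ (L F ⊔ Subgroup.centralizer (L F : Set (G F))) = ⊥ := by
  rw [sup_eq_left.2 (cent_le h4), Subgroup.eq_bot_iff_forall]
  rintro x ⟨⟨c, rfl⟩, h⟩
  have h1 := mem_L.1 h
  rw [det_φ] at h1
  rw [h1, map_one]

lemma L_perfect : ⁅L F, L F⁆ = L F := by
  have h := congrArg (Subgroup.map (SpecialLinearGroup.toGL : SpecialLinearGroup (Fin 4) F →* G F))
    (Pool.Agent.Helper813.sl_perfect (F := F))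
  rw [commutator_def, Subgroup.map_commutator, ← MonoidHom.range_eq_map] at h
  exact h

lemma L_ne : L F ≠ ⊥ := by
  intro h
  have h1 : SpecialLinearGroup.toGL (Pool.Agent.Helper813.tv (show (0 : Fin 4) ≠ 1 by decide) (1 : F))
      ∈ L F := ⟨_, rfl⟩
  rw [h, Subgroup.mem_bot, ← map_one SpecialLinearGroup.toGL] at h1
  have h2 := SpecialLinearGroup.toGL_injective h1
  apply Pool.Agent.Helper813.tv_not_center (F := F)
  rw [h2]
  exact Subgroup.one_mem _

lemma L_quasi (N : Subgroup (G F)) (hN : N ≤ L F) (h : ∀ l ∈ L F, ∀ n ∈ N, l * n * l⁻¹ ∈ N) :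
    N = L F ∨ N ≤ Subgroup.centralizer (L F : Set (G F)) := by
  have hn : (N.comap (SpecialLinearGroup.toGL : SpecialLinearGroup (Fin 4) F →* G F)).Normal := by
    refine ⟨fun n hn g => ?_⟩
    rw [Subgroup.mem_comap, map_mul, map_mul, map_inv]
    exact h _ ⟨g, rfl⟩ _ hn
  rcases Pool.Agent.Helper813.sl_normal _ hn with h1 | h1
  · left
    refine le_antisymm hN ?_
    rintro _ ⟨s, rfl⟩
    have : s ∈ N.comap (SpecialLinearGroup.toGL : SpecialLinearGroup (Fin 4) F →* G F) := by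
      rw [h1]; trivial
    exact this
  · right
    intro n hn
    obtain ⟨s, rfl⟩ := hN hn
    rintro _ ⟨t, rfl⟩
    rw [← map_mul, ← map_mul, Subgroup.mem_center_iff.1 (h1 hn) t]

lemma L_normal (x y : G F) (hy : y ∈ L F) : x * y * x⁻¹ ∈ L F := by
  rw [mem_L] at hy ⊢
  rw [map_mul, map_mul, hy, map_inv, mul_one, mul_inv_cancel]

theorem exists_field : ∃ (F : Type) (_ : Field F) (_ : Finite F), Nat.card F = 5 ∧
    ∀ c : F, c ^ 4 ≠ 0 → c ^ 4 = 1 := by
  have : Fact (Nat.Prime 5) := ⟨by norm_num⟩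
  refine ⟨ZMod 5, inferInstance, inferInstance, Nat.card_zmod 5, fun c hc => ?_⟩
  exact ZMod.pow_card_sub_one_eq_one (p := 5) (fun h => hc (by rw [h]; simp))

end Pool.Agent.H417Z.TI
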